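import Pool.Agent.Lib_helper17.CSF.Forest

set_option autoImplicit false

namespace Pool.MP_1af41f_co.CSF

open SimpleGraph

/-- A graph obtained by adding one edge between the two components of `c` and `d` is a join. -/
lemma exists_iso_join {V : Type} (T : SimpleGraph V) (hT : T.Connected) {c d : V} (hcd : T.Adj c d)
    (hb : ¬ (T.deleteEdges {s(c, d)}).Reachable c d) :
    let T' := T.deleteEdges {s(c, d)}
    ∃ e : join (T'.connectedComponentMk d).toSimpleGraph ⟨d, rfl⟩
        (T'.connectedComponentMk c).toSimpleGraph ⟨c, rfl⟩ ≃g T,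
      e (Sum.inr ⟨c, rfl⟩) = c := by
  intro T'
  have hreach : ∀ v, T'.Reachable v c ∨ T'.Reachable v d := by
    intro v
    have hv : Relation.ReflTransGen T.Adj v c := (T.reachable_iff_reflTransGen v c).1 (hT v c)
    induction hv using Relation.ReflTransGen.head_induction_on with
    | refl => exact Or.inl (Reachable.refl _)
    | @head v w hadj _ ih =>
      by_cases he : s(v, w) = s(c, d)
      · rw [Sym2.eq_iff] at he
        rcases he with ⟨rfl, rfl⟩ | ⟨rfl, rfl⟩
        · exact Or.inl (Reachable.refl _)
        · exact Or.inr (Reachable.refl _)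
      · have h1 : T'.Adj v w := by
          rw [deleteEdges_adj]
          exact ⟨hadj, by simpa using he⟩
        rcases ih with ih | ih
        · exact Or.inl (h1.reachable.trans ih)
        · exact Or.inr (h1.reachable.trans ih)
  let C := T'.connectedComponentMk c
  let D := T'.connectedComponentMk d
  have hCD : ∀ v, v ∈ C → v ∈ D → False := by
    intro v h1 h2
    have h1' : T'.Reachable v c := ConnectedComponent.exact h1
    have h2' : T'.Reachable v d := ConnectedComponent.exact h2
    exact hb (h1'.symm.trans h2')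
  let φ : (D : Type) ⊕ (C : Type) → V := Sum.elim Subtype.val Subtype.val
  have hinj : Function.Injective φ := by
    rintro (⟨x, hx⟩ | ⟨x, hx⟩) (⟨y, hy⟩ | ⟨y, hy⟩) h
    · simp only [φ, Sum.elim_inl] at h
      subst h; rfl
    · simp only [φ, Sum.elim_inl, Sum.elim_inr] at h
      subst h; exact (hCD _ hy hx).elim
    · simp only [φ, Sum.elim_inl, Sum.elim_inr] at h
      subst h; exact (hCD _ hx hy).elim
    · simp only [φ, Sum.elim_inr] at h
      subst h; rfl
  have hsurj : Function.Surjective φ := by
    intro v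
    rcases hreach v with h | h
    · exact ⟨Sum.inr ⟨v, ConnectedComponent.sound h⟩, rfl⟩
    · exact ⟨Sum.inl ⟨v, ConnectedComponent.sound h⟩, rfl⟩
  refine ⟨⟨Equiv.ofBijective φ ⟨hinj, hsurj⟩, ?_⟩, rfl⟩
  have hcC : c ∈ C := rfl
  have hdD : d ∈ D := rfl
  rintro (⟨x, hx⟩ | ⟨x, hx⟩) (⟨y, hy⟩ | ⟨y, hy⟩)
  · rw [join_inl_inl, ConnectedComponent.toSimpleGraph_adj]
    show T.Adj x y ↔ _
    rw [deleteEdges_adj]
    refine ⟨fun h => ⟨h, ?_⟩, fun h => h.1⟩
    intro he
    rw [Set.mem_singleton_iff, Sym2.eq_iff] at he
    rcases he with ⟨rfl, rfl⟩ | ⟨rfl, rfl⟩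
    · exact hCD _ hcC hx
    · exact hCD _ hcC hy
  · rw [join_inl_inr]
    show T.Adj x y ↔ _
    constructor
    · intro h
      by_cases he : s(x, y) = s(c, d)
      · rw [Sym2.eq_iff] at he
        rcases he with ⟨rfl, rfl⟩ | ⟨rfl, rfl⟩
        · exact (hCD _ hcC hx).elim
        · exact ⟨rfl, rfl⟩
      · exfalso
        have h1 : T'.Adj x y := by
          rw [deleteEdges_adj]
          exact ⟨h, by simpa using he⟩
        have h2 : y ∈ D := D.mem_supp_of_adj_mem_supp hx h1
        exact hCD _ hy h2
    · rintro ⟨h1, h2⟩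
      have h1' : x = d := congrArg Subtype.val h1
      have h2' : y = c := congrArg Subtype.val h2
      subst h1' h2'
      exact hcd.symm
  · rw [join_inr_inl]
    show T.Adj x y ↔ _
    constructor
    · intro h
      by_cases he : s(x, y) = s(c, d)
      · rw [Sym2.eq_iff] at he
        rcases he with ⟨rfl, rfl⟩ | ⟨rfl, rfl⟩
        · exact ⟨rfl, rfl⟩
        · exact (hCD _ hx hdD).elim
      · exfalso
        have h1 : T'.Adj x y := by
          rw [deleteEdges_adj]
          exact ⟨h, by simpa using he⟩
        have h2 : y ∈ C := C.mem_supp_of_adj_mem_supp hx h1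
        exact hCD _ h2 hy
    · rintro ⟨h1, h2⟩
      have h1' : x = c := congrArg Subtype.val h1
      have h2' : y = d := congrArg Subtype.val h2
      subst h1' h2'
      exact hcd
  · rw [join_inr_inr, ConnectedComponent.toSimpleGraph_adj]
    show T.Adj x y ↔ _
    rw [deleteEdges_adj]
    refine ⟨fun h => ⟨h, ?_⟩, fun h => h.1⟩
    intro he
    rw [Set.mem_singleton_iff, Sym2.eq_iff] at he
    rcases he with ⟨rfl, rfl⟩ | ⟨rfl, rfl⟩
    · exact hCD _ hy hdD
    · exact hCD _ hx hdD

/-- Every finite tree with a root is the rooted tree of a forest. -/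
theorem exists_rep (n : ℕ) : ∀ (V : Type) [Finite V] (T : SimpleGraph V), T.IsTree → ∀ c : V,
    Nat.card V = n → ∃ (f : Fr) (e : T ≃g Fr.G f), e c = Fr.ρ f := by
  induction n using Nat.strong_induction_on with
  | _ n ih =>
    intro V _ T hT c hn
    rcases subsingleton_or_nontrivial V with hs | hs
    · refine ⟨Fr.nil, ⟨⟨fun _ => (), fun _ => c, fun x => Subsingleton.elim _ _, fun _ => rfl⟩, ?_⟩,
        rfl⟩
      intro x y
      have : x = y := Subsingleton.elim _ _
      subst this
      constructor
      · intro h; exact h.elim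
      · intro h; exact (T.loopless.irrefl _ h).elim
    · obtain ⟨d, hcd⟩ := hT.connected.preconnected.exists_adj_of_nontrivial c
      have hb : ¬ (T.deleteEdges {s(c, d)}).Reachable c d :=
        isBridge_iff.1 ((isAcyclic_iff_forall_adj_isBridge.1 hT.isAcyclic) hcd)
      obtain ⟨e, he⟩ := exists_iso_join T hT.connected hcd hb
      have hac : (T.deleteEdges {s(c, d)}).IsAcyclic := hT.isAcyclic.anti (deleteEdges_le _)
      have hC := hac.isTree_connectedComponent ((T.deleteEdges {s(c, d)}).connectedComponentMk c)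
      have hD := hac.isTree_connectedComponent ((T.deleteEdges {s(c, d)}).connectedComponentMk d)
      have hdC : d ∉ (T.deleteEdges {s(c, d)}).connectedComponentMk c := fun h =>
        hb (ConnectedComponent.exact h).symm
      have hcD : c ∉ (T.deleteEdges {s(c, d)}).connectedComponentMk d := fun h =>
        hb (ConnectedComponent.exact h)
      have hcardC : Nat.card ((T.deleteEdges {s(c, d)}).connectedComponentMk c : Type) < n := by
        rw [← hn]
        exact Finite.card_subtype_lt hdC
      have hcardD : Nat.card ((T.deleteEdges {s(c, d)}).connectedComponentMk d : Type) < n := by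
        rw [← hn]
        exact Finite.card_subtype_lt hcD
      obtain ⟨b, eb, hb'⟩ := ih _ hcardC _ _ hC ⟨c, rfl⟩ rfl
      obtain ⟨a, ea, ha'⟩ := ih _ hcardD _ _ hD ⟨d, rfl⟩ rfl
      refine ⟨Fr.cons a b, e.symm.trans (joinCongr ea ha' eb hb'), ?_⟩
      show (joinCongr ea ha' eb hb') (e.symm c) = _
      have : e.symm c = Sum.inr ⟨c, rfl⟩ := by
        apply e.injective
        rw [he]
        exact e.apply_symm_apply _
      rw [this]
      show Sum.inr (eb ⟨c, rfl⟩) = _
      rw [hb']
      rfl

end Pool.MP_1af41f_co.CSF
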