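import Pool.Agent.Lib_helper17.CSF.Main
import Pool.Agent.Lib_helper17.CSF.Rep

set_option autoImplicit false

namespace Pool.MP_1af41f_co.CSF

open scoped Classical

namespace Fr

/-- size of the component of a vertex after removing the root -/
def cs : (f : Fr) → W f → ℕ
  | nil, _ => 0
  | cons a _, Sum.inl _ => 1 + a.size
  | cons _ b, Sum.inr w => cs b w

/-- index of the branch containing a vertex -/
def bl : (f : Fr) → W f → ℕ
  | nil, _ => 0
  | cons _ _, Sum.inl _ => 0
  | cons _ b, Sum.inr w => bl b w + 1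

lemma inl_ne_root {a b : Fr} (w : W a) : (Sum.inl w : W (cons a b)) ≠ ρ (cons a b) := by
  intro h
  exact Sum.inl_ne_inr h

lemma inr_ne_root {a b : Fr} (w : W b) :
    (Sum.inr w : W (cons a b)) ≠ ρ (cons a b) ↔ w ≠ ρ b := by
  constructor
  · intro h h'
    exact h (congrArg Sum.inr h')
  · intro h h'
    exact h (Sum.inr_injective h')

lemma reach_root (f : Fr) (x : W f) : (G f).Reachable x (ρ f) := by
  induction f with
  | nil => exact SimpleGraph.Reachable.refl _
  | cons a b iha ihb =>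
    let hl : G a →g G (cons a b) := ⟨fun u => Sum.inl u, fun {u v} h => h⟩
    let hr : G b →g G (cons a b) := ⟨fun u => Sum.inr u, fun {u v} h => h⟩
    rcases x with x | x
    · have h1 : (G (cons a b)).Reachable (Sum.inl x) (Sum.inl (ρ a)) := (iha x).map hl
      have h2 : (G (cons a b)).Adj (Sum.inl (ρ a)) (Sum.inr (ρ b)) := ⟨rfl, rfl⟩
      exact h1.trans h2.reachable
    · exact (ihb x).map hr

lemma bl_eq_of_adj (f : Fr) (u v : W f) (hu : u ≠ ρ f) (hv : v ≠ ρ f) (h : (G f).Adj u v) :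
    bl f u = bl f v := by
  induction f with
  | nil => exact (hu rfl).elim
  | cons a b _ ih =>
    rcases u with u | u <;> rcases v with v | v
    · rfl
    · exfalso
      apply hv
      show Sum.inr v = Sum.inr (ρ b)
      rw [(show u = ρ a ∧ v = ρ b from h).2]
    · exfalso
      apply hu
      show Sum.inr u = Sum.inr (ρ b)
      rw [(show u = ρ b ∧ v = ρ a from h).1]
    · show bl b u + 1 = bl b v + 1
      rw [ih u v ((inr_ne_root u).1 hu) ((inr_ne_root v).1 hv) h]

/-- the tree without its root -/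
abbrev G' (f : Fr) : SimpleGraph {v : W f | v ≠ ρ f} := (G f).induce {v | v ≠ ρ f}

lemma bl_eq_of_reachable (f : Fr) (x y : {v : W f | v ≠ ρ f}) (h : (G' f).Reachable x y) :
    bl f x.1 = bl f y.1 := by
  obtain ⟨p⟩ := h
  induction p with
  | nil => rfl
  | @cons u v w huv _ ih => exact (bl_eq_of_adj f u.1 v.1 u.2 v.2 huv).trans ih

lemma reachable_of_bl_eq (f : Fr) (x y : {v : W f | v ≠ ρ f}) (h : bl f x.1 = bl f y.1) :
    (G' f).Reachable x y := by
  induction f with
  | nil => exact (x.2 rfl).elim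
  | cons a b _ ih =>
    obtain ⟨x | x, hx⟩ := x <;> obtain ⟨y | y, hy⟩ := y
    · let hl : G a →g G' (cons a b) := ⟨fun u => ⟨Sum.inl u, inl_ne_root u⟩, fun {u v} h => h⟩
      exact ((reach_root a x).trans (reach_root a y).symm).map hl
    · exfalso
      have : (0 : ℕ) = bl b y + 1 := h
      omega
    · exfalso
      have : bl b x + 1 = (0 : ℕ) := h
      omega
    · let hr : G' b →g G' (cons a b) :=
        ⟨fun u => ⟨Sum.inr u.1, (inr_ne_root u.1).2 u.2⟩, fun {u v} h => h⟩
      have h1 : bl b x = bl b y := by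
        have : bl b x + 1 = bl b y + 1 := h
        omega
      exact (ih ⟨x, (inr_ne_root x).1 hx⟩ ⟨y, (inr_ne_root y).1 hy⟩ h1).map hr

lemma card_bl (f : Fr) (x : W f) (hx : x ≠ ρ f) :
    Nat.card {y : W f // y ≠ ρ f ∧ bl f y = bl f x} = cs f x := by
  induction f with
  | nil => exact (hx rfl).elim
  | cons a b _ ih =>
    have e : {y : W (cons a b) // y ≠ ρ (cons a b) ∧ bl (cons a b) y = bl (cons a b) x} ≃
        {u : W a // (Sum.inl u : W (cons a b)) ≠ ρ (cons a b) ∧
          bl (cons a b) (Sum.inl u) = bl (cons a b) x} ⊕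
        {u : W b // (Sum.inr u : W (cons a b)) ≠ ρ (cons a b) ∧
          bl (cons a b) (Sum.inr u) = bl (cons a b) x} := Equiv.subtypeSum
    rw [Nat.card_congr e, Nat.card_sum]
    rcases x with x | x
    · have h1 : Nat.card {u : W a // (Sum.inl u : W (cons a b)) ≠ ρ (cons a b) ∧
          bl (cons a b) (Sum.inl u) = bl (cons a b) (Sum.inl x)} = 1 + a.size := by
        rw [← card_W a, ← Nat.card_eq_fintype_card]
        exact Nat.card_congr (Equiv.subtypeUnivEquiv (fun u => ⟨inl_ne_root u, rfl⟩))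
      have h2 : Nat.card {u : W b // (Sum.inr u : W (cons a b)) ≠ ρ (cons a b) ∧
          bl (cons a b) (Sum.inr u) = bl (cons a b) (Sum.inl x)} = 0 := by
        rw [Nat.card_eq_zero]
        left
        refine ⟨fun u => ?_⟩
        have : bl b u.1 + 1 = (0 : ℕ) := u.2.2
        omega
      rw [h1, h2]
      rfl
    · have h1 : Nat.card {u : W a // (Sum.inl u : W (cons a b)) ≠ ρ (cons a b) ∧
          bl (cons a b) (Sum.inl u) = bl (cons a b) (Sum.inr x)} = 0 := by
        rw [Nat.card_eq_zero]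
        left
        refine ⟨fun u => ?_⟩
        have : (0 : ℕ) = bl b x + 1 := u.2.2
        omega
      have h2 : Nat.card {u : W b // (Sum.inr u : W (cons a b)) ≠ ρ (cons a b) ∧
          bl (cons a b) (Sum.inr u) = bl (cons a b) (Sum.inr x)} =
          Nat.card {y : W b // y ≠ ρ b ∧ bl b y = bl b x} := by
        refine Nat.card_congr (Equiv.subtypeEquivRight (fun u => ?_))
        rw [inr_ne_root]
        show u ≠ ρ b ∧ bl b u + 1 = bl b x + 1 ↔ _
        rw [Nat.add_right_cancel_iff]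
      rw [h1, h2, ih x ((inr_ne_root x).1 hx), zero_add]
      rfl

lemma exists_cs_of_mem (f : Fr) {a : Fr} (ha : a ∈ f.toList) :
    ∃ x : W f, x ≠ ρ f ∧ cs f x = 1 + a.size := by
  induction f with
  | nil => simp [toList] at ha
  | cons c b _ ih =>
    simp only [toList, List.mem_cons] at ha
    rcases ha with rfl | ha
    · exact ⟨Sum.inl (ρ a), inl_ne_root _, rfl⟩
    · obtain ⟨x, hx, hx'⟩ := ih ha
      exact ⟨Sum.inr x, (inr_ne_root x).2 hx, hx'⟩

lemma exists_mem_of_cs (f : Fr) (x : W f) (hx : x ≠ ρ f) :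
    ∃ a ∈ f.toList, 1 + a.size = cs f x := by
  induction f with
  | nil => exact (hx rfl).elim
  | cons c b _ ih =>
    rcases x with x | x
    · exact ⟨c, by simp [toList], rfl⟩
    · obtain ⟨a, ha, ha'⟩ := ih x ((inr_ne_root x).1 hx)
      exact ⟨a, by simp [toList, ha], ha'⟩

lemma card_cs_lt (f : Fr) (z : ℕ) (hf : ∀ a ∈ f.toList, 1 + a.size ≤ z) :
    Nat.card {y : W f // y ≠ ρ f ∧ cs f y < z} = (small z f).size := by
  induction f with
  | nil =>
    rw [Nat.card_eq_zero.2 (Or.inl ⟨fun u => u.2.1 rfl⟩)]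
    rfl
  | cons a b _ ih =>
    have e : {y : W (cons a b) // y ≠ ρ (cons a b) ∧ cs (cons a b) y < z} ≃
        {u : W a // (Sum.inl u : W (cons a b)) ≠ ρ (cons a b) ∧ cs (cons a b) (Sum.inl u) < z} ⊕
        {u : W b // (Sum.inr u : W (cons a b)) ≠ ρ (cons a b) ∧ cs (cons a b) (Sum.inr u) < z} :=
      Equiv.subtypeSum
    rw [Nat.card_congr e, Nat.card_sum]
    have h2 : Nat.card {u : W b // (Sum.inr u : W (cons a b)) ≠ ρ (cons a b) ∧
        cs (cons a b) (Sum.inr u) < z} = Nat.card {y : W b // y ≠ ρ b ∧ cs b y < z} := by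
      refine Nat.card_congr (Equiv.subtypeEquivRight (fun u => ?_))
      rw [inr_ne_root]
      rfl
    rw [h2, ih (fun c hc => hf c (by simp [toList, hc])), small_cons]
    split_ifs with h
    · have h1 : Nat.card {u : W a // (Sum.inl u : W (cons a b)) ≠ ρ (cons a b) ∧
          cs (cons a b) (Sum.inl u) < z} = 0 := by
        rw [Nat.card_eq_zero]
        left
        refine ⟨fun u => ?_⟩
        have : 1 + a.size < z := u.2.2
        omega
      rw [h1, zero_add]
    · have h3 := hf a (by simp [toList])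
      have h1 : Nat.card {u : W a // (Sum.inl u : W (cons a b)) ≠ ρ (cons a b) ∧
          cs (cons a b) (Sum.inl u) < z} = 1 + a.size := by
        rw [← card_W a, ← Nat.card_eq_fintype_card]
        exact Nat.card_congr (Equiv.subtypeUnivEquiv (fun u =>
          ⟨inl_ne_root u, lt_of_le_of_ne h3 h⟩))
      rw [h1]
      rfl

end Fr

/-- number of vertices of the component of `v` in `T - c` -/
noncomputable def cc {V : Type} (T : SimpleGraph V) (c : V) (v : {v : V | v ≠ c}) : ℕ :=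
  Nat.card ((T.induce {v | v ≠ c}).connectedComponentMk v).supp

lemma cc_G (f : Fr) (x : {v : Fr.W f | v ≠ Fr.ρ f}) :
    cc (Fr.G f) (Fr.ρ f) x = Fr.cs f x.1 := by
  rw [← Fr.card_bl f x.1 x.2]
  unfold cc
  refine Nat.card_congr ?_
  refine
    { toFun := fun y => ⟨y.1.1, y.1.2, ?_⟩
      invFun := fun y => ⟨⟨y.1, y.2.1⟩, ?_⟩
      left_inv := fun y => rfl
      right_inv := fun y => rfl }
  · have := y.2
    rw [SimpleGraph.ConnectedComponent.mem_supp_iff, SimpleGraph.ConnectedComponent.eq] at this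
    exact Fr.bl_eq_of_reachable f _ _ this
  · rw [SimpleGraph.ConnectedComponent.mem_supp_iff, SimpleGraph.ConnectedComponent.eq]
    exact Fr.reachable_of_bl_eq f _ _ y.2.2

/-- isomorphisms induce isomorphisms of vertex-deleted graphs -/
noncomputable def delIso {V V' : Type} {T : SimpleGraph V} {T' : SimpleGraph V'} (e : T ≃g T')
    {c : V} {c' : V'} (hc : e c = c') :
    T.induce {v | v ≠ c} ≃g T'.induce {v | v ≠ c'} where
  toEquiv := e.toEquiv.subtypeEquiv (fun v => by
    show v ≠ c ↔ e v ≠ c'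
    rw [← hc]
    exact (e.injective.ne_iff).symm)
  map_rel_iff' := by
    intro u v
    exact e.map_rel_iff

lemma cc_iso {V V' : Type} {T : SimpleGraph V} {T' : SimpleGraph V'} (e : T ≃g T')
    {c : V} {c' : V'} (hc : e c = c') (v : {v : V | v ≠ c}) :
    cc T' c' (delIso e hc v) = cc T c v := by
  unfold cc
  exact (Nat.card_congr (SimpleGraph.ConnectedComponent.isoEquivSupp (delIso e hc)
    ((T.induce {v | v ≠ c}).connectedComponentMk v))).symm

/-- The theorem for trees. -/
theorem main {V W : Type} [Fintype V] [Fintype W] (T₁ : SimpleGraph V) (T₂ : SimpleGraph W)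
    (hT₁ : T₁.IsTree) (hT₂ : T₂.IsTree) (c : V) (z : ℕ)
    (hle : ∀ v, cc T₁ c v ≤ z) (hex : ∃ v, cc T₁ c v = z)
    (hs : 2 * z ≤ Nat.card {v // cc T₁ c v < z}) (hX : XEq T₁ T₂) : Nonempty (T₁ ≃g T₂) := by
  obtain ⟨f₁, e₁, he₁⟩ := exists_rep (Nat.card V) V T₁ hT₁ c rfl
  obtain ⟨d⟩ : Nonempty W := hT₂.connected.nonempty
  obtain ⟨f₂, e₂, _⟩ := exists_rep (Nat.card W) W T₂ hT₂ d rfl
  have hX' : XEq (Fr.G f₁) (Fr.G f₂) := hX.of_iso e₁ e₂
  have hcs : ∀ x : {v : Fr.W f₁ | v ≠ Fr.ρ f₁}, Fr.cs f₁ x.1 =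
      cc T₁ c ((delIso e₁ he₁).symm x) := by
    intro x
    rw [← cc_G, ← cc_iso e₁ he₁, RelIso.apply_symm_apply]
  have h1 : ∀ a ∈ f₁.toList, 1 + a.size ≤ z := by
    intro a ha
    obtain ⟨x, hx, hx'⟩ := Fr.exists_cs_of_mem f₁ ha
    rw [← hx', hcs ⟨x, hx⟩]
    exact hle _
  have h2 : ∃ a ∈ f₁.toList, 1 + a.size = z := by
    obtain ⟨v, hv⟩ := hex
    obtain ⟨a, ha, ha'⟩ := Fr.exists_mem_of_cs f₁ (delIso e₁ he₁ v).1 (delIso e₁ he₁ v).2
    refine ⟨a, ha, ?_⟩
    rw [ha', hcs, RelIso.symm_apply_apply, hv]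
  have h3 : 2 * z ≤ (f₁.small z).size := by
    rw [← Fr.card_cs_lt f₁ z h1]
    refine hs.trans (le_of_eq ?_)
    refine Nat.card_congr ?_
    have e : {v // cc T₁ c v < z} ≃
        {y : {v : Fr.W f₁ | v ≠ Fr.ρ f₁} // Fr.cs f₁ y.1 < z} :=
      (delIso e₁ he₁).toEquiv.subtypeEquiv (fun v => by
        have := hcs (delIso e₁ he₁ v)
        rw [RelIso.symm_apply_apply] at this
        show _ ↔ Fr.cs f₁ (delIso e₁ he₁ v).1 < z
        rw [this])
    refine e.trans (Equiv.subtypeSubtypeEquivSubtypeInter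
      (fun y : Fr.W f₁ => y ≠ Fr.ρ f₁) (fun y => Fr.cs f₁ y < z))
  obtain ⟨e⟩ := fr_unique hX' h1 h2 h3
  exact ⟨(e₁.trans e).trans e₂.symm⟩

end Pool.MP_1af41f_co.CSF
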