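import Pool.Agent.Lib_helper17.CSF.H
import Pool.Agent.Lib_helper17.CSF.Comp

set_option autoImplicit false

/-! Fringe subtrees as sets of vertices: `below T c v`. -/

namespace Pool.MP_1af41f_co.CSF

open SimpleGraph
open scoped Classical

/-- the vertices below `v` in the tree `T` rooted at `c` -/
def blw {V : Type} (T : SimpleGraph V) (c v : V) : Set V := {w | ∀ p : T.Walk c w, v ∈ p.support}

lemma blw_root {V : Type} (T : SimpleGraph V) (c : V) : blw T c c = Set.univ := by
  ext w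
  simp only [blw, Set.mem_ofPred_eq, Set.mem_univ, iff_true]
  intro p
  exact p.start_mem_support

lemma mem_blw_iso {V V' : Type} {T : SimpleGraph V} {T' : SimpleGraph V'} (e : T ≃g T') (c v w : V) :
    e w ∈ blw T' (e c) (e v) ↔ w ∈ blw T c v := by
  constructor
  · intro h p
    have h1 := h (p.map e.toHom)
    rw [Walk.support_map, List.mem_map] at h1
    obtain ⟨x, hx, hxv⟩ := h1
    have : x = v := e.injective hxv
    rwa [← this]
  · intro h p
    have h1 := h ((p.map e.symm.toHom).copy (e.symm_apply_apply c) (e.symm_apply_apply w))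
    rw [Walk.support_copy, Walk.support_map, List.mem_map] at h1
    obtain ⟨x, hx, hxv⟩ := h1
    have h2 : x = e v := by
      rw [← hxv]
      exact (e.apply_symm_apply x).symm
    rwa [← h2]

lemma card_blw_iso {V V' : Type} {T : SimpleGraph V} {T' : SimpleGraph V'} (e : T ≃g T') (c v : V) :
    Nat.card (blw T' (e c) (e v)) = Nat.card (blw T c v) := by
  refine (Nat.card_congr (e.toEquiv.subtypeEquiv (fun w => ?_))).symm
  exact (mem_blw_iso e c v w).symm

section join
variable {V₁ V₂ : Type} {G₁ : SimpleGraph V₁} {r₁ : V₁} {G₂ : SimpleGraph V₂} {r₂ : V₂}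

/-- collapse the second side to the first root -/
def coll₁ (r₁ : V₁) : V₁ ⊕ V₂ → V₁ := Sum.elim id (fun _ => r₁)

/-- collapse the first side to the second root -/
def coll₂ (r₂ : V₂) : V₁ ⊕ V₂ → V₂ := Sum.elim (fun _ => r₂) id

lemma exists_walk_coll₁ {u t : V₁ ⊕ V₂} (q : (join G₁ r₁ G₂ r₂).Walk u t) :
    ∀ y : V₁, t = Sum.inl y → ∃ p : G₁.Walk (coll₁ r₁ u) y, ∀ v ∈ p.support,
      (Sum.inl v : V₁ ⊕ V₂) ∈ q.support := by
  induction q with
  | @nil u =>
    rintro y rfl
    have key : ∃ p : G₁.Walk y y, ∀ v ∈ p.support, (Sum.inl v : V₁ ⊕ V₂) ∈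
        (Walk.nil : (join G₁ r₁ G₂ r₂).Walk (Sum.inl y) (Sum.inl y)).support := by
      refine ⟨Walk.nil, ?_⟩
      intro v hv
      have hv' : v = y := by simpa using hv
      subst hv'
      simp
    exact key
  | @cons u w t h q ih =>
    intro y hy
    rcases u with u | u <;> rcases w with w | w
    · obtain ⟨p, hp⟩ : ∃ p : G₁.Walk w y, ∀ v ∈ p.support, (Sum.inl v : V₁ ⊕ V₂) ∈ q.support :=
        ih y hy
      have h' : G₁.Adj u w := h
      have key : ∃ p : G₁.Walk u y, ∀ v ∈ p.support, (Sum.inl v : V₁ ⊕ V₂) ∈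
          (Walk.cons h q).support := by
        refine ⟨Walk.cons h' p, ?_⟩
        intro v hv
        rw [Walk.support_cons, List.mem_cons] at hv
        rw [Walk.support_cons]
        rcases hv with rfl | hv
        · exact List.mem_cons_self
        · exact List.mem_cons_of_mem _ (hp v hv)
      exact key
    · obtain ⟨p, hp⟩ := ih y hy
      obtain ⟨h1, h2⟩ := (join_inl_inr G₁ r₁ G₂ r₂ u w).1 h
      subst h1
      refine ⟨p, fun v hv => ?_⟩
      rw [Walk.support_cons]
      exact List.mem_cons_of_mem _ (hp v hv)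
    · obtain ⟨p, hp⟩ := ih y hy
      obtain ⟨h1, h2⟩ := (join_inr_inl G₁ r₁ G₂ r₂ u w).1 h
      subst h2
      refine ⟨p, fun v hv => ?_⟩
      rw [Walk.support_cons]
      exact List.mem_cons_of_mem _ (hp v hv)
    · obtain ⟨p, hp⟩ := ih y hy
      refine ⟨p, fun v hv => ?_⟩
      rw [Walk.support_cons]
      exact List.mem_cons_of_mem _ (hp v hv)

lemma exists_walk_coll₂ {u t : V₁ ⊕ V₂} (q : (join G₁ r₁ G₂ r₂).Walk u t) :
    ∀ y : V₂, t = Sum.inr y → ∃ p : G₂.Walk (coll₂ r₂ u) y, ∀ v ∈ p.support,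
      (Sum.inr v : V₁ ⊕ V₂) ∈ q.support := by
  induction q with
  | @nil u =>
    rintro y rfl
    have key : ∃ p : G₂.Walk y y, ∀ v ∈ p.support, (Sum.inr v : V₁ ⊕ V₂) ∈
        (Walk.nil : (join G₁ r₁ G₂ r₂).Walk (Sum.inr y) (Sum.inr y)).support := by
      refine ⟨Walk.nil, ?_⟩
      intro v hv
      have hv' : v = y := by simpa using hv
      subst hv'
      simp
    exact key
  | @cons u w t h q ih =>
    intro y hy
    rcases u with u | u <;> rcases w with w | w
    · obtain ⟨p, hp⟩ := ih y hy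
      refine ⟨p, fun v hv => ?_⟩
      rw [Walk.support_cons]
      exact List.mem_cons_of_mem _ (hp v hv)
    · obtain ⟨p, hp⟩ := ih y hy
      obtain ⟨h1, h2⟩ := (join_inl_inr G₁ r₁ G₂ r₂ u w).1 h
      subst h2
      refine ⟨p, fun v hv => ?_⟩
      rw [Walk.support_cons]
      exact List.mem_cons_of_mem _ (hp v hv)
    · obtain ⟨p, hp⟩ := ih y hy
      obtain ⟨h1, h2⟩ := (join_inr_inl G₁ r₁ G₂ r₂ u w).1 h
      subst h1
      refine ⟨p, fun v hv => ?_⟩
      rw [Walk.support_cons]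
      exact List.mem_cons_of_mem _ (hp v hv)
    · obtain ⟨p, hp⟩ : ∃ p : G₂.Walk w y, ∀ v ∈ p.support, (Sum.inr v : V₁ ⊕ V₂) ∈ q.support :=
        ih y hy
      have h' : G₂.Adj u w := h
      have key : ∃ p : G₂.Walk u y, ∀ v ∈ p.support, (Sum.inr v : V₁ ⊕ V₂) ∈
          (Walk.cons h q).support := by
        refine ⟨Walk.cons h' p, ?_⟩
        intro v hv
        rw [Walk.support_cons, List.mem_cons] at hv
        rw [Walk.support_cons]
        rcases hv with rfl | hv
        · exact List.mem_cons_self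
        · exact List.mem_cons_of_mem _ (hp v hv)
      exact key

lemma exists_walk_map {U U' : Type} {H : SimpleGraph U} {H' : SimpleGraph U'} (f : H →g H')
    {u v : U} (p : H.Walk u v) {u' v' : U'} (hu : f u = u') (hv : f v = v') :
    ∃ q : H'.Walk u' v', ∀ z ∈ q.support, ∃ x ∈ p.support, f x = z := by
  subst hu hv
  refine ⟨p.map f, ?_⟩
  intro z hz
  rwa [Walk.support_map, List.mem_map] at hz

/-- inclusion of the first side -/
def homL (G₁ : SimpleGraph V₁) (r₁ : V₁) (G₂ : SimpleGraph V₂) (r₂ : V₂) :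
    G₁ →g join G₁ r₁ G₂ r₂ := ⟨fun u => Sum.inl u, fun {_ _} h => h⟩

/-- inclusion of the second side -/
def homR (G₁ : SimpleGraph V₁) (r₁ : V₁) (G₂ : SimpleGraph V₂) (r₂ : V₂) :
    G₂ →g join G₁ r₁ G₂ r₂ := ⟨fun u => Sum.inr u, fun {_ _} h => h⟩

lemma exists_walk_inl {y : V₁} (p : G₁.Walk r₁ y) :
    ∃ q : (join G₁ r₁ G₂ r₂).Walk (Sum.inr r₂) (Sum.inl y), ∀ z ∈ q.support,
      z = Sum.inr r₂ ∨ ∃ x ∈ p.support, Sum.inl x = z := by
  obtain ⟨q, hq⟩ := exists_walk_map (homL G₁ r₁ G₂ r₂) p (u' := Sum.inl r₁) (v' := Sum.inl y) rfl rfl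
  have hadj : (join G₁ r₁ G₂ r₂).Adj (Sum.inr r₂) (Sum.inl r₁) := ⟨rfl, rfl⟩
  refine ⟨Walk.cons hadj q, ?_⟩
  intro z hz
  rw [Walk.support_cons, List.mem_cons] at hz
  rcases hz with hz | hz
  · exact Or.inl hz
  · exact Or.inr (hq z hz)

lemma exists_walk_inr {y : V₂} (p : G₂.Walk r₂ y) :
    ∃ q : (join G₁ r₁ G₂ r₂).Walk (Sum.inr r₂) (Sum.inr y), ∀ z ∈ q.support,
      ∃ x ∈ p.support, Sum.inr x = z :=
  exists_walk_map (homR G₁ r₁ G₂ r₂) p (u' := Sum.inr r₂) (v' := Sum.inr y) rfl rfl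

lemma blw_inl (x : V₁) (hc : ∀ y, G₂.Reachable r₂ y) :
    blw (join G₁ r₁ G₂ r₂) (Sum.inr r₂) (Sum.inl x) = Sum.inl '' blw G₁ r₁ x := by
  ext w
  rcases w with w | w
  · constructor
    · intro h
      refine ⟨w, fun p => ?_, rfl⟩
      obtain ⟨q, hq⟩ := exists_walk_inl (G₂ := G₂) (r₂ := r₂) p
      rcases hq _ (h q) with h1 | ⟨z, hz, hzx⟩
      · exact (Sum.inl_ne_inr h1).elim
      · have : z = x := Sum.inl_injective hzx
        rwa [← this]
    · rintro ⟨w', hw', h⟩
      have : w' = w := Sum.inl_injective h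
      subst this
      intro q
      obtain ⟨p, hp⟩ := exists_walk_coll₁ q w' rfl
      exact hp _ (hw' p)
  · constructor
    · intro h
      obtain ⟨p⟩ := hc w
      obtain ⟨q, hq⟩ := exists_walk_inr (G₁ := G₁) (r₁ := r₁) p
      obtain ⟨z, _, hz⟩ := hq _ (h q)
      exact (Sum.inr_ne_inl hz).elim
    · rintro ⟨w', _, h⟩
      exact (Sum.inl_ne_inr h).elim

lemma blw_inr (x : V₂) (hx : x ≠ r₂) (hc : ∀ y, G₁.Reachable r₁ y) :
    blw (join G₁ r₁ G₂ r₂) (Sum.inr r₂) (Sum.inr x) = Sum.inr '' blw G₂ r₂ x := by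
  ext w
  rcases w with w | w
  · constructor
    · intro h
      obtain ⟨p⟩ := hc w
      obtain ⟨q, hq⟩ := exists_walk_inl (G₂ := G₂) (r₂ := r₂) p
      rcases hq _ (h q) with h1 | ⟨z, _, hz⟩
      · exact (hx (Sum.inr_injective h1)).elim
      · exact (Sum.inl_ne_inr hz).elim
    · rintro ⟨w', _, h⟩
      exact (Sum.inr_ne_inl h).elim
  · constructor
    · intro h
      refine ⟨w, fun p => ?_, rfl⟩
      obtain ⟨q, hq⟩ := exists_walk_inr (G₁ := G₁) (r₁ := r₁) p
      obtain ⟨z, hz, hzx⟩ := hq _ (h q)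
      have : z = x := Sum.inr_injective hzx
      rwa [← this]
    · rintro ⟨w', hw', h⟩
      have : w' = w := Sum.inr_injective h
      subst this
      intro q
      obtain ⟨p, hp⟩ := exists_walk_coll₂ q w' rfl
      exact hp _ (hw' p)

end join

namespace Fr

/-- number of vertices below a vertex -/
noncomputable def Sz (f : Fr) (x : W f) : ℕ := Nat.card (blw (G f) (ρ f) x)

lemma Sz_root (f : Fr) : Sz f (ρ f) = 1 + f.size := by
  unfold Sz
  rw [blw_root, Nat.card_congr (Equiv.Set.univ _), Nat.card_eq_fintype_card, card_W]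

lemma Sz_inl (a b : Fr) (x : W a) : Sz (cons a b) (Sum.inl x) = Sz a x := by
  unfold Sz
  have e := blw_inl (G₁ := G a) (r₁ := ρ a) (G₂ := G b) (r₂ := ρ b) x
    (fun y => (reach_root b y).symm)
  have e' : blw (G (cons a b)) (ρ (cons a b)) (Sum.inl x) = Sum.inl '' blw (G a) (ρ a) x := e
  rw [e']
  exact Nat.card_image_of_injective Sum.inl_injective _

lemma Sz_inr (a b : Fr) (x : W b) (hx : x ≠ ρ b) : Sz (cons a b) (Sum.inr x) = Sz b x := by
  unfold Sz
  have e := blw_inr (G₁ := G a) (r₁ := ρ a) (G₂ := G b) (r₂ := ρ b) x hx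
    (fun y => (reach_root a y).symm)
  have e' : blw (G (cons a b)) (ρ (cons a b)) (Sum.inr x) = Sum.inr '' blw (G b) (ρ b) x := e
  rw [e']
  exact Nat.card_image_of_injective Sum.inr_injective _

lemma exists_Sz (f : Fr) (r : ℕ) : 1 ≤ N r f ↔ ∃ x : W f, x ≠ ρ f ∧ Sz f x = r := by
  induction f with
  | nil =>
    constructor
    · intro h
      rw [N_nil] at h
      omega
    · rintro ⟨x, hx, _⟩
      exact (hx rfl).elim
  | cons a b iha ihb =>
    have hNT : 1 ≤ NT r a ↔ ∃ x : W a, Sz a x = r := by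
      rw [NT]
      constructor
      · intro h
        by_cases h1 : 1 + a.size = r
        · exact ⟨ρ a, by rw [Sz_root, h1]⟩
        · rw [if_neg h1, zero_add] at h
          obtain ⟨x, _, hx⟩ := iha.1 h
          exact ⟨x, hx⟩
      · rintro ⟨x, hx⟩
        by_cases h1 : x = ρ a
        · rw [h1, Sz_root] at hx
          rw [if_pos hx]
          omega
        · have := iha.2 ⟨x, h1, hx⟩
          omega
    rw [N_cons]
    constructor
    · intro h
      rcases Nat.eq_zero_or_pos (NT r a) with h0 | h0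
      · have h1 : 1 ≤ N r b := by omega
        obtain ⟨x, hx, hxr⟩ := ihb.1 h1
        exact ⟨Sum.inr x, (inr_ne_root x).2 hx, by rw [Sz_inr a b x hx, hxr]⟩
      · obtain ⟨x, hx⟩ := hNT.1 h0
        exact ⟨Sum.inl x, inl_ne_root x, by rw [Sz_inl, hx]⟩
    · rintro ⟨x | x, hx, hxr⟩
      · rw [Sz_inl] at hxr
        have := hNT.2 ⟨x, hxr⟩
        omega
      · have hx' := (inr_ne_root (a := a) x).1 hx
        rw [Sz_inr a b x hx'] at hxr
        have := ihb.2 ⟨x, hx', hxr⟩
        omega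

lemma exists_Sz_T (a : Fr) (r : ℕ) : 1 ≤ NT r a ↔ ∃ x : W a, Sz a x = r := by
  rw [NT]
  constructor
  · intro h
    by_cases h1 : 1 + a.size = r
    · exact ⟨ρ a, by rw [Sz_root, h1]⟩
    · rw [if_neg h1, zero_add] at h
      obtain ⟨x, _, hx⟩ := (exists_Sz a r).1 h
      exact ⟨x, hx⟩
  · rintro ⟨x, hx⟩
    by_cases h1 : x = ρ a
    · rw [h1, Sz_root] at hx
      rw [if_pos hx]
      omega
    · have := (exists_Sz a r).2 ⟨x, h1, hx⟩
      omega

/-- the root of a branch is adjacent to the root -/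
lemma exists_adj_of_mem (f : Fr) {b : Fr} (hb : b ∈ f.toList) :
    ∃ x : W f, (G f).Adj (ρ f) x ∧ Sz f x = 1 + b.size := by
  induction f with
  | nil => simp [toList] at hb
  | cons c d _ ih =>
    simp only [toList, List.mem_cons] at hb
    rcases hb with rfl | hb
    · exact ⟨Sum.inl (ρ b), ⟨rfl, rfl⟩, by rw [Sz_inl, Sz_root]⟩
    · obtain ⟨x, hx, hx'⟩ := ih hb
      refine ⟨Sum.inr x, hx, ?_⟩
      rw [Sz_inr c d x hx.ne', hx']

/-- moving the branch of a neighbour of the root to the front -/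
lemma exists_front_adj (f : Fr) (x : W f) (hx : (G f).Adj (ρ f) x) :
    ∃ (a g : Fr) (e : G f ≃g G (cons a g)), e (ρ f) = ρ (cons a g) ∧ e x = Sum.inl (ρ a) := by
  induction f with
  | nil => exact hx.elim
  | cons c d _ ih =>
    rcases x with x | x
    · have hx' : x = ρ c := (show ρ d = ρ d ∧ x = ρ c from hx).2
      subst hx'
      exact ⟨c, d, SimpleGraph.Iso.refl, rfl, rfl⟩
    · obtain ⟨a, g, e, he, hex⟩ := ih x hx
      let E1 : G (cons c d) ≃g G (cons c (cons a g)) := joinCongr SimpleGraph.Iso.refl rfl e he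
      obtain ⟨E2, hE2⟩ : ∃ E2 : G (cons c (cons a g)) ≃g G (cons a (cons c g)),
          E2 (ρ (cons c (cons a g))) = ρ (cons a (cons c g)) ∧
            E2 (Sum.inr (Sum.inl (ρ a))) = Sum.inl (ρ a) := by
        refine ⟨⟨⟨fun x => match x with
            | Sum.inl x => Sum.inr (Sum.inl x)
            | Sum.inr (Sum.inl x) => Sum.inl x
            | Sum.inr (Sum.inr x) => Sum.inr (Sum.inr x),
          fun x => match x with
            | Sum.inl x => Sum.inr (Sum.inl x)
            | Sum.inr (Sum.inl x) => Sum.inl x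
            | Sum.inr (Sum.inr x) => Sum.inr (Sum.inr x), ?_, ?_⟩, ?_⟩, ?_, ?_⟩
        · rintro (x | x | x) <;> rfl
        · rintro (x | x | x) <;> rfl
        · have key : ∀ y : W g, ((Sum.inr y : W a ⊕ W g) = Sum.inr (ρ g)) ↔ y = ρ g :=
            fun y => Sum.inr_injective.eq_iff
          have key' : ∀ y : W g, ((Sum.inr y : W c ⊕ W g) = Sum.inr (ρ g)) ↔ y = ρ g :=
            fun y => Sum.inr_injective.eq_iff
          rintro (x | x | x) (y | y | y) <;> simp [G, ρ, join]
          · exact fun _ => (key y).symm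
          · exact fun _ => key' y
          · exact fun _ => (key x).symm
          · exact fun _ => key' x
        · rfl
        · rfl
      refine ⟨a, cons c g, E1.trans E2, ?_, ?_⟩
      · show E2 (E1 (ρ (cons c d))) = _
        have h1 : E1 (ρ (cons c d)) = ρ (cons c (cons a g)) := by
          show Sum.inr (e (ρ d)) = Sum.inr (ρ (cons a g))
          rw [he]
        rw [h1]
        exact hE2.1
      · show E2 (E1 (Sum.inr x)) = _
        have h1 : E1 (Sum.inr x) = Sum.inr (Sum.inl (ρ a)) := by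
          show Sum.inr (e x) = Sum.inr (Sum.inl (ρ a))
          exact congrArg Sum.inr hex
        rw [h1]
        exact hE2.2

end Fr

end Pool.MP_1af41f_co.CSF
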