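import Pool.Agent.Lib_helper17.CSF.Fringe

set_option autoImplicit false

namespace Pool.MP_1af41f_co.CSF

open Polynomial
open scoped Classical

/-- coefficient ring -/
abbrev R : Type := MvPolynomial ℕ ℂ

/-- coefficientwise partial derivative -/
noncomputable def cd (j : ℕ) (P : R[X]) : R[X] :=
  ∑ i ∈ Finset.range (P.natDegree + 1), C (MvPolynomial.pderiv j (P.coeff i)) * X ^ i

lemma cd_coeff (j : ℕ) (P : R[X]) (i : ℕ) :
    (cd j P).coeff i = MvPolynomial.pderiv j (P.coeff i) := by
  unfold cd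
  rw [finsetSum_coeff]
  simp only [coeff_C_mul, coeff_X_pow]
  by_cases h : i < P.natDegree + 1
  · rw [Finset.sum_eq_single i]
    · simp
    · intro b _ hb
      rw [if_neg (Ne.symm hb), mul_zero]
    · intro h'
      exact absurd (Finset.mem_range.2 h) h'
  · rw [Finset.sum_eq_zero]
    · rw [coeff_eq_zero_of_natDegree_lt (by omega : P.natDegree < i), map_zero]
    · intro b hb
      rw [Finset.mem_range] at hb
      rw [if_neg (by omega), mul_zero]

lemma cd_zero (j : ℕ) : cd j 0 = 0 := by
  ext1 i; rw [cd_coeff]; simp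

lemma cd_add (j : ℕ) (P Q : R[X]) : cd j (P + Q) = cd j P + cd j Q := by
  ext1 i; simp only [cd_coeff, coeff_add, map_add]

lemma cd_sub (j : ℕ) (P Q : R[X]) : cd j (P - Q) = cd j P - cd j Q := by
  ext1 i; simp only [cd_coeff, coeff_sub, map_sub]

lemma cd_C (j : ℕ) (a : R) : cd j (C a) = C (MvPolynomial.pderiv j a) := by
  ext1 i
  rw [cd_coeff, coeff_C, coeff_C]
  split_ifs <;> simp

lemma cd_X_pow (j n : ℕ) : cd j (X ^ n) = 0 := by
  ext1 i
  rw [cd_coeff, coeff_X_pow]
  split_ifs <;> simp

lemma cd_mul (j : ℕ) (P Q : R[X]) : cd j (P * Q) = cd j P * Q + P * cd j Q := by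
  ext1 i
  rw [cd_coeff, coeff_mul, coeff_add, coeff_mul, coeff_mul, map_sum, ← Finset.sum_add_distrib]
  refine Finset.sum_congr rfl (fun x _ => ?_)
  rw [cd_coeff, cd_coeff, Derivation.leibniz]
  simp only [smul_eq_mul]
  ring

lemma cd_X_mul (j : ℕ) (P : R[X]) : cd j (X * P) = X * cd j P := by
  rw [cd_mul]
  have : cd j (X : R[X]) = 0 := by
    have := cd_X_pow j 1
    rwa [pow_one] at this
  rw [this, zero_mul, zero_add]

lemma natDegree_cd_le (j : ℕ) (P : R[X]) : (cd j P).natDegree ≤ P.natDegree := by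
  rw [natDegree_le_iff_coeff_eq_zero]
  intro N hN
  rw [cd_coeff, coeff_eq_zero_of_natDegree_lt hN, map_zero]

lemma pderiv_phi (j : ℕ) (hj : 0 < j) (P : R[X]) :
    MvPolynomial.pderiv j (phi gen P) = phi gen (cd j P) + P.coeff (j - 1) := by
  have h1 : P.natDegree < P.natDegree + j := by omega
  have h2 : (cd j P).natDegree < P.natDegree + j :=
    lt_of_le_of_lt (natDegree_cd_le j P) h1
  rw [phi_eq_sum_range _ _ _ h1, phi_eq_sum_range _ _ _ h2, map_sum]
  have h3 : ∀ i, MvPolynomial.pderiv j (P.coeff i * gen (i + 1)) =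
      (cd j P).coeff i * gen (i + 1) + (if i = j - 1 then P.coeff i else 0) := by
    intro i
    rw [cd_coeff, Derivation.leibniz, MvPolynomial.pderiv_X]
    simp only [smul_eq_mul]
    by_cases h : i = j - 1
    · have h4 : i + 1 = j := by omega
      rw [if_pos h, h4, Pi.single_eq_same]; ring
    · have h4 : i + 1 ≠ j := by omega
      rw [if_neg h, Pi.single_eq_of_ne h4]; ring
  rw [Finset.sum_congr rfl (fun i _ => h3 i), Finset.sum_add_distrib, Finset.sum_ite_eq']
  rw [if_pos (Finset.mem_range.2 (by omega))]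

lemma cd_Fhat (j : ℕ) (hj : 0 < j) (a : Fr) :
    cd j (Fhat gen a) = X * cd j (Pi gen a) +
      C (phi gen (cd j (Pi gen a)) + (Pi gen a).coeff (j - 1)) := by
  unfold Fhat
  rw [cd_add, cd_X_mul, cd_C, pderiv_phi j hj]

lemma coeff_Pi_size (f : Fr) : (Pi gen f).coeff f.size = 1 := by
  have h := Pi_monic gen f
  rw [Monic, leadingCoeff, Pi_natDegree] at h
  exact h

lemma coeff_Pi_gt (f : Fr) {i : ℕ} (hi : f.size < i) : (Pi gen f).coeff i = 0 :=
  coeff_eq_zero_of_natDegree_lt (by rw [Pi_natDegree]; exact hi)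

lemma coeff_Fhat_size (a : Fr) : (Fhat gen a).coeff (1 + a.size) = 1 := by
  have h := Fhat_monic gen a
  rw [Monic, leadingCoeff, Fhat_natDegree] at h
  exact h

lemma coeff_Fhat_gt (a : Fr) {i : ℕ} (hi : 1 + a.size < i) : (Fhat gen a).coeff i = 0 :=
  coeff_eq_zero_of_natDegree_lt (by rw [Fhat_natDegree]; exact hi)

/-- degree property of derivatives: `DLP P m j c` means that the coefficients of `P` at `u^i`
vanish for `i + j > m` and are `c` for `i + j = m`. -/
def DLP (P : R[X]) (m j : ℕ) (c : R) : Prop :=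
  (∀ i, m < i + j → P.coeff i = 0) ∧ (∀ i, i + j = m → P.coeff i = c) ∧ (m < j → c = 0)

lemma DLP.mul_monic {P Q : R[X]} {m m' j : ℕ} {c : R} (hP : DLP P m j c)
    (hQ : ∀ i, m' < i → Q.coeff i = 0) (hQ' : Q.coeff m' = 1) : DLP (P * Q) (m + m') j c := by
  refine ⟨?_, ?_, fun h => hP.2.2 (by omega)⟩
  · intro i hi
    rw [coeff_mul]
    refine Finset.sum_eq_zero (fun x hx => ?_)
    rw [Finset.HasAntidiagonal.mem_antidiagonal] at hx
    rcases Nat.lt_or_ge m' x.2 with h | h
    · rw [hQ _ h, mul_zero]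
    · rw [hP.1 _ (by omega), zero_mul]
  · intro i hi
    rw [coeff_mul]
    rcases Nat.lt_or_ge i m' with h | h
    · rw [hP.2.2 (by omega)]
      refine Finset.sum_eq_zero (fun x hx => ?_)
      rw [hP.1 _ (by omega), zero_mul]
    · rw [Finset.sum_eq_single (i - m', m')]
      · rw [hQ', mul_one]
        exact hP.2.1 _ (by omega)
      · intro x hx hne
        rw [Finset.HasAntidiagonal.mem_antidiagonal] at hx
        rcases Nat.lt_or_ge m' x.2 with h2 | h2
        · rw [hQ _ h2, mul_zero]
        · have : x.2 < m' := by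
            rcases Nat.lt_or_ge x.2 m' with h3 | h3
            · exact h3
            · exfalso
              apply hne
              ext <;> simp <;> omega
          rw [hP.1 _ (by omega), zero_mul]
      · intro h'
        exfalso
        apply h'
        rw [Finset.HasAntidiagonal.mem_antidiagonal]
        simp; omega

lemma DLP.add {P Q : R[X]} {m j : ℕ} {c c' : R} (hP : DLP P m j c) (hQ : DLP Q m j c') :
    DLP (P + Q) m j (c + c') := by
  refine ⟨fun i hi => ?_, fun i hi => ?_, fun h => ?_⟩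
  · rw [coeff_add, hP.1 i hi, hQ.1 i hi, add_zero]
  · rw [coeff_add, hP.2.1 i hi, hQ.2.1 i hi]
  · rw [hP.2.2 h, hQ.2.2 h, add_zero]

lemma DLP_Fhat (j : ℕ) (hj : 0 < j) (a : Fr)
    (h : DLP (cd j (Pi gen a)) a.size j (a.N j : R)) :
    DLP (cd j (Fhat gen a)) (1 + a.size) j (a.NT j : R) := by
  refine ⟨?_, ?_, ?_⟩
  · intro i hi
    rw [cd_Fhat j hj, coeff_add]
    cases i with
    | zero =>
      rw [coeff_X_mul_zero, zero_add, coeff_C_zero]
      have h1 : phi gen (cd j (Pi gen a)) = 0 := by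
        have h2 : cd j (Pi gen a) = 0 := by
          ext1 i
          rw [coeff_zero]
          exact h.1 i (by omega)
        rw [h2]
        simp [phi]
      rw [h1, zero_add]
      exact coeff_Pi_gt a (by omega)
    | succ i =>
      rw [coeff_X_mul, coeff_C_succ, add_zero]
      exact h.1 i (by omega)
  · intro i hi
    rw [cd_Fhat j hj, coeff_add]
    cases i with
    | zero =>
      have hj' : j = 1 + a.size := by omega
      subst hj'
      rw [coeff_X_mul_zero, zero_add, coeff_C_zero, Fr.NT_self]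
      have h1 : phi gen (cd (1 + a.size) (Pi gen a)) = 0 := by
        have h2 : cd (1 + a.size) (Pi gen a) = 0 := by
          ext1 i
          rw [coeff_zero]
          exact h.1 i (by omega)
        rw [h2]
        simp [phi]
      rw [h1, zero_add, show 1 + a.size - 1 = a.size by omega, coeff_Pi_size]
      simp
    | succ i =>
      rw [coeff_X_mul, coeff_C_succ, add_zero, h.2.1 i (by omega), Fr.NT, if_neg (by omega),
        zero_add]
  · intro hlt
    rw [Fr.NT_eq_zero_of_lt hlt]
    simp

lemma DLP_Pi (j : ℕ) (hj : 0 < j) (f : Fr) : DLP (cd j (Pi gen f)) f.size j (f.N j : R) := by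
  induction f with
  | nil =>
    have h1 : cd j (Pi gen Fr.nil) = 0 := by
      rw [Pi_nil]
      have := cd_X_pow j 0
      rwa [pow_zero] at this
    rw [h1]
    refine ⟨fun i _ => coeff_zero i, fun i _ => by rw [coeff_zero]; simp [Fr.N_nil], fun _ => by
      simp [Fr.N_nil]⟩
  | cons a b iha ihb =>
    rw [Pi_cons, cd_mul, Fr.N_cons]
    have h1 := (DLP_Fhat j hj a iha).mul_monic (Q := Pi gen b) (m' := b.size)
      (fun i hi => coeff_Pi_gt b hi) (coeff_Pi_size b)
    have h2 := ihb.mul_monic (Q := Fhat gen a) (m' := 1 + a.size)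
      (fun i hi => coeff_Fhat_gt a hi) (coeff_Fhat_size a)
    have h3 := h1.add (by
      rw [show b.size + (1 + a.size) = 1 + a.size + b.size by ring, mul_comm] at h2
      exact h2)
    have h4 : (Fr.cons a b).size = 1 + a.size + b.size := rfl
    rw [h4]
    push_cast
    exact h3

/-- `Π f` does not involve `y_j` if all branches are smaller than `j`. -/
lemma cd_Pi_eq_zero {j : ℕ} (hj : 0 < j) {f : Fr} (hf : ∀ a ∈ f.toList, 1 + a.size < j) :
    cd j (Pi gen f) = 0 := by
  induction f with
  | nil =>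
    rw [Pi_nil]
    have := cd_X_pow j 0
    rwa [pow_zero] at this
  | cons a b iha ihb =>
    have ha : 1 + a.size < j := hf a (by simp [Fr.toList])
    have h1 : cd j (Pi gen a) = 0 := iha (fun c hc => by have := mem_toList_size hc; omega)
    have h2 : cd j (Pi gen b) = 0 := ihb (fun c hc => hf c (by simp [Fr.toList, hc]))
    rw [Pi_cons, cd_mul, h2, mul_zero, add_zero, cd_Fhat j hj, h1, coeff_Pi_gt a (by omega)]
    simp [phi]

lemma cd_Pi_eq_zero_of_size {j : ℕ} (hj : 0 < j) {a : Fr} (ha : a.size < j) :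
    cd j (Pi gen a) = 0 :=
  cd_Pi_eq_zero hj (fun c hc => by have := mem_toList_size hc; omega)

/-- The derivative of `F̂_a` in the variable `y_{|a|}`. -/
lemma cd_Fhat_self (a : Fr) : cd (1 + a.size) (Fhat gen a) = 1 := by
  rw [cd_Fhat _ (by omega), cd_Pi_eq_zero_of_size (by omega) (by omega),
    show 1 + a.size - 1 = a.size by omega, coeff_Pi_size]
  simp [phi]

lemma cd_Fhat_eq_zero {j : ℕ} {a : Fr} (ha : 1 + a.size < j) : cd j (Fhat gen a) = 0 := by
  rw [cd_Fhat _ (by omega), cd_Pi_eq_zero_of_size (by omega) (by omega), coeff_Pi_gt a (by omega)]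
  simp [phi]

end Pool.MP_1af41f_co.CSF
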