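import Pool.Agent.Lib_helper17.CSF.Poly

set_option autoImplicit false

namespace Pool.MP_1af41f_co.CSF

open Polynomial
open scoped Classical

section color
variable {K : Type} [CommRing K] {N : ℕ} (x : Fin N → K)

/-- proper colourings -/
def Prop' {V : Type} (G : SimpleGraph V) (κ : V → Fin N) : Prop := ∀ u v, G.Adj u v → κ u ≠ κ v

/-- weighted number of proper colourings with colours `Fin N` -/
noncomputable def colt {V : Type} [Fintype V] (G : SimpleGraph V) : K :=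
  ∑ κ : V → Fin N, if Prop' G κ then ∏ v, x (κ v) else 0

/-- weighted number of proper colourings with root coloured `i` -/
noncomputable def colr {V : Type} [Fintype V] (G : SimpleGraph V) (r : V) (i : Fin N) : K :=
  ∑ κ : V → Fin N, if Prop' G κ ∧ κ r = i then ∏ v, x (κ v) else 0

lemma colt_eq_sum {V : Type} [Fintype V] (G : SimpleGraph V) (r : V) :
    colt x G = ∑ i, colr x G r i := by
  unfold colt colr
  rw [Finset.sum_comm]
  refine Finset.sum_congr rfl (fun κ _ => ?_)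
  by_cases h : Prop' G κ
  · simp [h]
  · simp [h]

lemma colt_iso {V V' : Type} [Fintype V] [Fintype V'] {G : SimpleGraph V} {G' : SimpleGraph V'}
    (e : G ≃g G') : colt x G = colt x G' := by
  unfold colt
  refine Fintype.sum_equiv (Equiv.arrowCongr e.toEquiv (Equiv.refl _)) _ _ (fun κ => ?_)
  have h1 : Prop' G κ ↔ Prop' G' ((Equiv.arrowCongr e.toEquiv (Equiv.refl _)) κ) := by
    unfold Prop'
    constructor
    · intro h u v huv
      exact h (e.symm u) (e.symm v) (e.symm.map_rel_iff.2 huv)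
    · intro h u v huv
      have := h (e u) (e v) (e.map_rel_iff.2 huv)
      simp only [Equiv.arrowCongr_apply, Equiv.coe_refl, Function.comp, id] at this
      have e1 : e.toEquiv.symm (e u) = u := e.symm_apply_apply u
      have e2 : e.toEquiv.symm (e v) = v := e.symm_apply_apply v
      rwa [e1, e2] at this
  have h2 : ∏ v, x (κ v) = ∏ v, x ((Equiv.arrowCongr e.toEquiv (Equiv.refl _)) κ v) := by
    refine Fintype.prod_equiv e.toEquiv _ _ (fun v => ?_)
    show x (κ v) = x (κ (e.toEquiv.symm (e.toEquiv v)))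
    rw [Equiv.symm_apply_apply]
  by_cases h : Prop' G κ
  · rw [if_pos h, if_pos (h1.1 h), h2]
  · rw [if_neg h, if_neg (fun h' => h (h1.2 h'))]

lemma colr_join {V₁ V₂ : Type} [Fintype V₁] [Fintype V₂] (G₁ : SimpleGraph V₁) (r₁ : V₁)
    (G₂ : SimpleGraph V₂) (r₂ : V₂) (i : Fin N) :
    colr x (join G₁ r₁ G₂ r₂) (Sum.inr r₂) i = colr x G₂ r₂ i * (colt x G₁ - colr x G₁ r₁ i) := by
  have h1 : colt x G₁ - colr x G₁ r₁ i =
      ∑ κ : V₁ → Fin N, if Prop' G₁ κ ∧ κ r₁ ≠ i then ∏ v, x (κ v) else 0 := by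
    unfold colt colr
    rw [← Finset.sum_sub_distrib]
    refine Finset.sum_congr rfl (fun κ _ => ?_)
    by_cases h : Prop' G₁ κ <;> by_cases h' : κ r₁ = i <;> simp [h, h']
  rw [h1]
  unfold colr
  have hprod : ∀ (A : (V₂ → Fin N) → K) (B : (V₁ → Fin N) → K),
      (∑ κ, A κ) * (∑ κ, B κ) = ∑ p : (V₂ → Fin N) × (V₁ → Fin N), A p.1 * B p.2 := by
    intro A B
    rw [Finset.sum_mul_sum]
    exact (Fintype.sum_prod_type (fun p : (V₂ → Fin N) × (V₁ → Fin N) => A p.1 * B p.2)).symm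
  rw [hprod]
  symm
  let e : (V₂ → Fin N) × (V₁ → Fin N) ≃ (V₁ ⊕ V₂ → Fin N) :=
    (Equiv.prodComm _ _).trans (Equiv.sumArrowEquivProdArrow V₁ V₂ (Fin N)).symm
  refine @Fintype.sum_equiv _ _ K (_) (_) (_) e _ _ (fun κ => ?_)
  obtain ⟨κ₂, κ₁⟩ := κ
  have e1 : e (κ₂, κ₁) = Sum.elim κ₁ κ₂ := rfl
  rw [e1]
  dsimp only
  have h2 : (Prop' (join G₁ r₁ G₂ r₂) (Sum.elim κ₁ κ₂) ∧
      (Sum.elim κ₁ κ₂ : V₁ ⊕ V₂ → Fin N) (Sum.inr r₂) = i) ↔
      ((Prop' G₂ κ₂ ∧ κ₂ r₂ = i) ∧ (Prop' G₁ κ₁ ∧ κ₁ r₁ ≠ i)) := by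
    constructor
    · rintro ⟨h, h'⟩
      have h'' : κ₂ r₂ = i := h'
      refine ⟨⟨fun u v huv => h (Sum.inr u) (Sum.inr v) huv, h''⟩,
        fun u v huv => h (Sum.inl u) (Sum.inl v) huv, ?_⟩
      rw [← h'']
      exact h (Sum.inl r₁) (Sum.inr r₂) ⟨rfl, rfl⟩
    · rintro ⟨⟨h2, h2'⟩, h1, h1'⟩
      refine ⟨?_, h2'⟩
      rintro (u | u) (v | v) huv
      · exact h1 u v huv
      · obtain ⟨rfl, rfl⟩ := huv
        show κ₁ u ≠ κ₂ v
        rw [h2']; exact h1'
      · obtain ⟨rfl, rfl⟩ := huv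
        show κ₂ u ≠ κ₁ v
        rw [h2']; exact h1'.symm
      · exact h2 u v huv
  have h3 : ∏ v, x ((Sum.elim κ₁ κ₂ : V₁ ⊕ V₂ → Fin N) v) = (∏ v, x (κ₂ v)) * ∏ v, x (κ₁ v) := by
    rw [Fintype.prod_sum_type, mul_comm]
    rfl
  rw [h3]
  by_cases ha : Prop' G₂ κ₂ ∧ κ₂ r₂ = i
  · by_cases hb : Prop' G₁ κ₁ ∧ κ₁ r₁ ≠ i
    · rw [if_pos ha, if_pos hb, if_pos (h2.2 ⟨ha, hb⟩)]
    · rw [if_neg hb, if_neg (fun h => hb (h2.1 h).2), mul_zero]
  · rw [if_neg ha, if_neg (fun h => ha (h2.1 h).1), zero_mul]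

/-- the evaluation point `y_k = - p_k(x)` -/
noncomputable def yv (k : ℕ) : K := - ∑ j, x j ^ k

/-- The root-colour enumerator of the tree of a forest. -/
theorem colr_forest (f : Fr) (i : Fin N) :
    colr x (Fr.G f) (Fr.ρ f) i = (-1) ^ f.size * (x i * (Pi (yv x) f).eval (x i)) := by
  induction f generalizing i with
  | nil =>
    unfold colr
    rw [Fintype.sum_eq_single (fun _ => i)]
    · have h1 : Prop' (Fr.G .nil) (fun _ => i : Fr.W .nil → Fin N) := by
        intro u v huv; exact huv.elim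
      rw [if_pos ⟨h1, rfl⟩]
      have : ∏ v : Fr.W .nil, x i = x i ^ (Fintype.card (Fr.W .nil)) := by
        rw [Finset.prod_const]; rfl
      rw [this, Fr.card_W]
      simp [Pi_nil, Fr.size]
    · intro κ hκ
      rw [if_neg]
      rintro ⟨_, h⟩
      exact hκ (funext fun u => by
        have : u = Fr.ρ .nil := rfl
        rw [this]; exact h)
  | cons a b iha ihb =>
    show colr x (join (Fr.G a) (Fr.ρ a) (Fr.G b) (Fr.ρ b)) (Sum.inr (Fr.ρ b)) i = _
    rw [colr_join, ihb, iha, colt_eq_sum x (Fr.G a) (Fr.ρ a)]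
    have h1 : ∑ j, colr x (Fr.G a) (Fr.ρ a) j = (-1) ^ a.size * (- phi (yv x) (Pi (yv x) a)) := by
      rw [Finset.sum_congr rfl (fun j _ => iha j), ← Finset.mul_sum]
      congr 1
      rw [phi_eq_sum_range _ _ _ (Nat.lt_succ_self _)]
      have h2 : ∀ j, x j * (Pi (yv x) a).eval (x j) =
          ∑ k ∈ Finset.range ((Pi (yv x) a).natDegree + 1), (Pi (yv x) a).coeff k * x j ^ (k + 1) := by
        intro j
        rw [eval_eq_sum_range, Finset.mul_sum]
        refine Finset.sum_congr rfl (fun k _ => by ring)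
      rw [Finset.sum_congr rfl (fun j _ => h2 j), Finset.sum_comm, ← Finset.sum_neg_distrib]
      refine Finset.sum_congr rfl (fun k _ => ?_)
      rw [← Finset.mul_sum]
      unfold yv
      ring
    rw [h1, Pi_cons]
    unfold Fhat
    simp only [eval_mul, eval_add, eval_X, eval_C, Fr.size]
    ring

theorem colt_forest (f : Fr) :
    colt x (Fr.G f) = (-1) ^ (f.size + 1) * phi (yv x) (Pi (yv x) f) := by
  rw [colt_eq_sum x (Fr.G f) (Fr.ρ f), Finset.sum_congr rfl (fun j _ => colr_forest x f j),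
    ← Finset.mul_sum]
  have h2 : ∀ j, x j * (Pi (yv x) f).eval (x j) =
      ∑ k ∈ Finset.range ((Pi (yv x) f).natDegree + 1), (Pi (yv x) f).coeff k * x j ^ (k + 1) := by
    intro j
    rw [eval_eq_sum_range, Finset.mul_sum]
    refine Finset.sum_congr rfl (fun k _ => by ring)
  rw [Finset.sum_congr rfl (fun j _ => h2 j), Finset.sum_comm,
    phi_eq_sum_range _ _ _ (Nat.lt_succ_self _)]
  have h3 : ∀ k, ∑ j, (Pi (yv x) f).coeff k * x j ^ (k + 1) =
      - ((Pi (yv x) f).coeff k * yv x (k + 1)) := by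
    intro k
    rw [← Finset.mul_sum]
    unfold yv
    ring
  rw [Finset.sum_congr rfl (fun k _ => h3 k), Finset.sum_neg_distrib]
  ring

end color

end Pool.MP_1af41f_co.CSF
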