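import Pool.Agent.Lib_helper17.CSF.CDer

set_option autoImplicit false

namespace Pool.MP_1af41f_co.CSF

open Polynomial
open scoped Classical

lemma phi_sub {S : Type*} [CommRing S] (y : ℕ → S) (p q : S[X]) :
    phi y (p - q) = phi y p - phi y q := by
  have h := phi_add y (p - q) q
  rw [sub_add_cancel] at h
  rw [h]; ring

/-- The exact lemma. -/
theorem exact_lemma {a a' g g' : Fr} {z s ζ : ℕ} (ha : 1 + a.size = z) (ha' : 1 + a'.size = z)
    (hg : g.size = s) (hzs : z ≤ s) (hζ : ∀ b ∈ g.toList, 1 + b.size ≤ ζ)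
    (hζ' : ∀ b ∈ g'.toList, 1 + b.size ≤ ζ) (hζz : ζ < z)
    (H1 : ∀ i, z ≤ i → (Pi gen (Fr.cons a g)).coeff i = (Pi gen (Fr.cons a' g')).coeff i)
    (H2 : phi gen (Pi gen (Fr.cons a g)) = phi gen (Pi gen (Fr.cons a' g'))) :
    (∀ i, ζ ≤ i → (Pi gen g - Pi gen g').coeff i = 0) ∧
    (∀ j, ζ < j → j ≤ z → cd j (Fhat gen a - Fhat gen a') = 0) := by
  set δ := Pi gen g - Pi gen g' with hδ
  set ε := Fhat gen a - Fhat gen a' with hε
  set Δ := Pi gen (Fr.cons a g) - Pi gen (Fr.cons a' g') with hΔ
  have hΔlow : ∀ i, z ≤ i → Δ.coeff i = 0 := fun i hi => by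
    rw [hΔ, coeff_sub, H1 i hi, sub_self]
  have hφ : phi gen Δ = 0 := by rw [hΔ, phi_sub, H2, sub_self]
  have hcg : ∀ j, ζ < j → cd j (Pi gen g) = 0 := fun j hj =>
    cd_Pi_eq_zero (by omega) (fun b hb => lt_of_le_of_lt (hζ b hb) hj)
  have hcg' : ∀ j, ζ < j → cd j (Pi gen g') = 0 := fun j hj =>
    cd_Pi_eq_zero (by omega) (fun b hb => lt_of_le_of_lt (hζ' b hb) hj)
  have hcδ : ∀ j, ζ < j → cd j δ = 0 := fun j hj => by
    rw [hδ, cd_sub, hcg j hj, hcg' j hj, sub_zero]
  -- derivative of Δ
  have hcΔ : ∀ j, ζ < j → cd j Δ = cd j ε * Pi gen g + cd j (Fhat gen a') * δ := fun j hj => by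
    rw [hΔ, Pi_cons, Pi_cons, cd_sub, cd_mul, cd_mul, hcg j hj, hcg' j hj, hε, cd_sub, hδ]
    ring
  have hczε : cd z ε = 0 := by
    rw [hε, cd_sub]
    have h1 := cd_Fhat_self a
    have h2 := cd_Fhat_self a'
    rw [ha] at h1
    rw [ha'] at h2
    rw [h1, h2, sub_self]
  have hczΔ : cd z Δ = δ := by
    have h2 := cd_Fhat_self a'
    rw [ha'] at h2
    rw [hcΔ z hζz, hczε, h2]; ring
  have hrel1 : phi gen δ + Δ.coeff (z - 1) = 0 := by
    have h1 := pderiv_phi z (by omega) Δ
    rw [hφ, map_zero, hczΔ] at h1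
    exact h1.symm
  have hrel : ∀ j, ζ < j → δ.coeff (j - 1) + (cd j Δ).coeff (z - 1) = 0 := by
    intro j hj
    have h1 := congrArg (MvPolynomial.pderiv j) hrel1
    rw [map_add, pderiv_phi j (by omega), hcδ j hj, map_zero, ← cd_coeff] at h1
    have h2 : phi gen (0 : R[X]) = 0 := by simp [phi]
    rw [h2, zero_add] at h1
    exact h1
  have hstart : ∀ i, z ≤ i → δ.coeff i = 0 := by
    intro i hi
    rw [← hczΔ, cd_coeff, hΔlow i hi, map_zero]
  -- the inductive step
  have hstep : ∀ j, ζ < j → j ≤ z → (∀ i, j ≤ i → δ.coeff i = 0) →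
      cd j ε = 0 ∧ ∀ i, j - 1 ≤ i → δ.coeff i = 0 := by
    intro j hj hjz hδj
    have hD := DLP_Fhat j (by omega) a' (DLP_Pi j (by omega) a')
    rw [ha'] at hD
    have hprod : ∀ i, z ≤ i → (cd j (Fhat gen a') * δ).coeff i = 0 := by
      intro i hi
      rw [coeff_mul]
      refine Finset.sum_eq_zero (fun x hx => ?_)
      rw [Finset.HasAntidiagonal.mem_antidiagonal] at hx
      rcases Nat.lt_or_ge x.2 j with h | h
      · rw [hD.1 _ (by omega), zero_mul]
      · rw [hδj _ h, mul_zero]
    have hε0 : cd j ε = 0 := by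
      by_contra hne
      have h1 : (cd j ε * Pi gen g).coeff ((cd j ε).natDegree + s) ≠ 0 := by
        have h2 : (cd j ε * Pi gen g).natDegree = (cd j ε).natDegree + s := by
          rw [natDegree_mul hne (Pi_monic gen g).ne_zero, Pi_natDegree, hg]
        rw [← h2]
        have h3 : cd j ε * Pi gen g ≠ 0 := mul_ne_zero hne (Pi_monic gen g).ne_zero
        exact leadingCoeff_ne_zero.2 h3
      apply h1
      have h4 := congrArg (fun q => Polynomial.coeff q ((cd j ε).natDegree + s)) (hcΔ j hj)
      simp only [coeff_add] at h4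
      rw [hprod _ (by omega), add_zero, cd_coeff, hΔlow _ (by omega), map_zero] at h4
      exact h4.symm
    refine ⟨hε0, fun i hi => ?_⟩
    rcases Nat.lt_or_ge i j with h | h
    · have hi' : i = j - 1 := by omega
      subst hi'
      have h1 := hrel j hj
      rw [hcΔ j hj, hε0, zero_mul, zero_add, coeff_mul] at h1
      rw [Finset.sum_eq_single (z - j, j - 1)] at h1
      · rw [hD.2.1 _ (by omega)] at h1
        have h2 : ((1 + a'.NT j : ℕ) : R) * δ.coeff (j - 1) = 0 := by
          push_cast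
          rw [add_mul, one_mul]
          exact h1
        rcases mul_eq_zero.1 h2 with h3 | h3
        · exfalso
          have h4 : (1 + a'.NT j : ℕ) = 0 := by exact_mod_cast h3
          omega
        · exact h3
      · intro x hx hne
        rw [Finset.HasAntidiagonal.mem_antidiagonal] at hx
        rcases Nat.lt_or_ge x.2 j with h | h
        · have : x.2 < j - 1 := by
            rcases Nat.lt_or_ge x.2 (j - 1) with h3 | h3
            · exact h3
            · exfalso
              apply hne
              ext <;> simp <;> omega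
          rw [hD.1 _ (by omega), zero_mul]
        · rw [hδj _ h, mul_zero]
      · intro h'
        exfalso
        apply h'
        rw [Finset.HasAntidiagonal.mem_antidiagonal]
        simp; omega
    · exact hδj i h
  -- downward induction
  have hdown : ∀ k, k ≤ z - ζ → ∀ i, z - k ≤ i → δ.coeff i = 0 := by
    intro k
    induction k with
    | zero => intro _ i hi; exact hstart i (by omega)
    | succ k ih =>
      intro hk i hi
      have h1 := ih (by omega)
      exact (hstep (z - k) (by omega) (by omega) h1).2 i (by omega)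
  refine ⟨fun i hi => hdown (z - ζ) le_rfl i (by omega), fun j hj hjz => ?_⟩
  exact (hstep j hj hjz (fun i hi => hdown (z - j) (by omega) i (by omega))).1

end Pool.MP_1af41f_co.CSF
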