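import Mathlib

set_option autoImplicit false

namespace Pool.MP_1af41f_co.CSF

/-- Ordered rooted forests coded as binary trees: `nil` is the empty forest and `cons a b` is the
forest whose first tree has children forest `a` and whose remaining trees form `b`. -/
inductive Fr : Type
  | nil : Fr
  | cons : Fr → Fr → Fr

namespace Fr

/-- number of vertices of the forest -/
def size : Fr → ℕ
  | nil => 0
  | cons a b => 1 + a.size + b.size

/-- Vertex type of the rooted tree whose root has the forest of branches `f`. -/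
def W : Fr → Type
  | nil => Unit
  | cons a b => W a ⊕ W b

/-- The root. -/
def ρ : (f : Fr) → W f
  | nil => ()
  | cons _ b => Sum.inr (ρ b)

instance instFintypeW : (f : Fr) → Fintype (W f)
  | nil => inferInstanceAs (Fintype Unit)
  | cons a b => @instFintypeSum _ _ (instFintypeW a) (instFintypeW b)

end Fr

/-- Join of two rooted graphs by an edge between the roots. -/
def join {V₁ V₂ : Type} (G₁ : SimpleGraph V₁) (r₁ : V₁) (G₂ : SimpleGraph V₂) (r₂ : V₂) :
    SimpleGraph (V₁ ⊕ V₂) where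
  Adj x y := match x, y with
    | Sum.inl x, Sum.inl y => G₁.Adj x y
    | Sum.inr x, Sum.inr y => G₂.Adj x y
    | Sum.inl x, Sum.inr y => x = r₁ ∧ y = r₂
    | Sum.inr x, Sum.inl y => x = r₂ ∧ y = r₁
  symm := by
    constructor
    intro x y h
    match x, y with
    | Sum.inl x, Sum.inl y => exact G₁.symm.symm _ _ h
    | Sum.inr x, Sum.inr y => exact G₂.symm.symm _ _ h
    | Sum.inl x, Sum.inr y => exact ⟨h.2, h.1⟩
    | Sum.inr x, Sum.inl y => exact ⟨h.2, h.1⟩
  loopless := by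
    constructor
    intro x h
    match x with
    | Sum.inl x => exact G₁.loopless.irrefl _ h
    | Sum.inr x => exact G₂.loopless.irrefl _ h

section join
variable {V₁ V₂ : Type} (G₁ : SimpleGraph V₁) (r₁ : V₁) (G₂ : SimpleGraph V₂) (r₂ : V₂)

@[simp] lemma join_inl_inl (x y : V₁) : (join G₁ r₁ G₂ r₂).Adj (Sum.inl x) (Sum.inl y) ↔ G₁.Adj x y :=
  Iff.rfl
@[simp] lemma join_inr_inr (x y : V₂) : (join G₁ r₁ G₂ r₂).Adj (Sum.inr x) (Sum.inr y) ↔ G₂.Adj x y :=
  Iff.rfl
@[simp] lemma join_inl_inr (x : V₁) (y : V₂) :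
    (join G₁ r₁ G₂ r₂).Adj (Sum.inl x) (Sum.inr y) ↔ x = r₁ ∧ y = r₂ := Iff.rfl
@[simp] lemma join_inr_inl (x : V₂) (y : V₁) :
    (join G₁ r₁ G₂ r₂).Adj (Sum.inr x) (Sum.inl y) ↔ x = r₂ ∧ y = r₁ := Iff.rfl

/-- swapping the two sides -/
def joinSwap : join G₁ r₁ G₂ r₂ ≃g join G₂ r₂ G₁ r₁ where
  toEquiv := Equiv.sumComm _ _
  map_rel_iff' := by
    rintro (x | x) (y | y) <;> simp

end join

/-- Join of isomorphisms of rooted graphs. -/
def joinCongr {V₁ V₂ V₁' V₂' : Type} {G₁ : SimpleGraph V₁} {r₁ : V₁} {G₂ : SimpleGraph V₂} {r₂ : V₂}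
    {G₁' : SimpleGraph V₁'} {r₁' : V₁'} {G₂' : SimpleGraph V₂'} {r₂' : V₂'}
    (e₁ : G₁ ≃g G₁') (h₁ : e₁ r₁ = r₁') (e₂ : G₂ ≃g G₂') (h₂ : e₂ r₂ = r₂') :
    join G₁ r₁ G₂ r₂ ≃g join G₁' r₁' G₂' r₂' where
  toEquiv := Equiv.sumCongr e₁.toEquiv e₂.toEquiv
  map_rel_iff' := by
    subst h₁ h₂
    rintro (x | x) (y | y)
    · simpa using e₁.map_rel_iff
    · simp
    · simp
    · simpa using e₂.map_rel_iff

namespace Fr

/-- The rooted tree with forest of branches `f`. -/
def G : (f : Fr) → SimpleGraph (W f)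
  | nil => (⊥ : SimpleGraph Unit)
  | cons a b => join (G a) (ρ a) (G b) (ρ b)

/-- Isomorphism of rooted trees (given by their forests of branches). -/
def Equ (f g : Fr) : Prop := ∃ e : G f ≃g G g, e (ρ f) = ρ g

lemma Equ.refl (f : Fr) : Equ f f := ⟨SimpleGraph.Iso.refl, rfl⟩

lemma Equ.symm {f g : Fr} (h : Equ f g) : Equ g f := by
  obtain ⟨e, he⟩ := h
  exact ⟨e.symm, by rw [← he]; exact e.symm_apply_apply _⟩

lemma Equ.trans {f g h : Fr} (h₁ : Equ f g) (h₂ : Equ g h) : Equ f h := by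
  obtain ⟨e₁, he₁⟩ := h₁
  obtain ⟨e₂, he₂⟩ := h₂
  exact ⟨e₁.trans e₂, by
    show e₂ (e₁ (ρ f)) = ρ h
    rw [he₁, he₂]⟩

lemma Equ.cons {a a' b b' : Fr} (h₁ : Equ a a') (h₂ : Equ b b') :
    Equ (Fr.cons a b) (Fr.cons a' b') := by
  obtain ⟨e₁, he₁⟩ := h₁
  obtain ⟨e₂, he₂⟩ := h₂
  exact ⟨joinCongr e₁ he₁ e₂ he₂, by
    show Sum.inr (e₂ (ρ b)) = Sum.inr (ρ b')
    rw [he₂]⟩

/-- swapping the first two trees -/
lemma Equ.swap (a b c : Fr) : Equ (Fr.cons a (Fr.cons b c)) (Fr.cons b (Fr.cons a c)) := by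
  refine ⟨⟨⟨fun x => match x with
      | Sum.inl x => Sum.inr (Sum.inl x)
      | Sum.inr (Sum.inl x) => Sum.inl x
      | Sum.inr (Sum.inr x) => Sum.inr (Sum.inr x),
    fun x => match x with
      | Sum.inl x => Sum.inr (Sum.inl x)
      | Sum.inr (Sum.inl x) => Sum.inl x
      | Sum.inr (Sum.inr x) => Sum.inr (Sum.inr x), ?_, ?_⟩, ?_⟩, ?_⟩
  · rintro (x | x | x) <;> rfl
  · rintro (x | x | x) <;> rfl
  · have key : ∀ y : W c, ((Sum.inr y : W b ⊕ W c) = Sum.inr (ρ c)) ↔ y = ρ c :=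
      fun y => Sum.inr_injective.eq_iff
    have key' : ∀ y : W c, ((Sum.inr y : W a ⊕ W c) = Sum.inr (ρ c)) ↔ y = ρ c :=
      fun y => Sum.inr_injective.eq_iff
    rintro (x | x | x) (y | y | y) <;> simp [G, ρ, join]
    · exact fun _ => (key y).symm
    · exact fun _ => key' y
    · exact fun _ => (key x).symm
    · exact fun _ => key' x
  · rfl

/-- re-rooting at the root of the first branch -/
lemma reroot (a b : Fr) : Nonempty (G (cons a b) ≃g G (cons b a)) :=
  ⟨joinSwap _ _ _ _⟩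

/-- list of the branches (each given by its children forest) -/
def toList : Fr → List Fr
  | nil => []
  | cons a b => a :: toList b

def ofList : List Fr → Fr
  | [] => nil
  | a :: l => cons a (ofList l)

@[simp] lemma ofList_toList (f : Fr) : ofList (toList f) = f := by
  induction f with
  | nil => rfl
  | cons a b _ ih => simp [toList, ofList, ih]

@[simp] lemma toList_ofList (l : List Fr) : toList (ofList l) = l := by
  induction l with
  | nil => rfl
  | cons a l ih => simp [toList, ofList, ih]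

lemma Equ.of_perm {l l' : List Fr} (h : l.Perm l') : Equ (ofList l) (ofList l') := by
  induction h with
  | nil => exact Equ.refl _
  | cons x _ ih => exact Equ.cons (Equ.refl _) ih
  | swap x y l => exact Equ.swap _ _ _
  | trans _ _ ih₁ ih₂ => exact ih₁.trans ih₂

lemma Equ.of_forall₂ {l l' : List Fr} (h : List.Forall₂ Equ l l') : Equ (ofList l) (ofList l') := by
  induction h with
  | nil => exact Equ.refl _
  | cons h _ ih => exact Equ.cons h ih

lemma card_W (f : Fr) : Fintype.card (W f) = 1 + size f := by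
  induction f with
  | nil => rfl
  | cons a b iha ihb =>
    show Fintype.card (W a ⊕ W b) = _
    rw [Fintype.card_sum, iha, ihb]
    simp [size]; omega

lemma size_ofList (l : List Fr) : size (ofList l) = (l.map (fun a => 1 + size a)).sum := by
  induction l with
  | nil => rfl
  | cons a l ih => simp [ofList, size, ih]

end Fr

end Pool.MP_1af41f_co.CSF
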