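import Pool.Agent.Lib_helper17.CSF.Main

set_option autoImplicit false

namespace Pool.MP_1af41f_co.CSF

open Polynomial
open scoped Classical

namespace Fr

/-- number of fringe subtrees of size `r` of a forest -/
def N (r : ℕ) : Fr → ℕ
  | nil => 0
  | cons a b => (if 1 + a.size = r then 1 else 0) + N r a + N r b

/-- number of fringe subtrees of size `r` of the tree with children forest `a` -/
def NT (r : ℕ) (a : Fr) : ℕ := (if 1 + a.size = r then 1 else 0) + N r a

lemma N_nil (r : ℕ) : N r nil = 0 := rfl

lemma N_cons (r : ℕ) (a b : Fr) : N r (cons a b) = NT r a + N r b := rfl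

lemma N_eq_sum (r : ℕ) (f : Fr) : N r f = (f.toList.map (NT r)).sum := by
  induction f with
  | nil => rfl
  | cons a b _ ih => rw [N_cons, ih]; simp [toList]

lemma N_perm {r : ℕ} {f g : Fr} (h : f.toList.Perm g.toList) : N r f = N r g := by
  rw [N_eq_sum, N_eq_sum]
  exact (h.map _).sum_eq

lemma size_eq_sum (f : Fr) : f.size = (f.toList.map (fun a => 1 + size a)).sum := by
  conv_lhs => rw [← ofList_toList f]
  exact size_ofList _

lemma size_perm {f g : Fr} (h : f.toList.Perm g.toList) : f.size = g.size := by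
  rw [size_eq_sum, size_eq_sum]
  exact (h.map _).sum_eq

/-- all branches have size at most `m` -/
def Le (m : ℕ) (f : Fr) : Prop := ∀ a ∈ f.toList, 1 + a.size ≤ m

lemma Le.mono {m m' : ℕ} {f : Fr} (h : Le m f) (hm : m ≤ m') : Le m' f :=
  fun a ha => (h a ha).trans hm

lemma Le_cons {m : ℕ} {a b : Fr} : Le m (cons a b) ↔ 1 + a.size ≤ m ∧ Le m b := by
  unfold Le
  simp [toList]

lemma Le_size (f : Fr) : Le f.size f := fun _ ha => mem_toList_size ha

lemma Le_perm {m : ℕ} {f g : Fr} (h : f.toList.Perm g.toList) : Le m f ↔ Le m g := by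
  unfold Le
  constructor
  · intro h' a ha; exact h' a (h.mem_iff.2 ha)
  · intro h' a ha; exact h' a (h.mem_iff.1 ha)

lemma N_eq_zero_of_lt {r : ℕ} {f : Fr} (h : f.size < r) : N r f = 0 := by
  induction f with
  | nil => rfl
  | cons a b iha ihb =>
    simp only [size] at h
    rw [N_cons, ihb (by omega), NT, iha (by omega), if_neg (by omega)]

lemma NT_eq_zero_of_lt {r : ℕ} {a : Fr} (h : 1 + a.size < r) : NT r a = 0 := by
  rw [NT, N_eq_zero_of_lt (by omega), if_neg (by omega)]

lemma NT_self (a : Fr) : NT (1 + a.size) a = 1 := by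
  rw [NT, N_eq_zero_of_lt (by omega), if_pos rfl]

lemma N_eq_zero_of_Le {m r : ℕ} {f : Fr} (hf : Le m f) (h : m < r) : N r f = 0 := by
  induction f with
  | nil => rfl
  | cons a b _ ih =>
    rw [Le_cons] at hf
    rw [N_cons, ih hf.2, NT_eq_zero_of_lt (by omega)]

lemma N_pos_of_mem {f a : Fr} (ha : a ∈ f.toList) : 0 < N (1 + a.size) f := by
  induction f with
  | nil => simp [toList] at ha
  | cons c b _ ih =>
    rw [N_cons]
    simp only [toList, List.mem_cons] at ha
    rcases ha with rfl | ha
    · rw [NT_self]; omega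
    · have := ih ha; omega

/-- If no fringe subtree has a size in `(θ, m]` then the branches have size `≤ θ`. -/
lemma Le_of_N_eq_zero {θ m : ℕ} {f : Fr} (hf : Le m f) (h : ∀ r, θ < r → r ≤ m → N r f = 0) :
    Le θ f := by
  intro a ha
  by_contra hlt
  have h1 := h (1 + a.size) (by omega) (hf a ha)
  have h2 := N_pos_of_mem ha
  omega

/-- number of vertices: the numbers `r N_r` count ... weight bound: `r * N r f ≤ ...` is not needed;
two disjoint fringe subtrees of size `r` need `2 r` vertices -/
lemma N_le_one {r : ℕ} {f : Fr} (h : f.size < 2 * r) : N r f ≤ 1 := by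
  induction f with
  | nil => simp [N_nil]
  | cons a b iha ihb =>
    simp only [size] at h
    rw [N_cons]
    rcases Nat.lt_or_ge b.size r with hb | hb
    · rw [N_eq_zero_of_lt hb, add_zero, NT]
      split_ifs with h1
      · rw [N_eq_zero_of_lt (by omega)]
      · have := iha (by omega); omega
    · have ha : 1 + a.size < r := by omega
      rw [NT_eq_zero_of_lt ha, zero_add]
      exact ihb (by omega)

lemma NT_le_one {r : ℕ} {a : Fr} (h : 1 + a.size < 2 * r) : NT r a ≤ 1 := by
  rw [NT]
  split_ifs with h1
  · rw [N_eq_zero_of_lt (by omega)]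
  · have := N_le_one (r := r) (f := a) (by omega); omega

/-- moving a branch to the front -/
lemma exists_front {f a : Fr} (ha : a ∈ f.toList) :
    ∃ b : Fr, f.toList.Perm (cons a b).toList := by
  refine ⟨ofList (f.toList.erase a), ?_⟩
  have : (cons a (ofList (f.toList.erase a))).toList = a :: f.toList.erase a := by
    simp [toList]
  rw [this]
  exact List.perm_cons_erase ha

lemma Equ.of_toList_perm {f g : Fr} (h : f.toList.Perm g.toList) : Equ f g := by
  have := Equ.of_perm h
  rwa [ofList_toList, ofList_toList] at this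

/-- existence of a branch of size `m` if `N m f > 0` and all branches are `≤ m` -/
lemma exists_mem_of_N_pos {m : ℕ} {f : Fr} (hf : Le m f) (h : 0 < N m f) :
    ∃ a ∈ f.toList, 1 + a.size = m := by
  induction f with
  | nil => simp [N_nil] at h
  | cons a b _ ih =>
    rw [Le_cons] at hf
    rw [N_cons] at h
    rcases Nat.eq_zero_or_pos (N m b) with hb | hb
    · have h1 : 0 < NT m a := by omega
      by_cases h2 : 1 + a.size = m
      · exact ⟨a, by simp [toList], h2⟩
      · exfalso
        rw [NT_eq_zero_of_lt (by omega)] at h1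
        omega
    · obtain ⟨c, hc, hcm⟩ := ih hf.2 hb
      exact ⟨c, by simp [toList, hc], hcm⟩

end Fr

lemma Pi_perm {S : Type*} [CommSemiring S] (y : ℕ → S) {f g : Fr} (h : f.toList.Perm g.toList) :
    Pi y f = Pi y g := by
  rw [Pi_eq_prod, Pi_eq_prod]
  exact (h.map _).prod_eq

end Pool.MP_1af41f_co.CSF
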