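import Pool.Agent.Lib_helper17.CSF.HCore

set_option autoImplicit false

namespace Pool.MP_1af41f_co.CSF

open Polynomial
open scoped Classical

/-- **Theorem H**, sharp form: `m` is any spine size with `m ≤ K * (s + 2 - m)`. -/
theorem theoremH' {a g : Fr} {z s θ K t m : ℕ} (ha : 1 + a.size = z)
    (hg : g.size = s) (hzs : z ≤ s) (hθz : θ < z) (hθs : s ≤ 2 * θ)
    (hgθ : ∀ b ∈ g.toList, 1 + b.size ≤ θ)
    (W : Finset ℕ) (hW : ∀ w ∈ W, θ < w ∧ 1 ≤ a.NT w)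
    (hov : ∀ x : ℕ, (W.filter (fun w => w + (s + 1 - z) ≤ x ∧ 1 ≤ g.N (x - w))).card ≤ t)
    (hWK : K * (t + 1) ≤ W.card) (hWt : 2 * t + 1 ≤ W.card)
    (hθm : θ < m) (hm : 1 ≤ a.NT m) (hK : m ≤ K * (s + 2 - m)) (f' : Fr)
    (hX : XEq (Fr.G (Fr.cons a g)) (Fr.G f')) :
    Nonempty (Fr.G (Fr.cons a g) ≃g Fr.G f') := by
  obtain ⟨f'', ⟨e⟩, hf''⟩ := exists_centroid f'
  have hX' : XEq (Fr.G (Fr.cons a g)) (Fr.G f'') := hX.of_iso SimpleGraph.Iso.refl e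
  have hLe : ∀ b ∈ (Fr.cons a g).toList, 1 + b.size ≤ z := by
    intro b hb
    rcases List.mem_cons.1 hb with rfl | hb
    · exact ha.le
    · exact (hgθ b hb).trans hθz.le
  have hLe'' := branch_le hX' hLe hf''
  have hsz : (Fr.cons a g).size = z + s := by simp only [Fr.size]; omega
  have hsz'' : f''.size = z + s := by rw [← size_eq hX', hsz]
  have H1 : ∀ i, z ≤ i → (Pi gen (Fr.cons a g)).coeff i = (Pi gen f'').coeff i := fun i hi =>
    coeff_eq_of_XEq hX' hLe hLe'' gen i hi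
  have H2 : phi gen (Pi gen (Fr.cons a g)) = phi gen (Pi gen f'') := phi_Pi_eq_generic hX'
  have hNz : 0 < f''.N z := by
    rw [← N_eq_of_coeff hsz hsz'' (by omega) (by omega) (H1 (z + s - z) (by omega)), Fr.N_cons,
      ← ha, Fr.NT_self]
    omega
  obtain ⟨a', ha', hza'⟩ := Fr.exists_mem_of_N_pos hLe'' hNz
  obtain ⟨g', hperm⟩ := Fr.exists_front ha'
  have hsg' : g'.size = s := by
    have := Fr.size_perm hperm
    rw [hsz''] at this
    simp only [Fr.size] at this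
    omega
  have hLeg' : Fr.Le z g' := ((Fr.Le_cons).1 ((Fr.Le_perm hperm).1 hLe'')).2
  have hE := hcore ha hza' hg hsg' hzs hθz hθs hgθ hLeg'
    (fun i hi => by rw [H1 i hi, Pi_perm gen hperm]) (by rw [H2, Pi_perm gen hperm])
    W hW hov hWK hWt hθm hm hK
  obtain ⟨e', _⟩ := hE.trans (Fr.Equ.of_toList_perm hperm).symm
  exact ⟨e'.trans e.symm⟩

/-- **Theorem H**. -/
theorem theoremH {a g : Fr} {z s θ K t : ℕ} (ha : 1 + a.size = z)
    (hg : g.size = s) (hzs : z ≤ s) (hθz : θ < z) (hθs : s ≤ 2 * θ)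
    (hgθ : ∀ b ∈ g.toList, 1 + b.size ≤ θ)
    (W : Finset ℕ) (hW : ∀ w ∈ W, θ < w ∧ 1 ≤ a.NT w)
    (hov : ∀ x : ℕ, (W.filter (fun w => w + (s + 1 - z) ≤ x ∧ 1 ≤ g.N (x - w))).card ≤ t)
    (hWK : K * (t + 1) ≤ W.card) (hWt : 2 * t + 1 ≤ W.card)
    (hK : z ≤ K * (s + 1 - z)) (f' : Fr)
    (hX : XEq (Fr.G (Fr.cons a g)) (Fr.G f')) :
    Nonempty (Fr.G (Fr.cons a g) ≃g Fr.G f') :=
  theoremH' (m := z) ha hg hzs hθz hθs hgθ W hW hov hWK hWt hθz (by rw [← ha, Fr.NT_self])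
    (hK.trans (Nat.mul_le_mul_left _ (by omega))) f' hX

end Pool.MP_1af41f_co.CSF
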