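import Pool.Agent.Lib_helper17.CSF.HRel

set_option autoImplicit false

namespace Pool.MP_1af41f_co.CSF

open Polynomial
open scoped Classical

/-- coefficients of the lowest part -/
lemma coeff_low {P : R[X]} {d : ℕ} {ε : R[X][X]} (h : P.map theta = C X ^ d * ε) (l : ℕ)
    (μ : ℕ →₀ ℕ) : MvPolynomial.coeff μ ((ε.map ev0).coeff l)
      = if μ.degree = d then MvPolynomial.coeff μ (P.coeff l) else 0 := by
  have h1 := congrArg (fun q => Polynomial.coeff q l) h
  simp only [coeff_map, coeff_C_pow_mul] at h1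
  have h2 : (ε.coeff l).coeff 0 = (theta (P.coeff l)).coeff d := by
    rw [h1, coeff_X_pow_mul', if_pos le_rfl, Nat.sub_self]
  rw [coeff_map, ev0_apply, h2, coeff_theta]

lemma pderiv_low {p q : R} {d : ℕ}
    (h : ∀ μ, MvPolynomial.coeff μ q = if μ.degree = d then MvPolynomial.coeff μ p else 0)
    {w : ℕ} (hp : MvPolynomial.pderiv w p = 0) : MvPolynomial.pderiv w q = 0 := by
  ext ν
  rw [MvPolynomial.coeff_pderiv, h, MvPolynomial.coeff_zero]
  split_ifs
  · have h1 := congrArg (MvPolynomial.coeff ν) hp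
    rw [MvPolynomial.coeff_pderiv, MvPolynomial.coeff_zero] at h1
    exact h1
  · rw [zero_mul]

lemma cd_low {P : R[X]} {d : ℕ} {ε : R[X][X]} (h : P.map theta = C X ^ d * ε) {w : ℕ}
    (hcd : cd w P = 0) : cd w (ε.map ev0) = 0 := by
  ext1 l
  rw [cd_coeff, coeff_zero]
  refine pderiv_low (fun μ => coeff_low h l μ) ?_
  rw [← cd_coeff, hcd, coeff_zero]

lemma NT_eq_of_cd {a a' : Fr} {z j : ℕ} (ha : 1 + a.size = z) (ha' : 1 + a'.size = z) (hj : 0 < j)
    (hjz : j ≤ z) (h : cd j (Fhat gen a - Fhat gen a') = 0) : a.NT j = a'.NT j := by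
  have h1 := DLP_Fhat j hj a (DLP_Pi j hj a)
  have h2 := DLP_Fhat j hj a' (DLP_Pi j hj a')
  rw [ha] at h1
  rw [ha'] at h2
  have h3 := h1.2.1 (z - j) (by omega)
  have h4 := h2.2.1 (z - j) (by omega)
  rw [cd_sub, sub_eq_zero] at h
  rw [h, h4] at h3
  exact_mod_cast h3.symm

/-- numbers of fringe subtrees from a single coefficient -/
lemma N_eq_of_coeff {f f' : Fr} {n j : ℕ} (hf : f.size = n) (hf' : f'.size = n) (hj : 0 < j)
    (hjn : j ≤ n) (h : (Pi gen f).coeff (n - j) = (Pi gen f').coeff (n - j)) : f.N j = f'.N j := by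
  have h1 := DLP_Pi j hj f
  have h2 := DLP_Pi j hj f'
  rw [hf] at h1
  rw [hf'] at h2
  have h3 := h1.2.1 (n - j) (by omega)
  have h4 := h2.2.1 (n - j) (by omega)
  rw [cd_coeff] at h3 h4
  rw [h, h4] at h3
  exact_mod_cast h3.symm

/-- the case `Fhat a = Fhat a'` -/
lemma equ_of_Fhat_eq {a a' g g' : Fr} {z s : ℕ} (ha : 1 + a.size = z)
    (H1 : ∀ i, z ≤ i → (Pi gen (Fr.cons a g)).coeff i = (Pi gen (Fr.cons a' g')).coeff i)
    (hF : Fhat gen a = Fhat gen a') (hs : (Fr.cons a g).size = s) :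
    Fr.Equ (Fr.cons a g) (Fr.cons a' g') := by
  refine equ_of_Pi_eq s _ _ hs ?_
  rw [Pi_cons, Pi_cons, ← hF]
  congr 1
  by_contra hne
  have hδ : Pi gen g - Pi gen g' ≠ 0 := sub_ne_zero.2 hne
  set δ := Pi gen g - Pi gen g' with hδdef
  have h1 := H1 (z + δ.natDegree) (by omega)
  rw [Pi_cons, Pi_cons, ← hF] at h1
  have h2 : (Fhat gen a * δ).coeff (z + δ.natDegree) = 0 := by
    rw [hδdef, mul_sub, coeff_sub, h1, sub_self]
  have h3 : (Fhat gen a).natDegree = z := by rw [Fhat_natDegree, ha]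
  rw [← h3, coeff_mul_degree_add_degree] at h2
  rw [(Fhat_monic gen a).leadingCoeff, one_mul] at h2
  exact hδ (leadingCoeff_eq_zero.1 h2)

/-- Core statement. -/
theorem hcore {a a' g g' : Fr} {z s θ K t m : ℕ} (ha : 1 + a.size = z) (ha' : 1 + a'.size = z)
    (hg : g.size = s) (hg' : g'.size = s) (hzs : z ≤ s) (hθz : θ < z) (hθs : s ≤ 2 * θ)
    (hgθ : Fr.Le θ g) (hgz' : Fr.Le z g')
    (H1 : ∀ i, z ≤ i → (Pi gen (Fr.cons a g)).coeff i = (Pi gen (Fr.cons a' g')).coeff i)
    (H2 : phi gen (Pi gen (Fr.cons a g)) = phi gen (Pi gen (Fr.cons a' g')))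
    (W : Finset ℕ) (hW : ∀ w ∈ W, θ < w ∧ 1 ≤ a.NT w)
    (hov : ∀ x : ℕ, (W.filter (fun w => w + (s + 1 - z) ≤ x ∧ 1 ≤ g.N (x - w))).card ≤ t)
    (hWK : K * (t + 1) ≤ W.card) (hWt : 2 * t + 1 ≤ W.card)
    (hθm : θ < m) (hm : 1 ≤ a.NT m) (hK : m ≤ K * (s + 2 - m)) :
    Fr.Equ (Fr.cons a g) (Fr.cons a' g') := by
  -- minimal spine size
  obtain ⟨m, ⟨hθm, hm, hK⟩, hmin⟩ : ∃ m, (θ < m ∧ 1 ≤ a.NT m ∧ m ≤ K * (s + 2 - m)) ∧
      ∀ j, θ < j → j < m → a.NT j = 0 := by
    have hex : ∃ m, θ < m ∧ 1 ≤ a.NT m := ⟨m, hθm, hm⟩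
    refine ⟨Nat.find hex, ⟨(Nat.find_spec hex).1, (Nat.find_spec hex).2, ?_⟩, ?_⟩
    · have h1 : Nat.find hex ≤ m := Nat.find_min' hex ⟨hθm, hm⟩
      calc Nat.find hex ≤ m := h1
        _ ≤ K * (s + 2 - m) := hK
        _ ≤ K * (s + 2 - Nat.find hex) := Nat.mul_le_mul_left _ (by omega)
    · intro j hj hjm
      by_contra h
      exact Nat.find_min hex hjm ⟨hj, by omega⟩
  have hmz : m ≤ z := by
    by_contra h
    rw [Fr.NT_eq_zero_of_lt (by omega)] at hm
    omega
  have hWz : ∀ w ∈ W, w ≤ z := by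
    intro w hw
    by_contra h
    have := (hW w hw).2
    rw [Fr.NT_eq_zero_of_lt (by omega)] at this
    omega
  by_cases hne : Fhat gen a = Fhat gen a'
  · exact equ_of_Fhat_eq ha H1 hne rfl
  exfalso
  have hNT1 : ∀ r, θ < r → a.NT r ≤ 1 := fun r hr => Fr.NT_le_one (by omega)
  have hNT1' : ∀ r, θ < r → a'.NT r ≤ 1 := fun r hr => Fr.NT_le_one (by omega)
  have hNg : ∀ r, θ < r → g.N r = 0 := fun r hr => Fr.N_eq_zero_of_Le hgθ hr
  -- numbers of fringe subtrees agree
  have hN : ∀ r, 0 < r → r ≤ s → a.NT r + g.N r = a'.NT r + g'.N r := by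
    intro r hr hrs
    have h1 : (Fr.cons a g).size = z + s := by simp only [Fr.size]; omega
    have h2 : (Fr.cons a' g').size = z + s := by simp only [Fr.size]; omega
    have h3 := N_eq_of_coeff h1 h2 hr (by omega) (H1 _ (by omega))
    rw [Fr.N_cons, Fr.N_cons] at h3
    exact h3
  obtain ⟨d, ε, δ, hε, hδ, hε0, hδ0, hrel⟩ := basic_relation ha ha' hg hg' hzs H1 H2 hne
  set E := ε.map ev0 with hE
  have hrel' : Tz z (E * (Lam g - X ^ (s - z) * LamT a')) = 0 := hrel
  have hΛ := Lin_LL ha' hg hzs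
  -- branches of `g'` are small
  have hgθ' : Fr.Le θ g' := by
    by_contra hbad
    -- some fringe size of `g'` above `θ`
    obtain ⟨z', hz'θ, hz'z, hz'⟩ : ∃ z', θ < z' ∧ z' ≤ z ∧ 0 < g'.N z' := by
      by_contra hcon
      push Not at hcon
      exact hbad (Fr.Le_of_N_eq_zero hgz' (fun r h1 h2 => by have := hcon r h1 h2; omega))
    have ez' : a.NT z' = 1 ∧ a'.NT z' = 0 := by
      have h1 := hN z' (by omega) (by omega)
      have h2 := hNT1 z' hz'θ
      rw [hNg z' hz'θ] at h1
      omega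
    have hEE := Lin_EE ha ha'
    -- `E` is the linear part
    have hEeq : E = LamT a - LamT a' := by
      obtain ⟨La, hLa, hLa0⟩ := exists_LamT a
      obtain ⟨La', hLa', hLa0'⟩ := exists_LamT a'
      have h1 : C X ^ d * ε = C X * (La - La') := by
        rw [← hε, hLa, hLa', ha, ha']; ring
      have h2 : (La - La').map ev0 ≠ 0 := by
        rw [Polynomial.map_sub, hLa0, hLa0']
        intro h3
        have h4 := hEE.1 (z - z') z' (by omega) (by omega)
        rw [h3, coeff_zero] at h4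
        have h5 : ea a a' z' = 1 := by simp [ea, ez'.1, ez'.2]
        rw [h5, map_one, one_mul] at h4
        exact MvPolynomial.X_ne_zero z' h4.symm
      have hCX : (C X : R[X][X]) ≠ 0 := C_ne_zero.2 X_ne_zero
      have hd : d = 1 := by
        rcases Nat.lt_trichotomy d 1 with h3 | h3 | h3
        · exfalso
          have h4 : d = 0 := by omega
          rw [h4, pow_zero, one_mul] at h1
          refine hε0 ?_
          rw [hE, ← C_X_dvd_iff, h1]
          exact dvd_mul_right _ _
        · exact h3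
        · exfalso
          obtain ⟨k, rfl⟩ : ∃ k, d = k + 2 := ⟨d - 2, by omega⟩
          refine h2 ?_
          rw [← C_X_dvd_iff]
          have h4 : C X * (C X * (C X ^ k * ε)) = C X * (La - La') := by
            rw [← h1]; ring
          have h5 := mul_left_cancel₀ hCX h4
          rw [← h5]
          exact dvd_mul_right _ _
      rw [hd, pow_one] at h1
      have h3 := mul_left_cancel₀ hCX h1
      rw [hE, h3, Polynomial.map_sub, hLa0, hLa0']
    -- the key consequence
    have key : ∀ w w' : ℕ, θ < w → 1 ≤ a.NT w → w ≤ z → θ < w' → 1 ≤ a.NT w' → w' ≤ z →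
        a'.NT w = 0 → a'.NT w' ≠ 0 → 1 ≤ g.N (z + s + 1 - w - w') := by
      intro w w' hwθ e4 hwz hw'θ e5 hw'z h0 h1
      have e1 := hNT1 w hwθ
      have e2 := hNT1 w' hw'θ
      have e3 := hNT1' w' hw'θ
      have f1 : a.NT w = 1 := by omega
      have f2 : a.NT w' = 1 := by omega
      have f3 : a'.NT w' = 1 := by omega
      rw [hEeq] at hrel'
      have h2 := bad_rel (w := w) (w' := w') (b := z + s + 1 - w - w') hΛ hEE hrel' (by omega) hwz
        (by omega) hw'z hzs (by simp [ea, f1, h0]) (by simp [cg, hNg w hwθ, h0])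
        (by simp [ea, f2, f3]) (by simp [cg, hNg w' hw'θ, f3]) (by omega) (by omega) (by omega)
      have h3 : (g.N (z + s + 1 - w - w') : ℂ) = 1 + (a.NT (z + s + 1 - w - w') : ℂ) := by
        simp only [cg, ea] at h2
        linear_combination h2
      have h4 : g.N (z + s + 1 - w - w') = 1 + a.NT (z + s + 1 - w - w') := by exact_mod_cast h3
      omega
    have hz1 : a.NT z = 1 := by rw [← ha]; exact Fr.NT_self a
    have hz1' : a'.NT z = 1 := by rw [← ha']; exact Fr.NT_self a'
    have hI : (W.filter (fun w => a'.NT w ≠ 0)).card ≤ t := by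
      refine le_trans (Finset.card_le_card ?_) (hov (z + s + 1 - z'))
      intro w hw
      rw [Finset.mem_filter] at hw ⊢
      refine ⟨hw.1, by have := hWz w hw.1; omega, ?_⟩
      exact key z' w hz'θ (by omega) hz'z (hW w hw.1).1 (hW w hw.1).2 (hWz w hw.1) ez'.2 hw.2
    have hJ : (W.filter (fun w => ¬ a'.NT w ≠ 0)).card ≤ t := by
      refine le_trans (Finset.card_le_card ?_) (hov (s + 1))
      intro w hw
      rw [Finset.mem_filter] at hw ⊢
      have h1 := hWz w hw.1
      refine ⟨hw.1, by omega, ?_⟩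
      have h2 := key w z (hW w hw.1).1 (hW w hw.1).2 h1 hθz (by omega) le_rfl
        (by simpa using hw.2) (by omega)
      have h3 : z + s + 1 - w - z = s + 1 - w := by omega
      rwa [h3] at h2
    have hsum := Finset.card_filter_add_card_filter_not (s := W) (fun w => a'.NT w ≠ 0)
    omega
  -- the exact lemma
  obtain ⟨X1, X2⟩ := exact_lemma ha ha' hg hzs hgθ hgθ' hθz H1 H2
  -- degree bound for `E`
  have hEdeg : ∀ l, θ + z - s ≤ l → E.coeff l = 0 := by
    intro l hl
    have h1 := X1 (l + (s - z)) (by omega)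
    have h2 : (Pi gen g - Pi gen g').map theta = C X ^ d * δ := by
      rw [Polynomial.map_sub, ← Pt_eq_map, ← Pt_eq_map, hδ]
    have h3 : (δ.map ev0).coeff (l + (s - z)) = 0 := by
      ext μ
      rw [coeff_low h2, h1]
      simp
    rw [hδ0, coeff_neg, coeff_X_pow_mul', if_pos (by omega)] at h3
    have h4 : l + (s - z) - (s - z) = l := by omega
    rw [h4] at h3
    exact neg_eq_zero.1 h3
  have hεmap : (Fhat gen a - Fhat gen a').map theta = C X ^ d * ε := by
    rw [Polynomial.map_sub, ← Ft_eq_map, ← Ft_eq_map, hε]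
  have hcdE : ∀ w, θ < w → w ≤ z → cd w E = 0 := fun w h1 h2 => cd_low hεmap (X2 w h1 h2)
  have hNTeq : ∀ w, θ < w → w ≤ z → a.NT w = a'.NT w := fun w h1 h2 =>
    NT_eq_of_cd ha ha' (by omega) h2 (X2 w h1 h2)
  -- low coefficients of `E`
  have hElow : ∀ l, l ≤ z - m → E.coeff l = 0 := by
    intro l hl
    refine peel a.size a a' θ m rfl (by omega) (by omega) hθm (by omega) hmin (by omega)
      (fun j h1 h2 => X2 j h1 (by omega)) d ε hε l (by omega)
  -- the rows
  have hrows := rows_claim (fun r => cg g a' r - 1) t (θ + z - s) K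
    (W.image (fun w => s + 1 - w)) {r | s + 2 - m ≤ r} (fun l => E.coeff l) ?_ ?_ ?_ ?_ ?_
  · refine hε0 ?_
    ext1 l
    rw [coeff_zero]
    rcases Nat.lt_or_ge l (θ + z - s) with hl | hl
    · exact hrows l hl
    · exact hEdeg l hl
  · intro v hv
    obtain ⟨w, hw, rfl⟩ := Finset.mem_image.1 hv
    have h1 := (hW w hw).1
    have h2 := hWz w hw
    refine RowEq_of_sum ?_
    refine good_row hΛ hEdeg hrel' (hcdE w h1 h2) (by omega) h2 hzs (by omega) (by omega) ?_
    have h3 := hNT1 w h1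
    have h4 := (hW w hw).2
    have h5 : a'.NT w = 1 := by rw [← hNTeq w h1 h2]; omega
    simp [cg, hNg w h1, h5]
  · intro v hv l hl hne
    obtain ⟨w, hw, rfl⟩ := Finset.mem_image.1 hv
    have h2 := hWz w hw
    have h3 : z - m < l := by
      by_contra h
      exact hne (hElow l (by omega))
    show s + 2 - m ≤ l + (s + 1 - w)
    omega
  · intro l hl μ hμ
    have h3 : z - m < l := by
      by_contra h
      have h4 : E.coeff l = 0 := hElow l (by omega)
      rw [MvPolynomial.mem_support_iff] at hμ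
      exact hμ (by rw [h4, MvPolynomial.coeff_zero])
    rw [MvPolynomial.mem_support_iff, coeff_low hεmap] at hμ
    have hμ2 : MvPolynomial.coeff μ ((Fhat gen a - Fhat gen a').coeff l) ≠ 0 := by
      intro h
      rw [h] at hμ
      simp at hμ
    have hwt : Finsupp.weight (fun i : ℕ => i) μ + l = z := by
      have h5 : WH ((Fhat gen a - Fhat gen a').coeff l) (z - l) := by
        rw [coeff_sub]
        have h6 := WHP_Fhat a
        have h7 := WHP_Fhat a'
        rw [ha] at h6
        rw [ha'] at h7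
        exact WH.sub ((h6 l).1 (z - l) (by omega)) ((h7 l).1 (z - l) (by omega))
      have h8 := h5 hμ2
      omega
    refine bd_lt (k := z - l) (by omega) (lt_of_lt_of_le ?_ hK)
    omega
  · intro l hl
    refine le_trans ?_ (hov (l + s + 1))
    refine Finset.card_le_card_of_injOn (fun v => s + 1 - v) ?_ ?_
    · intro v hv
      rw [Finset.mem_coe, Finset.mem_filter] at hv
      obtain ⟨hv, hκ⟩ := hv
      obtain ⟨w, hw, rfl⟩ := Finset.mem_image.1 hv
      have h2 := hWz w hw
      have h3 : s + 1 - (s + 1 - w) = w := by omega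
      show s + 1 - (s + 1 - w) ∈ ((W.filter _ : Finset ℕ) : Set ℕ)
      rw [h3, Finset.mem_coe, Finset.mem_filter]
      refine ⟨hw, by omega, ?_⟩
      have h4 : l + s + 1 - w = l + (s + 1 - w) := by omega
      rw [h4]
      by_contra h5
      have h6 : g.N (l + (s + 1 - w)) = 0 := by omega
      simp only [cg, h6] at hκ
      have h7 : ((1 + a'.NT (l + (s + 1 - w)) : ℕ) : ℂ) = 0 := by
        push_cast at hκ ⊢
        linear_combination -hκ
      have h8 : 1 + a'.NT (l + (s + 1 - w)) = 0 := by exact_mod_cast h7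
      omega
    · intro v hv v' hv' hvv
      rw [Finset.mem_coe, Finset.mem_filter] at hv hv'
      obtain ⟨w, hw, rfl⟩ := Finset.mem_image.1 hv.1
      obtain ⟨w', hw', rfl⟩ := Finset.mem_image.1 hv'.1
      have h2 := hWz w hw
      have h3 := hWz w' hw'
      simp only at hvv
      omega
  · rw [Finset.card_image_of_injOn, mul_comm]
    · exact hWK
    · intro w hw w' hw' hww
      have h2 := hWz w hw
      have h3 := hWz w' hw'
      simp only at hww
      omega

end Pool.MP_1af41f_co.CSF
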