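import Pool.Agent.Lib_helper17.CSF.TScale

set_option autoImplicit false

namespace Pool.MP_1af41f_co.CSF

open Polynomial
open scoped Classical

lemma coeff_C_pow_mul (k : ℕ) (P : R[X][X]) (i : ℕ) :
    (C X ^ k * P).coeff i = X ^ k * P.coeff i := by
  rw [← C_pow, coeff_C_mul]

lemma phi_C_pow_mul {y : ℕ → R[X]} (k : ℕ) (P : R[X][X]) :
    phi y (C X ^ k * P) = X ^ k * phi y P := by
  rw [← C_pow, phi_C_mul]

/-- The basic relation at lowest order. -/
theorem basic_relation {a a' g g' : Fr} {z s : ℕ} (ha : 1 + a.size = z) (ha' : 1 + a'.size = z)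
    (hg : g.size = s) (hg' : g'.size = s) (hzs : z ≤ s)
    (H1 : ∀ i, z ≤ i → (Pi gen (Fr.cons a g)).coeff i = (Pi gen (Fr.cons a' g')).coeff i)
    (H2 : phi gen (Pi gen (Fr.cons a g)) = phi gen (Pi gen (Fr.cons a' g')))
    (hne : Fhat gen a ≠ Fhat gen a') :
    ∃ (d : ℕ) (ε δ : R[X][X]), Fhat yt a - Fhat yt a' = C X ^ d * ε ∧
      Pi yt g - Pi yt g' = C X ^ d * δ ∧ ε.map ev0 ≠ 0 ∧
      δ.map ev0 = - (X ^ (s - z) * ε.map ev0) ∧
      ∑ i ∈ Finset.range z, (ε.map ev0 * (Lam g - X ^ (s - z) * LamT a')).coeff i *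
        gen (i + 1) = 0 := by
  -- the relations over `R[t]`
  have H1t : ∀ i, z ≤ i → (Pi yt (Fr.cons a g)).coeff i = (Pi yt (Fr.cons a' g')).coeff i := by
    intro i hi
    rw [Pt_eq_map, Pt_eq_map, coeff_map, coeff_map, H1 i hi]
  have H2t : phi yt (Pi yt (Fr.cons a g)) = phi yt (Pi yt (Fr.cons a' g')) := by
    have h1 := congrArg theta H2
    rw [phi_map, phi_map, Pi_map, Pi_map, theta_comp] at h1
    exact h1
  set εt := Fhat yt a - Fhat yt a' with hεt
  set δt := Pi yt g - Pi yt g' with hδt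
  set Δt := Pi yt (Fr.cons a g) - Pi yt (Fr.cons a' g') with hΔt
  have hΔ : Δt = Fhat yt a' * δt + Pi yt g * εt := by
    rw [hΔt, Pi_cons, Pi_cons, hδt, hεt]; ring
  have hΔlow : ∀ i, z ≤ i → Δt.coeff i = 0 := fun i hi => by
    rw [hΔt, coeff_sub, H1t i hi, sub_self]
  have hφ : phi yt Δt = 0 := by rw [hΔt, phi_sub, H2t, sub_self]
  have hεne : εt ≠ 0 := by
    intro h
    apply hne
    have h1 : (Fhat gen a).map theta = (Fhat gen a').map theta := by
      rw [← Ft_eq_map, ← Ft_eq_map]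
      exact sub_eq_zero.1 h
    exact Polynomial.map_injective _ theta_injective h1
  obtain ⟨d, ε, hε, hε0⟩ := exists_lowest εt hεne
  have hFa' : (Fhat yt a').map ev0 = X ^ z := by rw [Ft_ev0, ha']
  have hPg : (Pi yt g).map ev0 = X ^ s := by rw [Pt_ev0, hg]
  -- Step 1: `t^d` divides `δt`
  have hdvd : ∀ k, k ≤ d → ∃ δ, δt = C X ^ k * δ := by
    intro k
    induction k with
    | zero => intro _; exact ⟨δt, by simp⟩
    | succ k ih =>
      intro hk
      obtain ⟨δ, hδ⟩ := ih (by omega)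
      have h1 : Δt = C X ^ k * (Fhat yt a' * δ + Pi yt g * (C X ^ (d - k) * ε)) := by
        rw [hΔ, hδ, hε]
        have : C (X : R[X]) ^ d = C X ^ k * C X ^ (d - k) := by
          rw [← pow_add]; congr 1; omega
        rw [this]; ring
      have h2 : ∀ i, z ≤ i →
          ((Fhat yt a' * δ + Pi yt g * (C X ^ (d - k) * ε)).map ev0).coeff i = 0 := by
        intro i hi
        have h3 := hΔlow i hi
        rw [h1, coeff_C_pow_mul] at h3
        rcases mul_eq_zero.1 h3 with h4 | h4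
        · exact absurd h4 (pow_ne_zero _ X_ne_zero)
        · rw [coeff_map, h4, map_zero]
      have h3 : (Fhat yt a' * δ + Pi yt g * (C X ^ (d - k) * ε)).map ev0 =
          X ^ z * δ.map ev0 := by
        rw [Polynomial.map_add, Polynomial.map_mul, Polynomial.map_mul, Polynomial.map_mul,
          Polynomial.map_pow, map_C, hFa']
        have : ev0 X = 0 := by simp [ev0_apply]
        rw [this, C_0, zero_pow (by omega), zero_mul, mul_zero, add_zero]
      rw [h3] at h2
      have h4 : δ.map ev0 = 0 := by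
        ext1 i
        have := h2 (i + z) (by omega)
        rwa [coeff_X_pow_mul] at this
      obtain ⟨δ', hδ'⟩ := (C_X_dvd_iff δ).2 h4
      exact ⟨δ', by rw [hδ, hδ']; ring⟩
  obtain ⟨δ, hδ⟩ := hdvd d le_rfl
  -- Step 2
  have hΔ2 : Δt = C X ^ d * (Fhat yt a' * δ + Pi yt g * ε) := by
    rw [hΔ, hδ, hε]; ring
  have hlow2 : ∀ i, z ≤ i → (Fhat yt a' * δ + Pi yt g * ε).coeff i = 0 := by
    intro i hi
    have h3 := hΔlow i hi
    rw [hΔ2, coeff_C_pow_mul] at h3
    rcases mul_eq_zero.1 h3 with h4 | h4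
    · exact absurd h4 (pow_ne_zero _ X_ne_zero)
    · exact h4
  have hδ0 : δ.map ev0 = - (X ^ (s - z) * ε.map ev0) := by
    have h1 : X ^ z * (δ.map ev0 + X ^ (s - z) * ε.map ev0) =
        (Fhat yt a' * δ + Pi yt g * ε).map ev0 := by
      rw [Polynomial.map_add, Polynomial.map_mul, Polynomial.map_mul, hFa', hPg, mul_add,
        ← mul_assoc (X ^ z), ← pow_add, show z + (s - z) = s by omega]
    have h2 : δ.map ev0 + X ^ (s - z) * ε.map ev0 = 0 := by
      ext1 i
      rw [coeff_zero]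
      have h3 := congrArg (fun q => Polynomial.coeff q (i + z)) h1
      simp only [coeff_X_pow_mul, coeff_map] at h3
      rw [h3, hlow2 _ (by omega), map_zero]
    exact eq_neg_of_add_eq_zero_left h2
  -- Step 3
  have h1 : (δ + X ^ (s - z) * ε).map ev0 = 0 := by
    rw [Polynomial.map_add, Polynomial.map_mul, Polynomial.map_pow, map_X, hδ0]
    ring
  obtain ⟨ρ, hρ⟩ := (C_X_dvd_iff _).2 h1
  obtain ⟨La, hLa, hLa0⟩ := exists_LamT a'
  obtain ⟨Lg, hLg, hLg0⟩ := exists_Lam g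
  rw [ha'] at hLa
  rw [hg] at hLg
  set Ω := Fhat yt a' * ρ + ε * (Lg - X ^ (s - z) * La) with hΩ
  have hΔ3 : Fhat yt a' * δ + Pi yt g * ε = C X * Ω := by
    have h2 : δ = C X * ρ - X ^ (s - z) * ε := by rw [← hρ]; ring
    have h3 : (X : R[X][X]) ^ s = X ^ (s - z) * X ^ z := by
      rw [← pow_add]; congr 1; omega
    have h4 : Fhat yt a' * δ = Fhat yt a' * (C X * ρ) - (X ^ z + C X * La) * (X ^ (s - z) * ε) := by
      rw [h2, ← hLa]
      ring
    rw [h4, hLg, hΩ, h3]
    ring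
  have hΩlow : ∀ i, z ≤ i → Ω.coeff i = 0 := by
    intro i hi
    have h3 := hlow2 i hi
    rw [hΔ3, coeff_C_mul] at h3
    rcases mul_eq_zero.1 h3 with h4 | h4
    · exact absurd h4 X_ne_zero
    · exact h4
  have hφΩ : phi yc Ω = 0 := by
    have h2 := hφ
    rw [hΔ2, hΔ3, phi_C_pow_mul, phi_C_mul, phi_yt] at h2
    rcases mul_eq_zero.1 h2 with h4 | h4
    · exact absurd h4 (pow_ne_zero _ X_ne_zero)
    · rcases mul_eq_zero.1 h4 with h5 | h5
      · exact absurd h5 X_ne_zero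
      · rcases mul_eq_zero.1 h5 with h6 | h6
        · exact absurd h6 X_ne_zero
        · exact h6
  have hΩ0 : Ω.map ev0 = X ^ z * ρ.map ev0 + ε.map ev0 * (Lam g - X ^ (s - z) * LamT a') := by
    rw [hΩ, Polynomial.map_add, Polynomial.map_mul, Polynomial.map_mul, Polynomial.map_sub,
      Polynomial.map_mul, Polynomial.map_pow, map_X, hLa0, hLg0, hFa']
  refine ⟨d, ε, δ, hε, hδ, hε0, hδ0, ?_⟩
  have hφ0 : phi gen (Ω.map ev0) = 0 := by rw [← ev0_phi_yc, hφΩ, map_zero]
  have hnd : (Ω.map ev0).natDegree < z := by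
    by_contra hcon
    rw [not_lt] at hcon
    have h2 : (Ω.map ev0).coeff (Ω.map ev0).natDegree = 0 := by
      rw [coeff_map, hΩlow _ hcon, map_zero]
    have h3 : Ω.map ev0 = 0 := leadingCoeff_eq_zero.1 h2
    rw [h3, natDegree_zero] at hcon
    omega
  rw [phi_eq_sum_range gen _ z hnd] at hφ0
  rw [← hφ0]
  refine Finset.sum_congr rfl (fun i hi => ?_)
  rw [Finset.mem_range] at hi
  rw [hΩ0, coeff_add, coeff_X_pow_mul', if_neg (by omega), zero_add]

end Pool.MP_1af41f_co.CSF
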