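import Pool.Agent.Lib_helper17.CSF.Rel

set_option autoImplicit false

namespace Pool.MP_1af41f_co.CSF

open scoped Classical

/-- degree of a monomial in the variables of `B` -/
noncomputable def bd (B : Set ℕ) (μ : ℕ →₀ ℕ) : ℕ := ∑ i ∈ μ.support, B.indicator μ i

lemma bd_erase (B : Set ℕ) (μ : ℕ →₀ ℕ) {r : ℕ} (hr : r ∈ B) : bd (B \ {r}) μ + μ r = bd B μ := by
  unfold bd
  have key : ∀ x, x ≠ r → (B \ {r}).indicator (μ : ℕ → ℕ) x = B.indicator (μ : ℕ → ℕ) x := by
    intro x hxr
    by_cases hxB : x ∈ B
    · rw [Set.indicator_of_mem hxB, Set.indicator_of_mem (show x ∈ B \ {r} from ⟨hxB, hxr⟩)]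
    · rw [Set.indicator_of_notMem hxB,
        Set.indicator_of_notMem (show x ∉ B \ {r} from fun h => hxB h.1)]
  by_cases h : r ∈ μ.support
  · rw [← Finset.add_sum_erase _ _ h, ← Finset.add_sum_erase _ _ h]
    have h2 : ∑ x ∈ μ.support.erase r, (B \ {r}).indicator (μ : ℕ → ℕ) x =
        ∑ x ∈ μ.support.erase r, B.indicator (μ : ℕ → ℕ) x :=
      Finset.sum_congr rfl (fun x hx => key x (Finset.mem_erase.1 hx).1)
    rw [h2, Set.indicator_of_mem hr, Set.indicator_of_notMem (show r ∉ B \ {r} from fun h => h.2 rfl)]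
    omega
  · have h0 : μ r = 0 := by simpa using h
    rw [h0, add_zero]
    exact Finset.sum_congr rfl (fun x hx => key x (fun h' => h (h' ▸ hx)))

/-- restriction of a polynomial to the monomials of degree `e` in `X_r` -/
noncomputable def restr (r e : ℕ) (q : R) : R :=
  ∑ μ ∈ q.support.filter (fun μ => μ r = e), MvPolynomial.monomial μ (MvPolynomial.coeff μ q)

lemma coeff_restr (r e : ℕ) (q : R) (ν : ℕ →₀ ℕ) :
    MvPolynomial.coeff ν (restr r e q) = if ν r = e then MvPolynomial.coeff ν q else 0 := by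
  unfold restr
  rw [MvPolynomial.coeff_sum]
  simp only [MvPolynomial.coeff_monomial]
  rw [Finset.sum_ite_eq']
  by_cases h : ν r = e
  · by_cases h' : ν ∈ q.support
    · rw [if_pos (Finset.mem_filter.2 ⟨h', h⟩), if_pos h]
    · have h1 : ν ∉ q.support.filter (fun μ => μ r = e) :=
        fun h'' => h' (Finset.mem_filter.1 h'').1
      rw [if_neg h1, if_pos h]
      exact (MvPolynomial.notMem_support_iff.1 h').symm
  · have h1 : ν ∉ q.support.filter (fun μ => μ r = e) := fun h'' => h (Finset.mem_filter.1 h'').2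
    rw [if_neg h1, if_neg h]

/-- the `v`-th row equation `∑ κ (l+v) q_l X_(l+v) = 0`, coefficientwise -/
def RowEq (κ : ℕ → ℂ) (L : ℕ) (q : ℕ → R) (v : ℕ) : Prop :=
  ∀ ν : ℕ →₀ ℕ, ∑ l ∈ Finset.range L, κ (l + v) *
    (if l + v ∈ ν.support then MvPolynomial.coeff (ν - Finsupp.single (l + v) 1) (q l) else 0) = 0

lemma RowEq_of_sum {κ : ℕ → ℂ} {L : ℕ} {q : ℕ → R} {v : ℕ}
    (h : ∑ l ∈ Finset.range L, MvPolynomial.C (κ (l + v)) * (q l * MvPolynomial.X (l + v)) = 0) :
    RowEq κ L q v := by
  intro ν
  have h1 := congrArg (MvPolynomial.coeff ν) h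
  rw [MvPolynomial.coeff_sum, MvPolynomial.coeff_zero] at h1
  refine Eq.trans (Finset.sum_congr rfl (fun l _ => ?_)) h1
  rw [MvPolynomial.coeff_C_mul, MvPolynomial.coeff_mul_X']

/-- splitting off the `n` smallest elements of a finite set -/
lemma exists_lower (V : Finset ℕ) (n : ℕ) (hn : n ≤ V.card) :
    ∃ A ⊆ V, A.card = n ∧ ∀ x ∈ A, ∀ y ∈ V \ A, x < y := by
  induction n with
  | zero => exact ⟨∅, by simp, by simp, by simp⟩
  | succ n ih =>
    obtain ⟨A, hA, hc, hlt⟩ := ih (by omega)
    have hne : (V \ A).Nonempty := by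
      rw [← Finset.card_pos, Finset.card_sdiff_of_subset hA]
      omega
    set m := (V \ A).min' hne with hm
    have hmem : m ∈ V \ A := Finset.min'_mem _ _
    refine ⟨insert m A, ?_, ?_, ?_⟩
    · intro x hx
      rcases Finset.mem_insert.1 hx with rfl | hx
      · exact (Finset.mem_sdiff.1 hmem).1
      · exact hA hx
    · rw [Finset.card_insert_of_notMem (Finset.mem_sdiff.1 hmem).2, hc]
    · intro x hx y hy
      have hy1 := Finset.mem_sdiff.1 hy
      have hyA : y ∈ V \ A := Finset.mem_sdiff.2 ⟨hy1.1, fun h => hy1.2 (Finset.mem_insert_of_mem h)⟩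
      have hym : y ≠ m := fun h => hy1.2 (h ▸ Finset.mem_insert_self _ _)
      rcases Finset.mem_insert.1 hx with rfl | hx
      · exact lt_of_le_of_ne (Finset.min'_le _ _ hyA) (Ne.symm hym)
      · exact hlt x hx y hyA

/-- The rows lemma. -/
theorem rows_claim (κ : ℕ → ℂ) (t L : ℕ) : ∀ (K : ℕ) (V : Finset ℕ) (B : Set ℕ) (q : ℕ → R),
    (∀ v ∈ V, RowEq κ L q v) →
    (∀ v ∈ V, ∀ l < L, q l ≠ 0 → l + v ∈ B) →
    (∀ l < L, ∀ μ ∈ (q l).support, bd B μ < K) →
    (∀ l < L, (V.filter (fun v => κ (l + v) = 0)).card ≤ t) →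
    (t + 1) * K ≤ V.card → ∀ l < L, q l = 0 := by
  intro K
  induction K with
  | zero =>
    intro V B q _ _ hdeg _ _ l hl
    by_contra hne
    obtain ⟨μ, hμ⟩ := (MvPolynomial.ne_zero_iff.1 hne)
    have := hdeg l hl μ (MvPolynomial.mem_support_iff.2 hμ)
    omega
  | succ K ih =>
    intro V B q hrow hB hdeg hbad hV
    by_contra hcon
    push Not at hcon
    -- the largest index with `q l ≠ 0`
    obtain ⟨l₀, ⟨hl₀, hql₀⟩, hmax⟩ : ∃ l₀, (l₀ < L ∧ q l₀ ≠ 0) ∧ ∀ l < L, q l ≠ 0 → l ≤ l₀ := by
      have hne : ((Finset.range L).filter (fun l => q l ≠ 0)).Nonempty := by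
        obtain ⟨l, hl, hq⟩ := hcon
        exact ⟨l, Finset.mem_filter.2 ⟨Finset.mem_range.2 hl, hq⟩⟩
      have h1 := Finset.mem_filter.1 (Finset.max'_mem _ hne)
      exact ⟨_, ⟨Finset.mem_range.1 h1.1, h1.2⟩, fun l hl hq =>
        Finset.le_max' _ _ (Finset.mem_filter.2 ⟨Finset.mem_range.2 hl, hq⟩)⟩
    obtain ⟨A, hA, hAc, hlt⟩ := exists_lower V ((t + 1) * K) (by
      have : (t + 1) * (K + 1) = (t + 1) * K + (t + 1) := by ring
      omega)
    have hVA : t < (V \ A).card := by
      rw [Finset.card_sdiff_of_subset hA]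
      have : (t + 1) * (K + 1) = (t + 1) * K + (t + 1) := by ring
      omega
    -- no `q l` involves `X_r` for large `r`
    have claim : ∀ r, r ∈ B → (∀ v ∈ A, l₀ + v < r) → ∀ l < L, ∀ μ ∈ (q l).support, μ r = 0 := by
      intro r hr hrA
      by_contra hcon2
      push Not at hcon2
      obtain ⟨l₁, hl₁, μ₁, hμ₁, hμr₁⟩ := hcon2
      -- the maximal exponent
      obtain ⟨e, l₂, hl₂, μ₂, hμ₂, he, hemax⟩ : ∃ e l₂, l₂ < L ∧ ∃ μ₂ ∈ (q l₂).support,
          μ₂ r = e ∧ 0 < e := ⟨_, l₁, hl₁, μ₁, hμ₁, rfl, Nat.pos_of_ne_zero hμr₁⟩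
      have key := ih A (B \ {r}) (fun l => restr r e (q l)) ?_ ?_ ?_ ?_ ?_ l₂ hl₂
      · have h1 := coeff_restr r e (q l₂) μ₂
        rw [if_pos he] at h1
        have h2 : restr r e (q l₂) = 0 := key
        rw [h2, MvPolynomial.coeff_zero] at h1
        exact MvPolynomial.mem_support_iff.1 hμ₂ h1.symm
      · intro v hv ν
        have h1 := hrow v (hA hv) ν
        by_cases hν : ν r = e
        · refine Eq.trans (Finset.sum_congr rfl (fun l hl => ?_)) h1
          dsimp only
          by_cases hq : q l = 0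
          · have : restr r e (q l) = 0 := by rw [hq]; simp [restr]
            rw [this, hq]
          · have hll := hmax l (Finset.mem_range.1 hl) hq
            have hne : l + v ≠ r := by have := hrA v hv; omega
            split_ifs with hs
            · rw [coeff_restr, if_pos]
              rw [Finsupp.coe_tsub, Pi.sub_apply, Finsupp.single_eq_of_ne (Ne.symm hne)]
              simpa using hν
            · rfl
        · refine Finset.sum_eq_zero (fun l hl => ?_)
          dsimp only
          by_cases hq : q l = 0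
          · have : restr r e (q l) = 0 := by rw [hq]; simp [restr]
            rw [this]; simp
          · have hll := hmax l (Finset.mem_range.1 hl) hq
            have hne : l + v ≠ r := by have := hrA v hv; omega
            split_ifs with hs
            · rw [coeff_restr, if_neg, mul_zero]
              rw [Finsupp.coe_tsub, Pi.sub_apply, Finsupp.single_eq_of_ne (Ne.symm hne)]
              simpa using hν
            · rw [mul_zero]
      · intro v hv l hl hq
        have hq' : q l ≠ 0 := by
          intro h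
          apply hq
          show restr r e (q l) = 0
          rw [h]; simp [restr]
        refine ⟨hB v (hA hv) l hl hq', ?_⟩
        have hll := hmax l hl hq'
        have := hrA v hv
        intro h
        have h' : l + v = r := h
        omega
      · intro l hl μ hμ
        have h1 : MvPolynomial.coeff μ (restr r e (q l)) ≠ 0 := MvPolynomial.mem_support_iff.1 hμ
        rw [coeff_restr] at h1
        have h2 : μ r = e := by
          by_contra h
          rw [if_neg h] at h1
          exact h1 rfl
        rw [if_pos h2] at h1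
        have h3 := hdeg l hl μ (MvPolynomial.mem_support_iff.2 h1)
        have h4 := bd_erase B μ hr
        omega
      · intro l hl
        refine le_trans (Finset.card_le_card ?_) (hbad l hl)
        exact Finset.filter_subset_filter _ hA
      · rw [hAc]
    -- all rows outside `A` are bad at `l₀`
    have hall : V \ A ⊆ V.filter (fun v => κ (l₀ + v) = 0) := by
      intro v hv
      have hv1 := Finset.mem_sdiff.1 hv
      refine Finset.mem_filter.2 ⟨hv1.1, ?_⟩
      have hrB : l₀ + v ∈ B := hB v hv1.1 l₀ hl₀ hql₀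
      have hcl := claim (l₀ + v) hrB (fun x hx => by have := hlt x hx v hv; omega)
      obtain ⟨μ, hμ⟩ := (MvPolynomial.ne_zero_iff.1 hql₀)
      have h1 := hrow v hv1.1 (μ + Finsupp.single (l₀ + v) 1)
      rw [Finset.sum_eq_single l₀] at h1
      · rw [if_pos, add_tsub_cancel_right] at h1
        · rcases mul_eq_zero.1 h1 with h2 | h2
          · exact h2
          · exact absurd h2 hμ
        · simp
      · intro l hl hne
        split_ifs with hs
        · have h2 : MvPolynomial.coeff (μ + Finsupp.single (l₀ + v) 1 - Finsupp.single (l + v) 1)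
              (q l) = 0 := by
            by_contra h3
            have h4 := hcl l (Finset.mem_range.1 hl) _ (MvPolynomial.mem_support_iff.2 h3)
            rw [Finsupp.coe_tsub, Pi.sub_apply, Finsupp.coe_add, Pi.add_apply,
              Finsupp.single_eq_same, Finsupp.single_eq_of_ne (by omega)] at h4
            omega
          rw [h2, mul_zero]
        · rw [mul_zero]
      · intro h
        exact absurd (Finset.mem_range.2 hl₀) h
    have h1 := Finset.card_le_card hall
    have h2 := hbad l₀ hl₀
    omega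

end Pool.MP_1af41f_co.CSF
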