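import Pool.Agent.Lib_helper17.CSF.Rows

set_option autoImplicit false

namespace Pool.MP_1af41f_co.CSF

open Polynomial
open scoped Classical

/-- weighted homogeneity with `y_i` of weight `i` -/
abbrev WH (p : R) (k : ℕ) : Prop := MvPolynomial.IsWeightedHomogeneous (fun i : ℕ => i) p k

/-- `P` is homogeneous of total weight `m`, with `u` of weight one. -/
def WHP (P : R[X]) (m : ℕ) : Prop :=
  ∀ i, (∀ k, i + k = m → WH (P.coeff i) k) ∧ (m < i → P.coeff i = 0)

lemma WH.add {p q : R} {k : ℕ} (hp : WH p k) (hq : WH q k) : WH (p + q) k :=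
  (MvPolynomial.weightedHomogeneousSubmodule ℂ (fun i : ℕ => i) k).add_mem hp hq

lemma WH.sub {p q : R} {k : ℕ} (hp : WH p k) (hq : WH q k) : WH (p - q) k :=
  (MvPolynomial.weightedHomogeneousSubmodule ℂ (fun i : ℕ => i) k).sub_mem hp hq

lemma WH.sum {ι : Type*} {s : Finset ι} {f : ι → R} {k : ℕ} (h : ∀ i ∈ s, WH (f i) k) :
    WH (∑ i ∈ s, f i) k :=
  (MvPolynomial.weightedHomogeneousSubmodule ℂ (fun i : ℕ => i) k).sum_mem h

lemma WH.zero (k : ℕ) : WH 0 k :=
  (MvPolynomial.weightedHomogeneousSubmodule ℂ (fun i : ℕ => i) k).zero_mem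

lemma WHP.mul {P Q : R[X]} {m m' : ℕ} (hP : WHP P m) (hQ : WHP Q m') : WHP (P * Q) (m + m') := by
  intro i
  constructor
  · intro k hk
    rw [coeff_mul]
    refine WH.sum (fun x hx => ?_)
    rw [Finset.HasAntidiagonal.mem_antidiagonal] at hx
    rcases Nat.lt_or_ge m x.1 with h | h
    · rw [(hP x.1).2 h, zero_mul]; exact WH.zero _
    · rcases Nat.lt_or_ge m' x.2 with h' | h'
      · rw [(hQ x.2).2 h', mul_zero]; exact WH.zero _
      · have h1 := (hP x.1).1 (m - x.1) (by omega)
        have h2 := (hQ x.2).1 (m' - x.2) (by omega)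
        have h3 := MvPolynomial.IsWeightedHomogeneous.mul h1 h2
        rwa [show (m - x.1) + (m' - x.2) = k by omega] at h3
  · intro hi
    rw [coeff_mul]
    refine Finset.sum_eq_zero (fun x hx => ?_)
    rw [Finset.HasAntidiagonal.mem_antidiagonal] at hx
    rcases Nat.lt_or_ge m x.1 with h | h
    · rw [(hP x.1).2 h, zero_mul]
    · rw [(hQ x.2).2 (by omega), mul_zero]

lemma WHP.Fhat {a : Fr} (h : WHP (Pi gen a) a.size) : WHP (Fhat gen a) (1 + a.size) := by
  have hphi : WH (phi gen (Pi gen a)) (1 + a.size) := by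
    rw [phi_eq_sum_range gen _ (a.size + 1) (by rw [Pi_natDegree]; omega)]
    refine WH.sum (fun i hi => ?_)
    rw [Finset.mem_range] at hi
    have h1 := (h i).1 (a.size - i) (by omega)
    have h2 : WH (gen (i + 1)) (i + 1) := MvPolynomial.isWeightedHomogeneous_X ℂ (fun i : ℕ => i) (i + 1)
    have h3 := MvPolynomial.IsWeightedHomogeneous.mul h1 h2
    rwa [show a.size - i + (i + 1) = 1 + a.size by omega] at h3
  intro i
  unfold CSF.Fhat
  cases i with
  | zero =>
    constructor
    · intro k hk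
      rw [coeff_add, coeff_X_mul_zero, zero_add, coeff_C_zero]
      have : k = 1 + a.size := by omega
      rwa [this]
    · intro h'; omega
  | succ i =>
    rw [coeff_add, coeff_X_mul, coeff_C_succ, add_zero]
    exact ⟨fun k hk => (h i).1 k (by omega), fun hi => (h i).2 (by omega)⟩

lemma WHP_Pi (f : Fr) : WHP (Pi gen f) f.size := by
  induction f with
  | nil =>
    intro i
    rw [Pi_nil, coeff_one]
    constructor
    · intro k hk
      simp only [Fr.size] at hk
      have h1 : i = 0 := by omega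
      have h2 : k = 0 := by omega
      subst h1 h2
      rw [if_pos rfl]
      exact MvPolynomial.isWeightedHomogeneous_one ℂ _
    · intro hi
      simp only [Fr.size] at hi
      rw [if_neg (by omega)]
  | cons a b iha ihb =>
    rw [Pi_cons]
    exact iha.Fhat.mul ihb

lemma WHP_Fhat (a : Fr) : WHP (Fhat gen a) (1 + a.size) := (WHP_Pi a).Fhat

/-- number of big variables of a monomial -/
lemma bd_lt {μ : ℕ →₀ ℕ} {h K k : ℕ} (hμ : Finsupp.weight (fun i : ℕ => i) μ = k) (hk : k < K * h) :
    bd {r | h ≤ r} μ < K := by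
  have h1 : bd {r | h ≤ r} μ * h ≤ Finsupp.weight (fun i : ℕ => i) μ := by
    rw [Finsupp.weight_apply, Finsupp.sum]
    unfold bd
    rw [Finset.sum_mul]
    refine Finset.sum_le_sum (fun i _ => ?_)
    by_cases hi : h ≤ i
    · rw [Set.indicator_of_mem (show i ∈ {r | h ≤ r} from hi), smul_eq_mul]
      exact Nat.mul_le_mul_left _ hi
    · rw [Set.indicator_of_notMem (show i ∉ {r | h ≤ r} from hi), zero_mul]
      exact Nat.zero_le _
  by_contra hcon
  rw [not_lt] at hcon
  have h2 := Nat.mul_le_mul_right h hcon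
  omega

end Pool.MP_1af41f_co.CSF
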