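import Pool.Agent.Lib_helper17.CSF.Peel
import Pool.Agent.Lib_helper17.CSF.Rel
import Pool.Agent.Lib_helper17.CSF.Rows
import Pool.Agent.Lib_helper17.CSF.Wt

set_option autoImplicit false

namespace Pool.MP_1af41f_co.CSF

open Polynomial
open scoped Classical

/-- truncated linear functional -/
noncomputable def Tz (z : ℕ) (P : R[X]) : R := ∑ i ∈ Finset.range z, P.coeff i * gen (i + 1)

lemma Tz_add (z : ℕ) (P Q : R[X]) : Tz z (P + Q) = Tz z P + Tz z Q := by
  unfold Tz
  rw [← Finset.sum_add_distrib]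
  refine Finset.sum_congr rfl (fun i _ => ?_)
  rw [coeff_add]; ring

lemma Tz_C_mul (z : ℕ) (a : R) (P : R[X]) : Tz z (C a * P) = a * Tz z P := by
  unfold Tz
  rw [Finset.mul_sum]
  refine Finset.sum_congr rfl (fun i _ => ?_)
  rw [coeff_C_mul]; ring

lemma pderiv_Tz {z w : ℕ} (hw : 0 < w) (hwz : w ≤ z) (P : R[X]) :
    MvPolynomial.pderiv w (Tz z P) = Tz z (cd w P) + P.coeff (w - 1) := by
  unfold Tz
  rw [map_sum]
  have h3 : ∀ i, MvPolynomial.pderiv w (P.coeff i * gen (i + 1)) =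
      (cd w P).coeff i * gen (i + 1) + (if i = w - 1 then P.coeff i else 0) := by
    intro i
    rw [cd_coeff, Derivation.leibniz, MvPolynomial.pderiv_X]
    simp only [smul_eq_mul]
    by_cases h : i = w - 1
    · have h4 : i + 1 = w := by omega
      rw [if_pos h, h4, Pi.single_eq_same]; ring
    · have h4 : i + 1 ≠ w := by omega
      rw [if_neg h, Pi.single_eq_of_ne h4]; ring
  rw [Finset.sum_congr rfl (fun i _ => h3 i), Finset.sum_add_distrib, Finset.sum_ite_eq']
  rw [if_pos (Finset.mem_range.2 (by omega))]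

lemma Tz_X_pow {z m : ℕ} (hm : m < z) : Tz z (X ^ m : R[X]) = gen (m + 1) := by
  unfold Tz
  rw [Finset.sum_eq_single m]
  · rw [coeff_X_pow, if_pos rfl, one_mul]
  · intro i _ hi
    rw [coeff_X_pow, if_neg hi, zero_mul]
  · intro h
    exact absurd (Finset.mem_range.2 hm) h

lemma Tz_mul_X_pow {z m L : ℕ} (P : R[X]) (hP : ∀ l, L ≤ l → P.coeff l = 0) (h : m + L ≤ z) :
    Tz z (P * X ^ m) = ∑ l ∈ Finset.range L, P.coeff l * gen (m + l + 1) := by
  unfold Tz
  obtain ⟨k, rfl⟩ := Nat.exists_eq_add_of_le h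
  rw [Finset.sum_range_add, Finset.sum_range_add]
  have h1 : ∑ x ∈ Finset.range m, (P * X ^ m).coeff x * gen (x + 1) = 0 := by
    refine Finset.sum_eq_zero (fun i hi => ?_)
    rw [coeff_mul_X_pow', if_neg (by have := Finset.mem_range.1 hi; omega), zero_mul]
  have h2 : ∑ x ∈ Finset.range k, (P * X ^ m).coeff (m + L + x) * gen (m + L + x + 1) = 0 := by
    refine Finset.sum_eq_zero (fun i hi => ?_)
    rw [coeff_mul_X_pow', if_pos (by omega), hP _ (by omega), zero_mul]
  rw [h1, h2, zero_add, add_zero]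
  refine Finset.sum_congr rfl (fun l _ => ?_)
  rw [coeff_mul_X_pow', if_pos (by omega)]
  have : m + l - m = l := by omega
  rw [this]

/-- linear forms: coefficient of `u^(m-r)` is `c r * X r` -/
def Lin (P : R[X]) (m : ℕ) (c : ℕ → ℂ) : Prop :=
  (∀ i r, i + r = m → 0 < r → P.coeff i = MvPolynomial.C (c r) * gen r) ∧
    ∀ i, m ≤ i → P.coeff i = 0

lemma Lin.cd {P : R[X]} {m : ℕ} {c : ℕ → ℂ} (h : Lin P m c) {w : ℕ} (hw : 0 < w) (hwm : w ≤ m) :
    cd w P = C (MvPolynomial.C (c w)) * X ^ (m - w) := by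
  ext1 i
  rw [cd_coeff, coeff_C_mul, coeff_X_pow]
  rcases Nat.lt_or_ge i m with hi | hi
  · rw [h.1 i (m - i) (by omega) (by omega), Derivation.leibniz, MvPolynomial.pderiv_C,
      MvPolynomial.pderiv_X]
    simp only [smul_eq_mul, mul_zero, add_zero]
    by_cases h1 : i = m - w
    · have h2 : m - i = w := by omega
      rw [if_pos h1, h2, Pi.single_eq_same]
    · have h2 : m - i ≠ w := by omega
      rw [if_neg h1, Pi.single_eq_of_ne h2, mul_zero, mul_zero]
  · rw [h.2 i hi, map_zero, if_neg (by omega), mul_zero]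

/-- coefficients of the linear part of `Pi g - Pi a'` -/
noncomputable def cg (g a' : Fr) (r : ℕ) : ℂ := (g.N r : ℂ) - (a'.NT r : ℂ)

/-- coefficients of the linear part of `Fhat a - Fhat a'` -/
noncomputable def ea (a a' : Fr) (r : ℕ) : ℂ := (a.NT r : ℂ) - (a'.NT r : ℂ)

lemma Lin_LL {g a' : Fr} {z s : ℕ} (ha' : 1 + a'.size = z) (hg : g.size = s) (hzs : z ≤ s) :
    Lin (Lam g - X ^ (s - z) * LamT a') s (cg g a') := by
  have h1 := coeff_Lam g
  have h2 := coeff_LamT a' (coeff_Lam a')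
  rw [hg] at h1
  rw [ha'] at h2
  refine ⟨fun i r hir hr => ?_, fun i hi => ?_⟩
  · rw [coeff_sub, h1.1 i r hir hr, coeff_X_pow_mul']
    split_ifs with h
    · rw [h2.1 (i - (s - z)) r (by omega) hr]
      simp only [cg, map_sub, map_natCast]; ring
    · have : a'.NT r = 0 := Fr.NT_eq_zero_of_lt (by omega)
      simp only [cg, this, map_sub, map_natCast]; simp
  · rw [coeff_sub, h1.2 i hi, coeff_X_pow_mul', if_pos (by omega), h2.2 _ (by omega), sub_zero]

lemma Lin_EE {a a' : Fr} {z : ℕ} (ha : 1 + a.size = z) (ha' : 1 + a'.size = z) :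
    Lin (LamT a - LamT a') z (ea a a') := by
  have h1 := coeff_LamT a (coeff_Lam a)
  have h2 := coeff_LamT a' (coeff_Lam a')
  rw [ha] at h1
  rw [ha'] at h2
  refine ⟨fun i r hir hr => ?_, fun i hi => ?_⟩
  · rw [coeff_sub, h1.1 i r hir hr, h2.1 i r hir hr]
    simp only [ea, map_sub, map_natCast]; ring
  · rw [coeff_sub, h1.2 i hi, h2.2 i hi, sub_zero]

lemma Tz_zero (z : ℕ) : Tz z 0 = 0 := by
  unfold Tz; simp

/-- the rows -/
theorem good_row {E Λ : R[X]} {z s L w : ℕ} {c : ℕ → ℂ} (hΛ : Lin Λ s c)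
    (hE : ∀ l, L ≤ l → E.coeff l = 0) (hrel : Tz z (E * Λ) = 0) (hcd : cd w E = 0) (hw : 0 < w)
    (hwz : w ≤ z) (hzs : z ≤ s) (hLw : L ≤ w) (hL : (s - w) + L ≤ z) (hcw : c w = -1) :
    ∑ l ∈ Finset.range L, MvPolynomial.C (c (l + (s + 1 - w)) - 1) *
      (E.coeff l * MvPolynomial.X (l + (s + 1 - w))) = 0 := by
  have h1 := pderiv_Tz hw hwz (E * Λ)
  rw [hrel, map_zero, cd_mul, hcd, zero_mul, zero_add, hΛ.cd hw (by omega), hcw] at h1
  have h2 : E * (C (MvPolynomial.C (-1)) * X ^ (s - w)) = C (-1) * (E * X ^ (s - w)) := by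
    rw [show (MvPolynomial.C (-1 : ℂ) : R) = -1 by simp]; ring
  rw [h2, Tz_C_mul, Tz_mul_X_pow E hE hL, coeff_mul,
    Finset.Nat.sum_antidiagonal_eq_sum_range_succ_mk] at h1
  have h3 : ∑ k ∈ Finset.range (w - 1).succ, E.coeff k * Λ.coeff (w - 1 - k)
      = ∑ l ∈ Finset.range L, E.coeff l * Λ.coeff (w - 1 - l) := by
    symm
    refine Finset.sum_subset ?_ ?_
    · intro l hl
      have := Finset.mem_range.1 hl
      exact Finset.mem_range.2 (by omega)
    · intro l _ hl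
      have h4 : L ≤ l := by
        by_contra h5
        exact hl (Finset.mem_range.2 (by omega))
      rw [hE l h4, zero_mul]
  simp only at h1
  rw [h3] at h1
  have h5 : ∀ l ∈ Finset.range L, MvPolynomial.C (c (l + (s + 1 - w)) - 1) *
      (E.coeff l * MvPolynomial.X (l + (s + 1 - w))) =
      -1 * (E.coeff l * gen (s - w + l + 1)) + E.coeff l * Λ.coeff (w - 1 - l) := by
    intro l hl
    have hl' := Finset.mem_range.1 hl
    rw [hΛ.1 (w - 1 - l) (l + (s + 1 - w)) (by omega) (by omega)]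
    have h6 : s - w + l + 1 = l + (s + 1 - w) := by omega
    rw [h6, map_sub, map_one]
    ring
  rw [Finset.sum_congr rfl h5, Finset.sum_add_distrib, ← Finset.mul_sum]
  exact h1.symm

/-- the relation in the bad case -/
theorem bad_rel {E Λ : R[X]} {z s w w' b : ℕ} {c e : ℕ → ℂ} (hΛ : Lin Λ s c) (hE : Lin E z e)
    (hrel : Tz z (E * Λ) = 0) (hw : 0 < w) (hwz : w ≤ z) (hw' : 0 < w') (hwz' : w' ≤ z)
    (hzs : z ≤ s) (hew : e w = 1) (hcw : c w = 0) (hew' : e w' = 0) (hcw' : c w' = -1)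
    (hb : w + w' + b = z + s + 1) (hb0 : 0 < b) (hbz : b ≤ z) :
    c b = 1 + e b := by
  have h1 := pderiv_Tz hw hwz (E * Λ)
  rw [hrel, map_zero, cd_mul, hE.cd hw hwz, hΛ.cd hw (by omega), hew, hcw] at h1
  simp only [map_one, map_zero, zero_mul, mul_zero, add_zero, one_mul] at h1
  have h2 := congrArg (MvPolynomial.pderiv w') h1
  rw [map_zero, map_add, pderiv_Tz hw' hwz', ← cd_coeff, cd_mul, cd_mul, cd_X_pow,
    hE.cd hw' hwz', hΛ.cd hw' (by omega), hew', hcw'] at h2
  simp only [map_zero, zero_mul, zero_add] at h2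
  have h3 : X ^ (z - w) * (C (MvPolynomial.C (-1)) * X ^ (s - w'))
      = C (-1) * (X ^ ((z - w) + (s - w')) : R[X]) := by
    rw [show (MvPolynomial.C (-1 : ℂ) : R) = -1 by simp, pow_add]; ring
  have h4 : E * (C (MvPolynomial.C (-1)) * X ^ (s - w')) = C (-1) * (E * X ^ (s - w')) := by
    rw [show (MvPolynomial.C (-1 : ℂ) : R) = -1 by simp]; ring
  rw [h3, h4, Tz_C_mul, Tz_X_pow (by omega), coeff_C_mul, coeff_mul_X_pow', if_pos (by omega),
    coeff_X_pow_mul', if_pos (by omega), hΛ.1 (w' - 1 - (z - w)) b (by omega) hb0,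
    hE.1 (w - 1 - (s - w')) b (by omega) hb0] at h2
  have h5 : z - w + (s - w') + 1 = b := by omega
  rw [h5] at h2
  have h6 : MvPolynomial.C (-1 + c b - e b) * (gen b : R) = 0 := by
    rw [map_sub, map_add, map_neg, map_one, h2]; ring
  rcases mul_eq_zero.1 h6 with h7 | h7
  · rw [MvPolynomial.C_eq_zero] at h7
    linear_combination h7
  · exact absurd h7 (MvPolynomial.X_ne_zero b)

end Pool.MP_1af41f_co.CSF
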