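import Pool.Agent.Lib_helper17.CSF.Unique

set_option autoImplicit false

namespace Pool.MP_1af41f_co.CSF

open Polynomial
open scoped Classical

/-- If all branches of both trees have at most `z` vertices, the high coefficients agree. -/
lemma coeff_eq_of_XEq {f₁ f₂ : Fr} (h : XEq (Fr.G f₁) (Fr.G f₂)) {z : ℕ}
    (h1 : ∀ a ∈ f₁.toList, 1 + a.size ≤ z) (h2 : ∀ a ∈ f₂.toList, 1 + a.size ≤ z)
    {S : Type*} [CommRing S] [Algebra ℂ S] (y : ℕ → S) (i : ℕ) (hi : z ≤ i) :
    (Pi y f₁).coeff i = (Pi y f₂).coeff i := by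
  have key : ∀ f : Fr, (∀ a ∈ f.toList, 1 + a.size ≤ z) →
      phi (Function.update y (i + 1) 1) (Pi (Function.update y (i + 1) 1) f) =
      phi (Function.update y (i + 1) 0) (Pi (Function.update y (i + 1) 0) f) +
        (Pi y f).coeff i := by
    intro f hf
    have h3 : ∀ s : S, Pi (Function.update y (i + 1) s) f = Pi y f := fun s =>
      Pi_update_of_lt y (i + 1) s f (fun a ha => by have := hf a ha; omega)
    rw [h3, h3, phi_update y (i + 1) (by omega) 1, Nat.add_sub_cancel, mul_one]
  have e1 := key f₁ h1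
  have e2 := key f₂ h2
  rw [phi_Pi_eq h, phi_Pi_eq h (Function.update y (i + 1) 0), e2] at e1
  exact (add_left_cancel e1).symm

/-- Rooted form of the theorem. -/
theorem equ_of_XEq {f₁ f₂ : Fr} (h : XEq (Fr.G f₁) (Fr.G f₂)) {z : ℕ}
    (h1 : ∀ a ∈ f₁.toList, 1 + a.size ≤ z) (h2 : ∀ a ∈ f₂.toList, 1 + a.size ≤ z)
    (hex : ∃ a ∈ f₁.toList, 1 + a.size = z) (hs : 2 * z ≤ (f₁.small z).size) :
    Fr.Equ f₁ f₂ := by
  obtain ⟨a, ha, haz⟩ := hex
  have hz : 0 < z := by omega
  have hsize := size_eq h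
  obtain ⟨hP, hl⟩ := core (S := MvPolynomial ℕ ℂ) (m := z) hz
    (Pi_monic gen (f₁.small z)) (Pi_monic gen (f₂.small z))
    (l := (f₁.big z).map (Fhat (Function.update gen z 0)))
    (l' := (f₂.big z).map (Fhat (Function.update gen z 0)))
    (by
      intro g hg
      obtain ⟨b, hb, rfl⟩ := List.mem_map.1 hg
      exact ⟨Fhat_monic _ _, by rw [Fhat_natDegree]; exact (Fr.mem_big hb).1⟩)
    (by
      intro h'
      have := Fr.mem_big_of ha haz
      rw [List.map_eq_nil_iff.1 h'] at this
      simp at this)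
    (by
      rw [Pi_natDegree, Pi_natDegree, List.length_map, List.length_map,
        ← Fr.size_eq_big_small, ← Fr.size_eq_big_small, hsize])
    (by rw [Pi_natDegree]; exact hs)
    (by
      intro j i hi
      rw [← AA_eq_BB, ← AA_eq_BB]
      refine coeff_coeff_eq_zero _ i (fun s => ?_) j
      rw [eval_sub, AA_eval gen z f₁ h1, AA_eval gen z f₂ h2, coeff_sub,
        coeff_eq_of_XEq h h1 h2 _ i hi, sub_self])
  exact equ_of_parts_eq gen (fun a _ b _ hab => equ_of_Pi_eq _ a b rfl hab)
    (equ_of_Pi_eq _ _ _ rfl hP) hl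

/-- lower bound for a coefficient over `ℕ` -/
lemma coeff_ge (y : ℕ → ℕ) (f : Fr) (a : Fr) (ha : a ∈ f.toList) :
    y (1 + a.size) ≤ (Pi y f).coeff (f.size - (1 + a.size)) := by
  induction f with
  | nil => simp [Fr.toList] at ha
  | cons c b _ ih =>
    rw [Pi_cons, coeff_mul]
    simp only [Fr.toList, List.mem_cons] at ha
    have hmon : ∀ g : Fr, (Pi y g).coeff g.size = 1 := by
      intro g
      have h := Pi_monic y g
      rw [Monic, leadingCoeff, Pi_natDegree] at h
      exact h
    have hmon' : ∀ g : Fr, (Fhat y g).coeff (1 + g.size) = 1 := by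
      intro g
      have h := Fhat_monic y g
      rw [Monic, leadingCoeff, Fhat_natDegree] at h
      exact h
    rcases ha with rfl | ha
    · have h1 : ((0, b.size) : ℕ × ℕ) ∈ Finset.HasAntidiagonal.antidiagonal ((Fr.cons a b).size - (1 + a.size)) := by
        rw [Finset.HasAntidiagonal.mem_antidiagonal]; simp [Fr.size]
      refine le_trans ?_ (Finset.single_le_sum (f := fun x : ℕ × ℕ =>
        (Fhat y a).coeff x.1 * (Pi y b).coeff x.2) (fun _ _ => Nat.zero_le _) h1)
      simp only [hmon, mul_one]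
      have h2 : (Fhat y a).coeff 0 = phi y (Pi y a) := by
        simp [Fhat]
      rw [h2, phi_eq_sum_range y _ (1 + a.size) (by rw [Pi_natDegree]; omega)]
      refine le_trans ?_ (Finset.single_le_sum (f := fun i => (Pi y a).coeff i * y (i + 1))
        (fun _ _ => Nat.zero_le _) (Finset.mem_range.2 (by omega : a.size < 1 + a.size)))
      simp only [hmon, one_mul]
      rw [add_comm]
    · have hle := mem_toList_size ha
      have h1 : ((1 + c.size, b.size - (1 + a.size)) : ℕ × ℕ) ∈
          Finset.HasAntidiagonal.antidiagonal ((Fr.cons c b).size - (1 + a.size)) := by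
        rw [Finset.HasAntidiagonal.mem_antidiagonal]; simp only [Fr.size]; omega
      refine le_trans ?_ (Finset.single_le_sum (f := fun x : ℕ × ℕ =>
        (Fhat y c).coeff x.1 * (Pi y b).coeff x.2) (fun _ _ => Nat.zero_le _) h1)
      simp only [hmon', one_mul]
      exact ih ha

lemma phi_zero_fun {S : Type*} [CommSemiring S] (q : S[X]) : phi (fun _ => (0 : S)) q = 0 := by
  rw [phi_eq_sum_range _ _ _ (Nat.lt_succ_self _)]
  simp

lemma Pi_zero_fun {S : Type*} [CommSemiring S] (f : Fr) :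
    Pi (fun _ => (0 : S)) f = X ^ f.size := by
  induction f with
  | nil => simp [Pi_nil, Fr.size]
  | cons a b iha ihb =>
    rw [Pi_cons, ihb]
    unfold Fhat
    rw [phi_zero_fun, iha]
    simp only [map_zero, add_zero, Fr.size]
    ring

lemma phi_X_pow {S : Type*} [CommSemiring S] (y : ℕ → S) (n : ℕ) :
    phi y (X ^ n : S[X]) = y (n + 1) := by
  rw [phi_eq_sum_range y _ (n + 1) (lt_of_le_of_lt (natDegree_X_pow_le n) (Nat.lt_succ_self n))]
  rw [Finset.sum_eq_single n]
  · simp
  · intro b _ hb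
    rw [coeff_X_pow, if_neg hb, zero_mul]
  · intro h
    exact absurd (Finset.mem_range.2 (Nat.lt_succ_self n)) h

/-- equality of the `U`-polynomials at natural points -/
lemma phi_Pi_eq_nat {f₁ f₂ : Fr} (h : XEq (Fr.G f₁) (Fr.G f₂)) (y : ℕ → ℕ) :
    phi y (Pi y f₁) = phi y (Pi y f₂) := by
  have h1 := phi_Pi_eq h (fun i => ((Nat.castRingHom ℂ) (y i)))
  rw [← Pi_map, ← Pi_map, ← phi_map, ← phi_map] at h1
  exact Nat.cast_injective (R := ℂ) h1

/-- If all branches of `f₁` have at most `z` vertices and those of `f₂` have at most half of all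
vertices, then the branches of `f₂` have at most `z` vertices. -/
lemma branch_le {f₁ f₂ : Fr} (h : XEq (Fr.G f₁) (Fr.G f₂)) {z : ℕ}
    (h1 : ∀ a ∈ f₁.toList, 1 + a.size ≤ z)
    (h2 : ∀ a ∈ f₂.toList, 2 * (1 + a.size) ≤ f₂.size + 1) :
    ∀ a ∈ f₂.toList, 1 + a.size ≤ z := by
  intro b hb
  by_contra hlt
  rw [not_le] at hlt
  have hsize := size_eq h
  have hb2 := h2 b hb
  have hble := mem_toList_size hb
  set z' := 1 + b.size with hz'
  set n := f₂.size + 1 with hn
  let y : ℕ → ℕ := fun i => if i = z' ∨ i = n - z' then 1 else 0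
  have e := phi_Pi_eq_nat h y
  have e1 : Pi y f₁ = X ^ f₁.size := by
    rw [← Pi_zero_fun f₁]
    refine Pi_congr y (fun _ => 0) z (fun i hi => ?_) f₁ h1
    have : ¬ (i = z' ∨ i = n - z') := by omega
    simp only [y, if_neg this]
  have e2 : phi y (Pi y f₁) = 0 := by
    rw [e1, phi_X_pow]
    have : ¬ (f₁.size + 1 = z' ∨ f₁.size + 1 = n - z') := by omega
    simp only [y, if_neg this]
  have e3 : 1 ≤ phi y (Pi y f₂) := by
    rw [phi_eq_sum_range y _ (f₂.size + 1) (by rw [Pi_natDegree]; omega)]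
    have hmem : f₂.size - z' ∈ Finset.range (f₂.size + 1) := Finset.mem_range.2 (by omega)
    refine le_trans ?_ (Finset.single_le_sum (f := fun i => (Pi y f₂).coeff i * y (i + 1))
        (fun _ _ => Nat.zero_le _) hmem)
    have h3 := coeff_ge y f₂ b hb
    have h4 : y (1 + b.size) = 1 := by
      have : (1 + b.size = z' ∨ 1 + b.size = n - z') := Or.inl rfl
      simp only [y, if_pos this]
    have h5 : y (f₂.size - z' + 1) = 1 := by
      have : (f₂.size - z' + 1 = z' ∨ f₂.size - z' + 1 = n - z') := by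
        right; omega
      simp only [y, if_pos this]
    rw [h4] at h3
    simp only [h5, mul_one]
    exact h3
  rw [← e, e2] at e3
  omega

/-- re-rooting at a centroid -/
lemma exists_centroid_aux (m : ℕ) : ∀ f : Fr, (∀ a ∈ f.toList, 1 + a.size ≤ m) →
    ∃ f' : Fr, Nonempty (Fr.G f ≃g Fr.G f') ∧ ∀ a ∈ f'.toList, 2 * (1 + a.size) ≤ f'.size + 1 := by
  induction m with
  | zero =>
    intro f hf
    exact ⟨f, ⟨SimpleGraph.Iso.refl⟩, fun a ha => by have := hf a ha; omega⟩
  | succ m ih =>
    intro f hf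
    by_cases h : 2 * (m + 1) ≤ f.size + 1
    · exact ⟨f, ⟨SimpleGraph.Iso.refl⟩, fun a ha => by have := hf a ha; omega⟩
    · by_cases hex : ∃ a ∈ f.toList, 1 + a.size = m + 1
      · obtain ⟨a, ha, hm⟩ := hex
        have hperm : f.toList.Perm (a :: f.toList.erase a) := List.perm_cons_erase ha
        set b := Fr.ofList (f.toList.erase a) with hb
        have he : Fr.Equ f (Fr.cons a b) := by
          have := Fr.Equ.of_perm hperm
          rwa [Fr.ofList_toList] at this
        have hsz : f.size = 1 + a.size + b.size := by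
          obtain ⟨e, _⟩ := he
          have := Fintype.card_congr e.toEquiv
          rw [Fr.card_W, Fr.card_W] at this
          simp only [Fr.size] at this
          omega
        obtain ⟨e, _⟩ := he
        obtain ⟨e'⟩ := Fr.reroot a b
        obtain ⟨f', ⟨e''⟩, hf'⟩ := ih (Fr.cons b a) (by
          intro c hc
          simp only [Fr.toList, List.mem_cons] at hc
          rcases hc with rfl | hc
          · omega
          · have := mem_toList_size hc
            omega)
        exact ⟨f', ⟨(e.trans e').trans e''⟩, hf'⟩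
      · refine ih f (fun a ha => ?_)
        have h1 := hf a ha
        have h2 : 1 + a.size ≠ m + 1 := fun h' => hex ⟨a, ha, h'⟩
        omega

lemma exists_centroid (f : Fr) :
    ∃ f' : Fr, Nonempty (Fr.G f ≃g Fr.G f') ∧ ∀ a ∈ f'.toList, 2 * (1 + a.size) ≤ f'.size + 1 :=
  exists_centroid_aux f.size f (fun _ ha => mem_toList_size ha)

/-- The theorem for trees given by forests. -/
theorem fr_unique {f₁ f₂ : Fr} (h : XEq (Fr.G f₁) (Fr.G f₂)) {z : ℕ}
    (h1 : ∀ a ∈ f₁.toList, 1 + a.size ≤ z) (hex : ∃ a ∈ f₁.toList, 1 + a.size = z)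
    (hs : 2 * z ≤ (f₁.small z).size) : Nonempty (Fr.G f₁ ≃g Fr.G f₂) := by
  obtain ⟨f', ⟨e⟩, hf'⟩ := exists_centroid f₂
  have h' : XEq (Fr.G f₁) (Fr.G f') := h.of_iso SimpleGraph.Iso.refl e
  obtain ⟨e', _⟩ := equ_of_XEq h' h1 (branch_le h' h1 hf') hex hs
  exact ⟨e'.trans e.symm⟩

end Pool.MP_1af41f_co.CSF
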