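import Pool.Agent.Lib_helper17.CSF.Sym

set_option autoImplicit false

namespace Pool.MP_1af41f_co.CSF

open Polynomial
open scoped Classical

namespace Fr

/-- the trees of size `m` of the forest `f` -/
def big (m : ℕ) : Fr → List Fr
  | nil => []
  | cons a b => if 1 + a.size = m then a :: big m b else big m b

/-- the forest of the trees of size different from `m` of the forest `f` -/
def small (m : ℕ) : Fr → Fr
  | nil => nil
  | cons a b => if 1 + a.size = m then small m b else cons a (small m b)

lemma mem_big {m : ℕ} {a f : Fr} (h : a ∈ big m f) : 1 + a.size = m ∧ a ∈ f.toList := by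
  induction f with
  | nil => simp [big] at h
  | cons c b _ ih =>
    unfold big at h
    split_ifs at h with h1
    · rw [List.mem_cons] at h
      rcases h with rfl | h
      · exact ⟨h1, by simp [toList]⟩
      · have := ih h
        exact ⟨this.1, by simp [toList, this.2]⟩
    · have := ih h
      exact ⟨this.1, by simp [toList, this.2]⟩

lemma mem_big_of {m : ℕ} {a f : Fr} (h : a ∈ f.toList) (hm : 1 + a.size = m) : a ∈ big m f := by
  induction f with
  | nil => simp [toList] at h
  | cons c b _ ih =>
    unfold big
    simp only [toList, List.mem_cons] at h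
    rcases h with rfl | h
    · rw [if_pos hm]; simp
    · split_ifs with h1
      · exact List.mem_cons_of_mem _ (ih h)
      · exact ih h

lemma mem_small {m : ℕ} {a f : Fr} (h : a ∈ (small m f).toList) :
    a ∈ f.toList ∧ 1 + a.size ≠ m := by
  induction f with
  | nil => simp [small, toList] at h
  | cons c b _ ih =>
    unfold small at h
    split_ifs at h with h1
    · have := ih h
      exact ⟨by simp [toList, this.1], this.2⟩
    · simp only [toList, List.mem_cons] at h
      rcases h with rfl | h
      · exact ⟨by simp [toList], h1⟩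
      · have := ih h
        exact ⟨by simp [toList, this.1], this.2⟩

lemma size_eq_big_small (m : ℕ) (f : Fr) :
    f.size = (small m f).size + (big m f).length * m := by
  induction f with
  | nil => simp [small, big, size]
  | cons a b _ ih =>
    unfold small big
    split_ifs with h
    · simp only [size, List.length_cons]
      rw [ih]
      have : (List.length (big m b) + 1) * m = (big m b).length * m + m := by ring
      omega
    · simp only [size]
      rw [ih]
      omega

lemma big_cons (m : ℕ) (a b : Fr) :
    big m (cons a b) = if 1 + a.size = m then a :: big m b else big m b := rfl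

lemma small_cons (m : ℕ) (a b : Fr) :
    small m (cons a b) = if 1 + a.size = m then small m b else cons a (small m b) := rfl

lemma Equ.foldr_right (l : List Fr) {f g : Fr} (h : Equ f g) :
    Equ (l.foldr Fr.cons f) (l.foldr Fr.cons g) := by
  induction l with
  | nil => exact h
  | cons a l ih => exact Equ.cons (Equ.refl _) ih

lemma Equ.cons_foldr (a : Fr) (l : List Fr) (g : Fr) :
    Equ (Fr.cons a (l.foldr Fr.cons g)) (l.foldr Fr.cons (Fr.cons a g)) := by
  induction l with
  | nil => exact Equ.refl _
  | cons b l ih => exact (Equ.swap _ _ _).trans (Equ.cons (Equ.refl _) ih)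

lemma Equ.big_small (m : ℕ) (f : Fr) : Equ f ((big m f).foldr Fr.cons (small m f)) := by
  induction f with
  | nil => exact Equ.refl _
  | cons a b _ ih =>
    rw [small_cons, big_cons]
    split_ifs with h
    · exact Equ.cons (Equ.refl _) ih
    · exact (Equ.cons (Equ.refl _) ih).trans (Equ.cons_foldr _ _ _)

lemma Equ.foldr_perm {l l' : List Fr} (h : l.Perm l') (f : Fr) :
    Equ (l.foldr Fr.cons f) (l'.foldr Fr.cons f) := by
  induction h with
  | nil => exact Equ.refl _
  | cons x _ ih => exact Equ.cons (Equ.refl _) ih
  | swap x y l => exact Equ.swap _ _ _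
  | trans _ _ ih₁ ih₂ => exact ih₁.trans ih₂

lemma Equ.foldr_rel {s t : Multiset Fr} (h : Multiset.Rel Equ s t) {f f' : Fr} (hf : Equ f f') :
    ∀ l l' : List Fr, (l : Multiset Fr) = s → (l' : Multiset Fr) = t →
      Equ (l.foldr Fr.cons f) (l'.foldr Fr.cons f') := by
  induction h with
  | zero =>
    intro l l' h1 h2
    rw [Multiset.coe_eq_zero] at h1 h2
    subst h1 h2
    exact hf
  | @cons a b as bs hab _ ih =>
    intro l l' h1 h2
    obtain ⟨l₀, rfl⟩ := Quot.exists_rep as
    obtain ⟨l₀', rfl⟩ := Quot.exists_rep bs
    have h1' : l.Perm (a :: l₀) := Multiset.coe_eq_coe.1 h1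
    have h2' : l'.Perm (b :: l₀') := Multiset.coe_eq_coe.1 h2
    refine (Equ.foldr_perm h1' f).trans (Equ.trans ?_ (Equ.foldr_perm h2' f').symm)
    exact Equ.cons hab (ih l₀ l₀' rfl rfl)

/-- re-assembling an equivalence of forests -/
lemma Equ.of_parts (m : ℕ) {f f' : Fr} (hs : Equ (small m f) (small m f'))
    (hb : Multiset.Rel Equ (big m f : Multiset Fr) (big m f' : Multiset Fr)) : Equ f f' :=
  (Equ.big_small m f).trans ((Equ.foldr_rel hb hs _ _ rfl rfl).trans (Equ.big_small m f').symm)

end Fr

section parts
variable {S : Type*} [CommRing S]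

lemma Pi_big_small (y : ℕ → S) (m : ℕ) (f : Fr) :
    Pi y f = Pi y (f.small m) * ((f.big m).map (Fhat y)).prod := by
  induction f with
  | nil => simp [Pi_nil, Fr.small, Fr.big]
  | cons a b _ ih =>
    rw [Pi_cons, ih, Fr.small_cons, Fr.big_cons]
    split_ifs with h
    · simp only [List.map_cons, List.prod_cons]; ring
    · rw [Pi_cons]; ring

lemma phi_update (y : ℕ → S) (m : ℕ) (hm : 0 < m) (s : S) (q : S[X]) :
    phi (Function.update y m s) q = phi (Function.update y m 0) q + q.coeff (m - 1) * s := by
  have h1 : q.natDegree < max (q.natDegree + 1) m := lt_max_of_lt_left (Nat.lt_succ_self _)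
  rw [phi_eq_sum_range _ _ _ h1, phi_eq_sum_range _ _ _ h1]
  have h2 : ∀ i, q.coeff i * Function.update y m s (i + 1) =
      q.coeff i * Function.update y m 0 (i + 1) + (if i = m - 1 then q.coeff i * s else 0) := by
    intro i
    by_cases h : i = m - 1
    · have h3 : i + 1 = m := by omega
      rw [if_pos h, h3, Function.update_self, Function.update_self]; ring
    · have h3 : i + 1 ≠ m := by omega
      rw [if_neg h, Function.update_of_ne h3, Function.update_of_ne h3]; ring
  rw [Finset.sum_congr rfl (fun i _ => h2 i), Finset.sum_add_distrib, Finset.sum_ite_eq']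
  rw [if_pos (Finset.mem_range.2 (lt_max_of_lt_right (by omega)))]

lemma Pi_update_of_lt (y : ℕ → S) (m : ℕ) (s : S) (f : Fr)
    (hf : ∀ a ∈ f.toList, 1 + a.size < m) : Pi (Function.update y m s) f = Pi y f := by
  rcases Nat.eq_zero_or_pos m with h0 | hm
  · cases f with
    | nil => rfl
    | cons a b =>
      have := hf a (by simp [Fr.toList])
      omega
  · exact Pi_congr _ _ (m - 1) (fun i hi => Function.update_of_ne (by omega : i ≠ m) _ _) f
      (fun a ha => by have := hf a ha; omega)

lemma Pi_update_children (y : ℕ → S) (m : ℕ) (s : S) (a : Fr) (ha : 1 + a.size ≤ m) :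
    Pi (Function.update y m s) a = Pi y a :=
  Pi_update_of_lt y m s a (fun c hc => by have := mem_toList_size hc; omega)

lemma Fhat_update (y : ℕ → S) (m : ℕ) (s : S) (a : Fr) (ha : 1 + a.size = m) :
    Fhat (Function.update y m s) a = Fhat (Function.update y m 0) a + C s := by
  nontriviality S
  unfold Fhat
  rw [Pi_update_children y m s a ha.le, Pi_update_children y m 0 a ha.le,
    phi_update y m (by omega) s]
  have h1 : (Pi y a).coeff (m - 1) = 1 := by
    have h2 := Pi_monic y a
    have h3 := Pi_natDegree y a
    rw [Monic, leadingCoeff, h3] at h2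
    rw [show m - 1 = a.size by omega]
    exact h2
  rw [h1, one_mul, C_add]
  ring

/-- `Π f` as a polynomial in the variable `y_m` -/
noncomputable def AA (y : ℕ → S) (m : ℕ) (f : Fr) : S[X][X] :=
  C (Pi y (f.small m)) *
    ((f.big m).map (fun a => X + C (Fhat (Function.update y m 0) a))).prod

lemma AA_eval (y : ℕ → S) (m : ℕ) (f : Fr) (hf : ∀ a ∈ f.toList, 1 + a.size ≤ m) (s : S) :
    (AA y m f).eval (C s) = Pi (Function.update y m s) f := by
  rw [Pi_big_small (Function.update y m s) m f]
  unfold AA
  rw [eval_mul, eval_C]
  congr 1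
  · refine (Pi_update_of_lt y m s _ (fun a ha => ?_)).symm
    have h1 := Fr.mem_small ha
    exact lt_of_le_of_ne (hf a h1.1) h1.2
  · have : ∀ l : List Fr, (∀ a ∈ l, 1 + a.size = m) →
        eval (C s) (l.map (fun a => (X : S[X][X]) + C (Fhat (Function.update y m 0) a))).prod =
        (l.map (Fhat (Function.update y m s))).prod := by
      intro l
      induction l with
      | nil => intro _; simp
      | cons a l ih =>
        intro hl
        rw [List.map_cons, List.prod_cons, List.map_cons, List.prod_cons, eval_mul,
          ih (fun b hb => hl b (List.mem_cons_of_mem _ hb)),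
          Fhat_update y m s a (hl a List.mem_cons_self)]
        simp only [eval_add, eval_X, eval_C]
        ring
    exact this _ (fun a ha => (Fr.mem_big ha).1)

/-- coefficients of high degree of a two-variable polynomial vanish if they vanish after all
substitutions of constants for the outer variable -/
lemma coeff_coeff_eq_zero [IsDomain S] [Infinite S] (D : S[X][X]) (i : ℕ)
    (h : ∀ s : S, (D.eval (C s)).coeff i = 0) (j : ℕ) : (D.coeff j).coeff i = 0 := by
  set E : S[X] := ∑ j ∈ Finset.range (D.natDegree + 1), C ((D.coeff j).coeff i) * X ^ j with hE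
  have h1 : E = 0 := by
    refine Polynomial.funext (fun s => ?_)
    rw [hE, eval_finsetSum, eval_zero]
    rw [← h s, eval_eq_sum_range, finsetSum_coeff]
    refine Finset.sum_congr rfl (fun j _ => ?_)
    rw [eval_mul, eval_C, eval_pow, eval_X, ← C_pow, coeff_mul_C]
  by_cases hj : j < D.natDegree + 1
  · have h2 : E.coeff j = (D.coeff j).coeff i := by
      rw [hE, finsetSum_coeff]
      simp only [coeff_C_mul, coeff_X_pow]
      rw [Finset.sum_eq_single j]
      · simp
      · intro b _ hb
        rw [if_neg (Ne.symm hb), mul_zero]
      · intro h'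
        exact absurd (Finset.mem_range.2 hj) h'
    rw [← h2, h1, coeff_zero]
  · rw [coeff_eq_zero_of_natDegree_lt (by omega : D.natDegree < j), coeff_zero]

end parts

end Pool.MP_1af41f_co.CSF
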