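import Pool.Agent.Lib_helper17.CSF.Wt

set_option autoImplicit false

namespace Pool.MP_1af41f_co.CSF

open Polynomial
open scoped Classical

lemma Fhat_sub_eq {S : Type*} [CommRing S] (y : ℕ → S) (a a' : Fr) :
    Fhat y a - Fhat y a' = X * (Pi y a - Pi y a') + C (phi y (Pi y a - Pi y a')) := by
  unfold Fhat
  rw [phi_sub, C_sub]; ring

lemma cd_Pi_sub_eq_zero {a a' : Fr} {j : ℕ} (h : cd j (Fhat gen a - Fhat gen a') = 0) :
    cd j (Pi gen a - Pi gen a') = 0 := by
  ext1 i
  have h1 := congrArg (fun q => Polynomial.coeff q (i + 1)) h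
  simp only [cd_coeff, Fhat_sub_eq, coeff_add, coeff_X_mul, coeff_C_succ, add_zero,
    coeff_zero] at h1
  rw [cd_coeff, h1, coeff_zero]

lemma N_eq_of_cd {a a' : Fr} {n j : ℕ} (ha : a.size = n) (ha' : a'.size = n) (hj : 0 < j)
    (hjn : j ≤ n) (h : cd j (Pi gen a - Pi gen a') = 0) : a.N j = a'.N j := by
  have h1 := (DLP_Pi j hj a).2.1 (n - j) (by omega)
  have h2 := (DLP_Pi j hj a').2.1 (n - j) (by omega)
  rw [cd_sub, sub_eq_zero] at h
  rw [h, h2] at h1
  exact_mod_cast h1.symm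

lemma exists_max_branch (a : Fr) (h : a.toList ≠ []) :
    ∃ b ∈ a.toList, Fr.Le (1 + b.size) a := by
  have hne : a.toList.toFinset.Nonempty := by
    rw [Finset.nonempty_iff_ne_empty]
    intro h'
    exact h (List.toFinset_eq_empty_iff _ |>.1 h')
  obtain ⟨b, hb, hmax⟩ := Finset.exists_max_image _ Fr.size hne
  refine ⟨b, List.mem_toFinset.1 hb, fun c hc => ?_⟩
  have := hmax c (List.mem_toFinset.2 hc)
  omega

lemma exists_max_branch_of_N {a : Fr} {w : ℕ} (h : 0 < a.N w) :
    ∃ b ∈ a.toList, Fr.Le (1 + b.size) a ∧ w ≤ 1 + b.size := by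
  have h1 : a.toList ≠ [] := by
    intro h'
    have : a = Fr.nil := by rw [← Fr.ofList_toList a, h']; rfl
    rw [this, Fr.N_nil] at h
    omega
  obtain ⟨b, hb, hmax⟩ := exists_max_branch a h1
  refine ⟨b, hb, hmax, ?_⟩
  by_contra hcon
  rw [not_le] at hcon
  rw [Fr.N_eq_zero_of_Le hmax hcon] at h
  omega

/-- The peeling lemma. -/
theorem peel (n : ℕ) : ∀ (a a' : Fr) (θ w : ℕ), a.size = n → a'.size = n → n ≤ 2 * θ + 1 →
    θ < w → w ≤ 1 + n → (∀ j, θ < j → j < w → a.NT j = 0) → 0 < a.NT w →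
    (∀ j, θ < j → j ≤ 1 + n → cd j (Fhat gen a - Fhat gen a') = 0) →
    ∀ (d : ℕ) (ε : R[X][X]), Fhat yt a - Fhat yt a' = C X ^ d * ε →
      ∀ l, l ≤ 1 + n - w → (ε.map ev0).coeff l = 0 := by
  induction n using Nat.strong_induction_on with
  | _ n ih =>
  intro a a' θ w ha ha' hn hθw hw hN0 hNw hcd d ε hε
  have hcdπ : ∀ j, θ < j → j ≤ 1 + n → cd j (Pi gen a - Pi gen a') = 0 := fun j h1 h2 =>
    cd_Pi_sub_eq_zero (hcd j h1 h2)
  have hNeq : ∀ j, θ < j → a.N j = a'.N j := by
    intro j hj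
    rcases Nat.lt_or_ge n j with h | h
    · rw [Fr.N_eq_zero_of_lt (by omega), Fr.N_eq_zero_of_lt (by omega)]
    · exact N_eq_of_cd ha ha' (by omega) h (hcdπ j hj (by omega))
  -- the polynomials over `R[t]`
  have hπ : Pi yt a - Pi yt a' = C X ^ d * divX ε := by
    ext1 i
    have h1 := congrArg (fun q => Polynomial.coeff q (i + 1)) hε
    simp only [Fhat_sub_eq, coeff_add, coeff_X_mul, coeff_C_succ, add_zero,
      coeff_C_pow_mul] at h1
    rw [h1, coeff_C_pow_mul, coeff_divX]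
  have hε0 : (ε.map ev0).coeff 0 = 0 := by
    have h1 := congrArg (fun q => Polynomial.coeff q 0) hε
    simp only [Fhat_sub_eq, coeff_add, coeff_X_mul_zero, coeff_C_zero, zero_add,
      coeff_C_pow_mul] at h1
    rw [hπ, phi_C_pow_mul, phi_yt] at h1
    have h2 := mul_left_cancel₀ (pow_ne_zero d X_ne_zero) h1
    rw [coeff_map, ← h2, ev0_apply, coeff_X_mul_zero]
  rcases Nat.lt_or_ge w (1 + n) with hwn | hwn
  · -- there is a branch of size at least `w`
    have hNwa : 0 < a.N w := by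
      rw [Fr.NT, if_neg (by omega), zero_add] at hNw
      exact hNw
    obtain ⟨a2, ha2, hmax, hwm⟩ := exists_max_branch_of_N hNwa
    set m := 1 + a2.size with hm
    obtain ⟨b, hperm⟩ := Fr.exists_front ha2
    have hsz : a.size = 1 + a2.size + b.size := Fr.size_perm hperm
    have hbθ : Fr.Le θ b := (Fr.Le_size b).mono (by omega)
    have hNm : 0 < a.N m := Fr.N_pos_of_mem ha2
    have hLe' : Fr.Le m a' := by
      refine Fr.Le_of_N_eq_zero (Fr.Le_size a') (fun r hr _ => ?_)
      rw [← hNeq r (by omega)]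
      exact Fr.N_eq_zero_of_Le hmax hr
    obtain ⟨a2', ha2', hm'⟩ := Fr.exists_mem_of_N_pos hLe' (by rw [← hNeq m (by omega)]; exact hNm)
    obtain ⟨b', hperm'⟩ := Fr.exists_front ha2'
    have hsz' : a'.size = 1 + a2'.size + b'.size := Fr.size_perm hperm'
    have hbθ' : Fr.Le θ b' := (Fr.Le_size b').mono (by omega)
    have hPa : Pi gen a = Fhat gen a2 * Pi gen b := by rw [Pi_perm gen hperm, Pi_cons]
    have hPa' : Pi gen a' = Fhat gen a2' * Pi gen b' := by rw [Pi_perm gen hperm', Pi_cons]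
    have hcb : ∀ j, θ < j → cd j (Pi gen b) = 0 := fun j hj =>
      cd_Pi_eq_zero (by omega) (fun c hc => lt_of_le_of_lt (hbθ c hc) hj)
    have hcb' : ∀ j, θ < j → cd j (Pi gen b') = 0 := fun j hj =>
      cd_Pi_eq_zero (by omega) (fun c hc => lt_of_le_of_lt (hbθ' c hc) hj)
    have hbb : Pi gen b = Pi gen b' := by
      have h1 := hcdπ m (by omega) (by omega)
      have h2 := cd_Fhat_self a2
      have h3 := cd_Fhat_self a2'
      rw [← hm] at h2
      rw [hm'] at h3
      rw [hPa, hPa', cd_sub, cd_mul, cd_mul, hcb m (by omega), hcb' m (by omega), h2, h3] at h1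
      have h4 : Pi gen b - Pi gen b' = 0 := by
        rw [← h1]; ring
      exact sub_eq_zero.1 h4
    have hcd2 : ∀ j, θ < j → j ≤ 1 + a2.size → cd j (Fhat gen a2 - Fhat gen a2') = 0 := by
      intro j hj hj2
      have h1 := hcdπ j hj (by omega)
      have h2 : Pi gen a - Pi gen a' = (Fhat gen a2 - Fhat gen a2') * Pi gen b := by
        rw [hPa, hPa', ← hbb]; ring
      rw [h2, cd_mul, hcb j hj, mul_zero, add_zero] at h1
      rcases mul_eq_zero.1 h1 with h3 | h3
      · exact h3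
      · exact absurd h3 (Pi_monic gen b).ne_zero
    -- over `R[t]`
    have hbbt : Pi yt b = Pi yt b' := by rw [Pt_eq_map, Pt_eq_map, hbb]
    have hπt : Pi yt a - Pi yt a' = Pi yt b * (Fhat yt a2 - Fhat yt a2') := by
      rw [Pi_perm yt hperm, Pi_perm yt hperm', Pi_cons, Pi_cons, ← hbbt]; ring
    have hndvd : ¬ (C X : R[X][X]) ∣ Pi yt b := by
      rw [C_X_dvd_iff, Pt_ev0]
      exact pow_ne_zero _ X_ne_zero
    have hdvd : (C X : R[X][X]) ^ d ∣ Fhat yt a2 - Fhat yt a2' := by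
      refine prime_C_X.pow_dvd_of_dvd_mul_left d hndvd ?_
      rw [← hπt, hπ]
      exact dvd_mul_right _ _
    obtain ⟨ε2, hε2⟩ := hdvd
    have hdiv : divX ε = Pi yt b * ε2 := by
      have h1 : C X ^ d * divX ε = C X ^ d * (Pi yt b * ε2) := by
        rw [← hπ, hπt, hε2]; ring
      exact mul_left_cancel₀ (pow_ne_zero d (C_ne_zero.2 X_ne_zero)) h1
    have hIH := ih a2.size (by omega) a2 a2' θ w rfl (by omega) (by omega) hθw hwm
      (fun j h1 h2 => by
        have h3 := hN0 j h1 h2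
        rw [Fr.NT, if_neg (by omega), zero_add, Fr.N_perm hperm, Fr.N_cons] at h3
        omega)
      (by
        rw [Fr.N_perm hperm, Fr.N_cons, Fr.N_eq_zero_of_Le hbθ hθw, add_zero] at hNwa
        exact hNwa)
      hcd2 d ε2 hε2
    intro l hl
    cases l with
    | zero => exact hε0
    | succ l =>
      have h1 : (ε.map ev0).coeff (l + 1) = ((divX ε).map ev0).coeff l := by
        rw [coeff_map, coeff_map, coeff_divX]
      rw [h1, hdiv, Polynomial.map_mul, Pt_ev0, coeff_X_pow_mul']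
      split_ifs with h
      · exact hIH _ (by omega)
      · rfl
  · intro l hl
    have : l = 0 := by omega
    rw [this]; exact hε0

end Pool.MP_1af41f_co.CSF
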