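import Pool.Agent.Lib_helper17.CSF.Forest

set_option autoImplicit false

namespace Pool.MP_1af41f_co.CSF

open Polynomial

section basic
variable {S : Type*} [CommSemiring S]

/-- `phi y q = Σ_i q_i y_{i+1}` -/
noncomputable def phi (y : ℕ → S) (q : S[X]) : S := q.sum (fun i a => a * y (i + 1))

lemma phi_eq_sum_range (y : ℕ → S) (q : S[X]) (n : ℕ) (hn : q.natDegree < n) :
    phi y q = ∑ i ∈ Finset.range n, q.coeff i * y (i + 1) := by
  unfold phi
  exact q.sum_over_range' (fun _ => by simp) n hn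

lemma phi_add (y : ℕ → S) (p q : S[X]) : phi y (p + q) = phi y p + phi y q := by
  unfold phi
  exact sum_add_index p q _ (fun _ => by simp) (fun _ _ _ => by ring)

lemma phi_C_mul (y : ℕ → S) (a : S) (q : S[X]) : phi y (C a * q) = a * phi y q := by
  have h1 : (C a * q).natDegree < q.natDegree + 1 :=
    lt_of_le_of_lt (natDegree_C_mul_le a q) (Nat.lt_succ_self _)
  rw [phi_eq_sum_range y _ _ h1, phi_eq_sum_range y q _ (Nat.lt_succ_self _), Finset.mul_sum]
  refine Finset.sum_congr rfl (fun i _ => ?_)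
  rw [coeff_C_mul]; ring

lemma phi_map {S' : Type*} [CommSemiring S'] (g : S →+* S') (y : ℕ → S) (q : S[X]) :
    g (phi y q) = phi (fun i => g (y i)) (q.map g) := by
  have h1 : (q.map g).natDegree < q.natDegree + 1 :=
    lt_of_le_of_lt (natDegree_map_le) (Nat.lt_succ_self _)
  rw [phi_eq_sum_range _ _ _ h1, phi_eq_sum_range y q _ (Nat.lt_succ_self _), map_sum]
  refine Finset.sum_congr rfl (fun i _ => ?_)
  rw [coeff_map, map_mul]

lemma phi_congr (y y' : ℕ → S) (q : S[X]) (m : ℕ) (hm : q.natDegree < m)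
    (h : ∀ i ≤ m, y i = y' i) : phi y q = phi y' q := by
  rw [phi_eq_sum_range y _ _ hm, phi_eq_sum_range y' _ _ hm]
  refine Finset.sum_congr rfl (fun i hi => ?_)
  rw [h (i + 1) (by have := Finset.mem_range.1 hi; omega)]

/-- The generating polynomial of the forest `f`: product over the trees of the forest of
`X * Pi (children) + phi (...)`. -/
noncomputable def Pi (y : ℕ → S) : Fr → S[X]
  | .nil => 1
  | .cons a b => (X * Pi y a + C (phi y (Pi y a))) * Pi y b

/-- the factor of a single tree with children forest `a` -/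
noncomputable def Fhat (y : ℕ → S) (a : Fr) : S[X] := X * Pi y a + C (phi y (Pi y a))

lemma Pi_nil (y : ℕ → S) : Pi y .nil = 1 := rfl

lemma Pi_cons (y : ℕ → S) (a b : Fr) : Pi y (.cons a b) = Fhat y a * Pi y b := rfl

lemma Pi_ofList (y : ℕ → S) (l : List Fr) : Pi y (Fr.ofList l) = (l.map (Fhat y)).prod := by
  induction l with
  | nil => rfl
  | cons a l ih => simp [Fr.ofList, Pi_cons, ih]

lemma Pi_eq_prod (y : ℕ → S) (f : Fr) : Pi y f = (f.toList.map (Fhat y)).prod := by
  rw [← Pi_ofList, Fr.ofList_toList]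

lemma Fhat_map {S' : Type*} [CommSemiring S'] (g : S →+* S') (y : ℕ → S) (a : Fr)
    (h : (Pi y a).map g = Pi (fun i => g (y i)) a) :
    (Fhat y a).map g = Fhat (fun i => g (y i)) a := by
  unfold Fhat
  rw [Polynomial.map_add, Polynomial.map_mul, map_X, map_C, phi_map, h]

lemma Pi_map {S' : Type*} [CommSemiring S'] (g : S →+* S') (y : ℕ → S) (f : Fr) :
    (Pi y f).map g = Pi (fun i => g (y i)) f := by
  induction f with
  | nil => simp [Pi_nil]
  | cons a b iha ihb =>
    rw [Pi_cons, Pi_cons, Polynomial.map_mul, ihb, Fhat_map g y a iha]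

lemma Fhat_map' {S' : Type*} [CommSemiring S'] (g : S →+* S') (y : ℕ → S) (a : Fr) :
    (Fhat y a).map g = Fhat (fun i => g (y i)) a := Fhat_map g y a (Pi_map g y a)

section deg
variable [Nontrivial S]

lemma Fhat_monic_aux (y : ℕ → S) (a : Fr) (h : (Pi y a).Monic ∧ (Pi y a).natDegree = a.size) :
    (Fhat y a).Monic ∧ (Fhat y a).natDegree = 1 + a.size := by
  have h1 : (X * Pi y a).Monic := monic_X.mul h.1
  have h2 : (X * Pi y a).natDegree = 1 + a.size := by
    rw [Monic.natDegree_mul monic_X h.1, natDegree_X, h.2]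
  have h3 : (C (phi y (Pi y a))).degree < (X * Pi y a).degree := by
    rw [degree_eq_natDegree h1.ne_zero, h2]
    refine lt_of_le_of_lt degree_C_le ?_
    exact_mod_cast (by omega : 0 < 1 + a.size)
  refine ⟨h1.add_of_left h3, ?_⟩
  unfold Fhat
  rw [natDegree_add_eq_left_of_degree_lt h3, h2]

lemma Pi_monic_natDegree (y : ℕ → S) (f : Fr) :
    (Pi y f).Monic ∧ (Pi y f).natDegree = f.size := by
  induction f with
  | nil => simp [Pi_nil, Fr.size]
  | cons a b iha ihb =>
    have h := Fhat_monic_aux y a iha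
    rw [Pi_cons]
    refine ⟨h.1.mul ihb.1, ?_⟩
    rw [Monic.natDegree_mul h.1 ihb.1, h.2, ihb.2]
    simp [Fr.size]

lemma Pi_monic (y : ℕ → S) (f : Fr) : (Pi y f).Monic := (Pi_monic_natDegree y f).1
lemma Pi_natDegree (y : ℕ → S) (f : Fr) : (Pi y f).natDegree = f.size := (Pi_monic_natDegree y f).2
lemma Fhat_monic (y : ℕ → S) (a : Fr) : (Fhat y a).Monic :=
  (Fhat_monic_aux y a (Pi_monic_natDegree y a)).1
lemma Fhat_natDegree (y : ℕ → S) (a : Fr) : (Fhat y a).natDegree = 1 + a.size :=
  (Fhat_monic_aux y a (Pi_monic_natDegree y a)).2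

end deg

lemma mem_toList_size {a f : Fr} (h : a ∈ f.toList) : 1 + a.size ≤ f.size := by
  induction f with
  | nil => simp [Fr.toList] at h
  | cons c b _ ih =>
    simp only [Fr.toList, List.mem_cons] at h
    rcases h with rfl | h
    · simp [Fr.size]
    · have := ih h
      simp [Fr.size]; omega

/-- `Pi y f` only depends on the `y i` with `i` at most the maximal size of a tree in `f`. -/
lemma Pi_congr (y y' : ℕ → S) (m : ℕ) (h : ∀ i ≤ m, y i = y' i) (f : Fr)
    (hf : ∀ a ∈ f.toList, 1 + a.size ≤ m) : Pi y f = Pi y' f := by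
  nontriviality S
  induction f with
  | nil => rfl
  | cons a b iha ihb =>
    have ha : 1 + a.size ≤ m := hf a (by simp [Fr.toList])
    have h1 : Pi y a = Pi y' a := iha (fun c hc => by
      have := mem_toList_size hc; omega)
    have h2 : Pi y b = Pi y' b := ihb (fun c hc => hf c (by simp [Fr.toList, hc]))
    rw [Pi_cons, Pi_cons, h2]
    unfold Fhat
    rw [← h1, phi_congr y y' (Pi y a) m (by rw [Pi_natDegree]; omega) h]

lemma Fhat_congr (y y' : ℕ → S) (a : Fr) (h : ∀ i ≤ 1 + a.size, y i = y' i) :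
    Fhat y a = Fhat y' a := by
  nontriviality S
  have h1 : Pi y a = Pi y' a := Pi_congr y y' _ h a (fun c hc => by
      have := mem_toList_size hc; omega)
  unfold Fhat
  rw [← h1, phi_congr y y' (Pi y a) _ (by rw [Pi_natDegree]; omega) h]

end basic

end Pool.MP_1af41f_co.CSF
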