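import Pool.Agent.Lib_helper17.CSF.Fringe

/-!
Random labelled trees: the weight `wt` on ordered forests (the law of the Galton-Watson tree with
Poisson(1) offspring), the finite sets `all n` of ordered forests with `n` vertices.
-/

set_option autoImplicit false

namespace Pool.MP_1af41f_co.CSF

open Finset
open scoped Classical

namespace Fr

/-- number of branches -/
def len (f : Fr) : ℕ := f.toList.length

@[simp] lemma len_nil : len nil = 0 := rfl
@[simp] lemma len_cons (a b : Fr) : len (cons a b) = len b + 1 := rfl

/-- probability that a Poisson(1) Galton-Watson tree is the tree with forest of branches `f`: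
the product over all vertices (root included) of `exp (-1) / (number of children)!`. -/
noncomputable def wt : Fr → ℝ
  | nil => Real.exp (-1)
  | cons a b => wt a * wt b / (len b + 1)

lemma wt_nil : wt nil = Real.exp (-1) := rfl
lemma wt_cons (a b : Fr) : wt (cons a b) = wt a * wt b / (len b + 1) := rfl

lemma wt_pos (f : Fr) : 0 < wt f := by
  induction f with
  | nil => exact Real.exp_pos _
  | cons a b iha ihb => rw [wt_cons]; positivity

lemma size_nil : size nil = 0 := rfl
lemma size_cons (a b : Fr) : size (cons a b) = 1 + a.size + b.size := rfl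

lemma finite_size (n : ℕ) : {f : Fr | f.size = n}.Finite := by
  induction n using Nat.strong_induction_on with
  | _ n ih =>
    rcases Nat.eq_zero_or_pos n with rfl | hn
    · refine (Set.finite_singleton nil).subset ?_
      rintro f hf
      cases f with
      | nil => rfl
      | cons a b => simp only [Set.mem_setOf_eq, size_cons] at hf; omega
    · have hfin : (⋃ i ∈ (Set.Iio n), ⋃ j ∈ (Set.Iio n),
          (fun p : Fr × Fr => cons p.1 p.2) '' ({f : Fr | f.size = i} ×ˢ {f : Fr | f.size = j})).Finite := by
        refine (Set.finite_Iio n).biUnion fun i hi => (Set.finite_Iio n).biUnion fun j hj => ?_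
        exact ((ih i hi).prod (ih j hj)).image _
      refine hfin.subset ?_
      rintro f hf
      cases f with
      | nil => simp only [Set.mem_setOf_eq, size_nil] at hf; omega
      | cons a b =>
        simp only [Set.mem_setOf_eq, size_cons] at hf
        simp only [Set.mem_iUnion, Set.mem_Iio]
        exact ⟨a.size, by omega, b.size, by omega, (a, b), ⟨rfl, rfl⟩, rfl⟩

/-- all ordered forests with `n` vertices -/
noncomputable def all (n : ℕ) : Finset Fr := (finite_size n).toFinset

@[simp] lemma mem_all {n : ℕ} {f : Fr} : f ∈ all n ↔ f.size = n := by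
  simp [all]

lemma sum_all_zero (F : Fr → ℝ) : ∑ f ∈ all 0, F f = F nil := by
  have : all 0 = {nil} := by
    ext f
    rw [mem_all, Finset.mem_singleton]
    cases f with
    | nil => simp [size_nil]
    | cons a b =>
      simp only [size_cons, reduceCtorEq, iff_false]; omega
  rw [this, Finset.sum_singleton]

lemma sum_all_succ (n : ℕ) (F : Fr → ℝ) :
    ∑ f ∈ all (n + 1), F f
      = ∑ p ∈ Finset.HasAntidiagonal.antidiagonal n, ∑ a ∈ all p.1, ∑ b ∈ all p.2, F (cons a b) := by
  have h : ∀ p ∈ Finset.HasAntidiagonal.antidiagonal n, ∑ a ∈ all p.1, ∑ b ∈ all p.2, F (cons a b)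
      = ∑ x ∈ all p.1 ×ˢ all p.2, F (cons x.1 x.2) := by
    intro p _
    rw [Finset.sum_product]
  rw [Finset.sum_congr rfl h, Finset.sum_sigma']
  refine Finset.sum_nbij' (i := fun f => match f with
      | nil => ⟨(0, 0), (nil, nil)⟩
      | cons a b => ⟨(a.size, b.size), (a, b)⟩) (j := fun x => cons x.2.1 x.2.2) ?_ ?_ ?_ ?_ ?_
  · intro f hf
    rw [mem_all] at hf
    cases f with
    | nil => simp only [size_nil] at hf; omega
    | cons a b =>
      simp only [size_cons] at hf
      simp only [Finset.mem_sigma, Finset.HasAntidiagonal.mem_antidiagonal, Finset.mem_product, mem_all]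
      refine ⟨by omega, ?_, ?_⟩ <;> trivial
  · rintro ⟨⟨i, j⟩, ⟨a, b⟩⟩ hx
    simp only [Finset.mem_sigma, Finset.HasAntidiagonal.mem_antidiagonal, Finset.mem_product, mem_all] at hx
    rw [mem_all]
    obtain ⟨h1, h2, h3⟩ := hx
    show size (cons a b) = n + 1
    rw [size_cons, h2, h3]
    omega
  · intro f hf
    rw [mem_all] at hf
    cases f with
    | nil => simp only [size_nil] at hf; omega
    | cons a b => rfl
  · rintro ⟨⟨i, j⟩, ⟨a, b⟩⟩ hx
    simp only [Finset.mem_sigma, Finset.HasAntidiagonal.mem_antidiagonal, Finset.mem_product, mem_all] at hx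
    obtain ⟨h1, h2, h3⟩ := hx
    subst h2 h3
    rfl
  · intro f hf
    rw [mem_all] at hf
    cases f with
    | nil => simp only [size_nil] at hf; omega
    | cons a b => rfl

/-- `q k`: total weight of trees with `k` vertices -/
noncomputable def q (k : ℕ) : ℝ := if k = 0 then 0 else ∑ f ∈ all (k - 1), wt f

/-- `u k = k * q k` for `k ≥ 1`, and `u 0 = 1` (weight of paths of contexts) -/
noncomputable def u (k : ℕ) : ℝ := if k = 0 then 1 else k * q k

/-- total weight of forests with `n` vertices all of whose branches have size at most `m` -/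
noncomputable def ew (n m : ℕ) : ℝ := ∑ f ∈ (all n).filter (Le m), wt f

/-- all ways to distinguish a branch: pairs (branch, forest of the other branches) -/
def marks : Fr → List (Fr × Fr)
  | nil => []
  | cons a b => (a, b) :: (marks b).map (fun p => (p.1, cons a p.2))

/-- sum of `G` over all fringe subtrees of size `w` of a forest (a fringe subtree is given by its
children forest) -/
noncomputable def SF (w : ℕ) (G : Fr → ℝ) : Fr → ℝ
  | nil => 0
  | cons a b => ((if 1 + a.size = w then G a else 0) + SF w G a) + SF w G b

/-- the same for the tree with children forest `a` (the whole tree included) -/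
noncomputable def ST (w : ℕ) (G : Fr → ℝ) (a : Fr) : ℝ :=
  (if 1 + a.size = w then G a else 0) + SF w G a

lemma SF_nil (w : ℕ) (G : Fr → ℝ) : SF w G nil = 0 := rfl
lemma SF_cons (w : ℕ) (G : Fr → ℝ) (a b : Fr) : SF w G (cons a b) = ST w G a + SF w G b := rfl

end Fr

end Pool.MP_1af41f_co.CSF
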