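import Pool.Agent.Lib_helper17.CSF.Below

set_option autoImplicit false

namespace Pool.MP_1af41f_co.CSF.RigidSpine

open Pool.MP_1af41f_co.CSF

/-- For a tree `T` rooted at `c`: the vertices below `v`, that is the vertices `w` such that every
walk from `c` to `w` passes through `v` (`v` itself included). -/
def below {V : Type} (T : SimpleGraph V) (c v : V) : Set V := {w | ∀ p : T.Walk c w, v ∈ p.support}

/-- Let `T` be a tree with `n` vertices rooted at `c`, write `S v` for the number of vertices below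
`v`. Let `u` be a child of `c` with `θ < S u`, `2 * S u < n`, `n ≤ 2 * θ + S u + 1`, all other
children `v` of `c` having `S v ≤ θ`. Let `W` be a finite set of numbers `w > θ` of the form `S v`,
`v ≠ c`, and suppose that every `x` has at most `t` representations `x = w + S v` with `w ∈ W` and
`v ≠ c` not below `u`, `S v ≥ n - 2 * S u`; that `K * (t + 1) ≤ #W` and `2 * t < #W`; and that for
some `v ≠ c` with `θ < S v` we have `S v ≤ K * (n + 1 - S u - S v)`. Then every tree with the same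
chromatic symmetric function as `T` is isomorphic to `T`. -/
theorem result {V : Type} [Finite V] (T : SimpleGraph V) (hT : T.IsTree) (c u : V)
    (hcu : T.Adj c u) (θ K t : ℕ) (W : Finset ℕ)
    (hz : 2 * Nat.card (below T c u) < Nat.card V)
    (hθ : θ < Nat.card (below T c u))
    (hθ' : Nat.card V ≤ 2 * θ + Nat.card (below T c u) + 1)
    (hmax : ∀ v, T.Adj c v → v ≠ u → Nat.card (below T c v) ≤ θ)
    (hW : ∀ w ∈ W, θ < w ∧ ∃ v, v ≠ c ∧ Nat.card (below T c v) = w)
    (hov : ∀ x : ℕ, Nat.card {w : ℕ // w ∈ W ∧ w + Nat.card V ≤ x + 2 * Nat.card (below T c u) ∧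
      ∃ v, v ≠ c ∧ v ∉ below T c u ∧ w + Nat.card (below T c v) = x} ≤ t)
    (hWK : K * (t + 1) ≤ W.card) (hWt : 2 * t < W.card)
    (hm : ∃ v, v ≠ c ∧ θ < Nat.card (below T c v) ∧
      Nat.card (below T c v) ≤
        K * (Nat.card V + 1 - Nat.card (below T c u) - Nat.card (below T c v)))
    (V' : Type) [Finite V'] (T' : SimpleGraph V') (hT' : T'.IsTree)
    (hX : ∀ α : ℕ →₀ ℕ,
        Nat.card {κ : V → ℕ // (∀ x y, T.Adj x y → κ x ≠ κ y) ∧
            ∀ i : ℕ, Nat.card {v : V // κ v = i} = α i} =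
        Nat.card {κ : V' → ℕ // (∀ x y, T'.Adj x y → κ x ≠ κ y) ∧
            ∀ i : ℕ, Nat.card {v : V' // κ v = i} = α i}) :
    Nonempty (T ≃g T') := by
  classical
  haveI : Fintype V := Fintype.ofFinite V
  haveI : Fintype V' := Fintype.ofFinite V'
  have hbelow : ∀ v, below T c v = blw T c v := fun v => rfl
  obtain ⟨f₀, e₀, he₀⟩ := exists_rep (Nat.card V) V T hT c rfl
  have hadj₀ : (Fr.G f₀).Adj (Fr.ρ f₀) (e₀ u) := by
    rw [← he₀]
    exact (e₀.map_adj_iff).2 hcu
  obtain ⟨a, g, e₁, he₁, hx₁⟩ := Fr.exists_front_adj f₀ (e₀ u) hadj₀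
  obtain ⟨e, hec, heu⟩ : ∃ e : T ≃g Fr.G (Fr.cons a g), e c = Fr.ρ (Fr.cons a g) ∧
      e u = Sum.inl (Fr.ρ a) := by
    refine ⟨e₀.trans e₁, ?_, ?_⟩
    · show e₁ (e₀ c) = _
      rw [he₀, he₁]
    · show e₁ (e₀ u) = _
      rw [hx₁]
  obtain ⟨d⟩ : Nonempty V' := hT'.connected.nonempty
  obtain ⟨f', e', _⟩ := exists_rep (Nat.card V') V' T' hT' d rfl
  have hX' : XEq (Fr.G (Fr.cons a g)) (Fr.G f') := XEq.of_iso e e' hX
  -- sizes
  have hS : ∀ v, Nat.card (below T c v) = Fr.Sz (Fr.cons a g) (e v) := by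
    intro v
    rw [hbelow, ← card_blw_iso e c v, hec]
    rfl
  have hSu : Nat.card (below T c u) = 1 + a.size := by
    rw [hS, heu, Fr.Sz_inl, Fr.Sz_root]
  have hV : Nat.card V = 1 + (1 + a.size + g.size) := by
    rw [Nat.card_congr e.toEquiv, Nat.card_eq_fintype_card, Fr.card_W]
    rfl
  -- vertices of the second side
  have hside : ∀ x : Fr.W g, x ≠ Fr.ρ g → ∃ v, v ≠ c ∧ v ∉ below T c u ∧
      e v = Sum.inr x ∧ Nat.card (below T c v) = Fr.Sz g x := by
    intro x hx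
    obtain ⟨v, hv⟩ : ∃ v, e v = (Sum.inr x : Fr.W (Fr.cons a g)) := e.surjective _
    refine ⟨v, ?_, ?_, hv, ?_⟩
    · intro h
      apply hx
      have : (Sum.inr x : Fr.W (Fr.cons a g)) = Fr.ρ (Fr.cons a g) := by rw [← hv, h, hec]
      exact Sum.inr_injective this
    · rw [hbelow, ← mem_blw_iso e c u v, hec, heu, hv]
      have h1 := blw_inl (G₁ := Fr.G a) (r₁ := Fr.ρ a) (G₂ := Fr.G g) (r₂ := Fr.ρ g) (Fr.ρ a)
        (fun y => (Fr.reach_root g y).symm)
      have h2 : blw (Fr.G (Fr.cons a g)) (Fr.ρ (Fr.cons a g)) (Sum.inl (Fr.ρ a)) =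
          Sum.inl '' blw (Fr.G a) (Fr.ρ a) (Fr.ρ a) := h1
      rw [h2]
      rintro ⟨w, _, hw⟩
      exact Sum.inl_ne_inr hw
    · rw [hS, hv, Fr.Sz_inr a g x hx]
  have hg : g.size = g.size := rfl
  have hgθ : ∀ b ∈ g.toList, 1 + b.size ≤ θ := by
    intro b hb
    obtain ⟨x, hx, hxb⟩ := Fr.exists_adj_of_mem g hb
    obtain ⟨v, hvc, _, hv, hvS⟩ := hside x hx.ne'
    rw [← hxb, ← hvS]
    refine hmax v ?_ ?_
    · rw [← e.map_adj_iff, hec, hv]
      exact hx
    · rintro rfl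
      rw [heu] at hv
      exact Sum.inl_ne_inr hv
  have hleft : ∀ v, v ≠ c → θ < Nat.card (below T c v) →
      1 ≤ a.NT (Nat.card (below T c v)) := by
    intro v hvc hv
    rw [Fr.exists_Sz_T]
    rcases hev : e v with x | x
    · refine ⟨x, ?_⟩
      have h1 := hS v
      rw [h1]
      have h2 : e v = (Sum.inl x : Fr.W (Fr.cons a g)) := hev
      rw [h2, Fr.Sz_inl]
    · exfalso
      have h2 : e v = (Sum.inr x : Fr.W (Fr.cons a g)) := hev
      have hx : x ≠ Fr.ρ g := by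
        intro h
        apply hvc
        apply e.injective
        rw [h2, h, hec]
        rfl
      have h3 : Nat.card (below T c v) = Fr.Sz g x := by
        rw [hS, h2, Fr.Sz_inr a g x hx]
      have h4 : 1 ≤ g.N (Nat.card (below T c v)) := (Fr.exists_Sz g _).2 ⟨x, hx, h3.symm⟩
      rw [Fr.N_eq_zero_of_Le hgθ hv] at h4
      omega
  have hW' : ∀ w ∈ W, θ < w ∧ 1 ≤ a.NT w := by
    intro w hw
    obtain ⟨h1, v, hvc, hv⟩ := hW w hw
    refine ⟨h1, ?_⟩
    rw [← hv]
    exact hleft v hvc (by rw [hv]; exact h1)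
  obtain ⟨v₀, hv₀c, hv₀θ, hv₀K⟩ := hm
  rw [hSu] at hz hθ hθ' hv₀K
  rw [hV] at hz hθ' hv₀K
  have key : Nonempty (Fr.G (Fr.cons a g) ≃g Fr.G f') := by
    refine theoremH' (z := 1 + a.size) (s := g.size) (θ := θ) (K := K) (t := t)
      (m := Nat.card (below T c v₀)) rfl rfl (by omega) hθ (by omega) hgθ W hW' ?_ hWK (by omega)
      hv₀θ (hleft v₀ hv₀c hv₀θ) ?_ f' hX'
    · intro x
      refine le_trans ?_ (hov x)
      rw [← Fintype.card_coe, ← Nat.card_eq_fintype_card]
      haveI : Finite {w : ℕ // w ∈ W ∧ w + Nat.card V ≤ x + 2 * Nat.card (below T c u) ∧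
          ∃ v, v ≠ c ∧ v ∉ below T c u ∧ w + Nat.card (below T c v) = x} :=
        Finite.of_injective (fun w => (⟨w.1, w.2.1⟩ : {w : ℕ // w ∈ W})) (by
          intro w₁ w₂ h
          have := congrArg Subtype.val h
          exact Subtype.ext this)
      refine Nat.card_le_card_of_injective
        (fun w => (⟨w.1, ?_⟩ : {w : ℕ // w ∈ W ∧ w + Nat.card V ≤ x + 2 * Nat.card (below T c u) ∧
          ∃ v, v ≠ c ∧ v ∉ below T c u ∧ w + Nat.card (below T c v) = x})) ?_
      · obtain ⟨w, hw⟩ := w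
        rw [Finset.mem_filter] at hw
        obtain ⟨hwW, hwx, hwN⟩ := hw
        obtain ⟨y, hy, hyS⟩ := (Fr.exists_Sz g _).1 hwN
        obtain ⟨v, hvc, hvu, hv, hvS⟩ := hside y hy
        refine ⟨hwW, ?_, v, hvc, hvu, ?_⟩
        · rw [hSu, hV]
          show w + _ ≤ _
          omega
        · rw [hvS, hyS]
          show w + _ = x
          omega
      · intro w₁ w₂ h
        have := congrArg Subtype.val h
        exact Subtype.ext this
    · refine hv₀K.trans (Nat.mul_le_mul_left _ ?_)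
      omega
  obtain ⟨E⟩ := key
  exact ⟨(e.trans E).trans e'.symm⟩

end Pool.MP_1af41f_co.CSF.RigidSpine
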