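import Pool.Agent.Lib_helper17.CSF.Color

set_option autoImplicit false

namespace Pool.MP_1af41f_co.CSF

open Polynomial
open scoped Classical

/-! ### Power sums over `ℂ` can be prescribed -/

lemma exists_root_block (m : ℕ) (hm : 0 < m) (w : ℂ) :
    ∃ x : Fin m → ℂ, (∀ k, 0 < k → k < m → ∑ j, x j ^ k = 0) ∧ ∑ j, x j ^ m = w := by
  obtain ⟨a, ha⟩ := IsAlgClosed.exists_pow_nat_eq (w / m) hm
  have hζ := Complex.isPrimitiveRoot_exp m (by omega)
  set ζ := Complex.exp (2 * Real.pi * Complex.I / m) with hζdef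
  refine ⟨fun j => a * ζ ^ (j : ℕ), ?_, ?_⟩
  · intro k hk hkm
    have h1 : ∀ j : Fin m, (a * ζ ^ (j : ℕ)) ^ k = a ^ k * (ζ ^ k) ^ (j : ℕ) := by
      intro j
      rw [mul_pow, ← pow_mul, ← pow_mul, mul_comm k]
    rw [Finset.sum_congr rfl (fun j _ => h1 j), ← Finset.mul_sum]
    rw [Fin.sum_univ_eq_sum_range (fun j => (ζ ^ k) ^ j) m]
    have h2 : ζ ^ k ≠ 1 := hζ.pow_ne_one_of_pos_of_lt (by omega) hkm
    have h3 := geom_sum_mul (ζ ^ k) m
    have h4 : (ζ ^ k) ^ m = 1 := by
      rw [← pow_mul, mul_comm, pow_mul, hζ.pow_eq_one, one_pow]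
    rw [h4, sub_self] at h3
    rcases mul_eq_zero.1 h3 with h | h
    · rw [h, mul_zero]
    · exact absurd (sub_eq_zero.1 h) h2
  · have h1 : ∀ j : Fin m, (a * ζ ^ (j : ℕ)) ^ m = w / m := by
      intro j
      rw [mul_pow, ← pow_mul, mul_comm (j : ℕ), pow_mul, hζ.pow_eq_one, one_pow, mul_one, ha]
    rw [Finset.sum_congr rfl (fun j _ => h1 j), Finset.sum_const, Finset.card_univ,
      Fintype.card_fin, nsmul_eq_mul]
    have : (m : ℂ) ≠ 0 := by exact_mod_cast (by omega : m ≠ 0)
    field_simp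

lemma exists_power_sums (t : ℕ → ℂ) (n : ℕ) :
    ∃ (N : ℕ) (x : Fin N → ℂ), ∀ k, 0 < k → k ≤ n → ∑ j, x j ^ k = t k := by
  induction n with
  | zero => exact ⟨0, Fin.elim0, fun k h1 h2 => by omega⟩
  | succ n ih =>
    obtain ⟨N, x, hx⟩ := ih
    obtain ⟨b, hb, hb'⟩ := exists_root_block (n + 1) (by omega) (t (n + 1) - ∑ j, x j ^ (n + 1))
    refine ⟨N + (n + 1), Fin.append x b, fun k h1 h2 => ?_⟩
    rw [Fin.sum_univ_add]
    simp only [Fin.append_left, Fin.append_right]
    rcases Nat.lt_or_ge k (n + 1) with h | h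
    · rw [hx k h1 (by omega), hb k h1 h, add_zero]
    · have : k = n + 1 := by omega
      subst this
      rw [hb']; ring

/-! ### Equality of chromatic symmetric functions -/

/-- colourings with content `α` -/
def Cont {V : Type} (T : SimpleGraph V) (α : ℕ →₀ ℕ) : Type :=
  {c : V → ℕ // (∀ u v, T.Adj u v → c u ≠ c v) ∧ ∀ i : ℕ, Nat.card {v : V // c v = i} = α i}

/-- Equal chromatic symmetric functions. -/
def XEq {V W : Type} (T₁ : SimpleGraph V) (T₂ : SimpleGraph W) : Prop :=
  ∀ α : ℕ →₀ ℕ,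
    Nat.card {c : V → ℕ // (∀ u v, T₁.Adj u v → c u ≠ c v) ∧
        ∀ i : ℕ, Nat.card {v : V // c v = i} = α i} =
    Nat.card {c : W → ℕ // (∀ u v, T₂.Adj u v → c u ≠ c v) ∧
        ∀ i : ℕ, Nat.card {w : W // c w = i} = α i}

lemma XEq.symm {V W : Type} {T₁ : SimpleGraph V} {T₂ : SimpleGraph W} (h : XEq T₁ T₂) :
    XEq T₂ T₁ := fun α => (h α).symm

/-- extension by zero of a content vector -/
noncomputable def ext {N : ℕ} (β : Fin N → ℕ) : ℕ →₀ ℕ :=
  Finsupp.onFinset (Finset.range N) (fun i => if h : i < N then β ⟨i, h⟩ else 0) (by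
    intro i hi
    by_contra h
    rw [Finset.mem_range] at h
    simp [h] at hi)

lemma ext_apply_lt {N : ℕ} (β : Fin N → ℕ) (i : Fin N) : ext β i = β i := by
  simp [ext]

lemma ext_apply_ge {N : ℕ} (β : Fin N → ℕ) (i : ℕ) (hi : N ≤ i) : ext β i = 0 := by
  simp [ext, not_lt.2 hi]

/-- content of a colouring -/
noncomputable def content {V : Type} [Fintype V] {N : ℕ} (κ : V → Fin N) (i : Fin N) : ℕ :=
  Nat.card {v : V // κ v = i}

lemma prod_eq_content {V : Type} [Fintype V] {K : Type} [CommRing K] {N : ℕ} (x : Fin N → K)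
    (κ : V → Fin N) : ∏ v, x (κ v) = ∏ i, x i ^ content κ i := by
  rw [← Finset.prod_fiberwise_of_maps_to (s := Finset.univ) (t := Finset.univ) (g := κ)
    (fun _ _ => Finset.mem_univ _)]
  refine Finset.prod_congr rfl (fun i _ => ?_)
  rw [Finset.prod_congr rfl (g := fun _ => x i) (fun v hv => by rw [(Finset.mem_filter.1 hv).2]),
    Finset.prod_const]
  congr 1
  unfold content
  rw [Nat.card_eq_fintype_card, Fintype.card_subtype]

/-- the number of proper colourings `V → Fin N` of content `β` -/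
lemma card_fin_content {V : Type} [Fintype V] (T : SimpleGraph V) {N : ℕ} (β : Fin N → ℕ) :
    (Finset.univ.filter (fun κ : V → Fin N => Prop' T κ ∧ content κ = β)).card =
    Nat.card {c : V → ℕ // (∀ u v, T.Adj u v → c u ≠ c v) ∧
        ∀ i : ℕ, Nat.card {v : V // c v = i} = ext β i} := by
  rw [← Fintype.card_subtype, ← Nat.card_eq_fintype_card]
  refine Nat.card_congr ?_
  have key : ∀ c : V → ℕ, (∀ i : ℕ, Nat.card {v : V // c v = i} = ext β i) → ∀ v, c v < N := by
    intro c hc v
    by_contra h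
    have h1 := hc (c v)
    rw [ext_apply_ge β _ (not_lt.1 h)] at h1
    rw [Nat.card_eq_fintype_card, Fintype.card_eq_zero_iff] at h1
    exact h1.elim ⟨v, rfl⟩
  refine
    { toFun := fun κ => ⟨fun v => (κ.1 v : ℕ), ?_, ?_⟩
      invFun := fun c => ⟨fun v => ⟨c.1 v, key c.1 c.2.2 v⟩, ?_, ?_⟩
      left_inv := ?_
      right_inv := ?_ }
  · intro u v huv h
    exact κ.2.1 u v huv (Fin.ext h)
  · intro i
    rcases Nat.lt_or_ge i N with h | h
    · have h1 := congrFun κ.2.2 ⟨i, h⟩
      rw [show ext β i = β ⟨i, h⟩ from ext_apply_lt β ⟨i, h⟩, ← h1]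
      unfold content
      refine Nat.card_congr (Equiv.subtypeEquivRight (fun v => ?_))
      constructor
      · intro h'; exact Fin.ext h'
      · intro h'; exact congrArg Fin.val h'
    · rw [ext_apply_ge β i h, Nat.card_eq_fintype_card, Fintype.card_eq_zero_iff]
      refine ⟨fun v => ?_⟩
      have h3 : ((κ.1 v.1 : Fin N) : ℕ) < N := (κ.1 v.1).2
      have h2 : ((κ.1 v.1 : Fin N) : ℕ) = i := v.2
      omega
  · intro u v huv h
    exact c.2.1 u v huv (congrArg Fin.val h)
  · funext i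
    have h1 := c.2.2 i
    rw [ext_apply_lt] at h1
    rw [← h1]
    unfold content
    refine Nat.card_congr (Equiv.subtypeEquivRight (fun v => ?_))
    constructor
    · intro h'; rw [← h']
    · intro h'; exact Fin.ext h'
  · intro κ
    rfl
  · intro c
    rfl

lemma colt_eq_of_XEq {V W : Type} [Fintype V] [Fintype W] {T₁ : SimpleGraph V}
    {T₂ : SimpleGraph W} (h : XEq T₁ T₂) {K : Type} [CommRing K] {N : ℕ} (x : Fin N → K) :
    colt x T₁ = colt x T₂ := by
  have key : ∀ (U : Type) [Fintype U] (T : SimpleGraph U) (M : ℕ), Fintype.card U ≤ M →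
      colt x T = ∑ β : Fin N → Fin (M + 1),
        (Nat.card {c : U → ℕ // (∀ u v, T.Adj u v → c u ≠ c v) ∧
          ∀ i : ℕ, Nat.card {v : U // c v = i} = ext (fun i => (β i : ℕ)) i} : K) *
        ∏ i, x i ^ (β i : ℕ) := by
    intro U _ T M hM
    unfold colt
    rw [← Finset.sum_filter]
    have hmaps : ∀ κ ∈ (Finset.univ.filter (fun κ : U → Fin N => Prop' T κ)),
        (fun (κ : U → Fin N) (i : Fin N) => (⟨content κ i, by
          refine Nat.lt_succ_of_le (le_trans ?_ hM)
          unfold content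
          rw [← Nat.card_eq_fintype_card]
          exact Nat.card_le_card_of_injective _ Subtype.val_injective⟩ : Fin (M + 1))) κ ∈
          (Finset.univ : Finset (Fin N → Fin (M + 1))) := fun _ _ => Finset.mem_univ _
    rw [← Finset.sum_fiberwise_of_maps_to hmaps]
    refine Finset.sum_congr rfl (fun β _ => ?_)
    rw [← card_fin_content T (fun i => (β i : ℕ)), ← nsmul_eq_mul, ← Finset.sum_const,
      Finset.filter_filter]
    have hset : (Finset.univ.filter (fun κ : U → Fin N => Prop' T κ ∧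
        (fun (i : Fin N) => (⟨content κ i, by
          refine Nat.lt_succ_of_le (le_trans ?_ hM)
          unfold content
          rw [← Nat.card_eq_fintype_card]
          exact Nat.card_le_card_of_injective _ Subtype.val_injective⟩ : Fin (M + 1))) = β)) =
        (Finset.univ.filter (fun κ : U → Fin N => Prop' T κ ∧ content κ = fun i => (β i : ℕ))) := by
      refine Finset.filter_congr (fun κ _ => ?_)
      constructor
      · rintro ⟨h1, h2⟩
        refine ⟨h1, ?_⟩
        rw [← h2]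
      · rintro ⟨h1, h2⟩
        refine ⟨h1, ?_⟩
        funext i
        exact Fin.ext (congrFun h2 i)
    rw [hset]
    refine Finset.sum_congr rfl (fun κ hκ => ?_)
    rw [prod_eq_content, (Finset.mem_filter.1 hκ).2.2]
  rw [key V T₁ (Fintype.card V + Fintype.card W) (by omega),
    key W T₂ (Fintype.card V + Fintype.card W) (by omega)]
  refine Finset.sum_congr rfl (fun β _ => ?_)
  rw [h (ext (fun i => (β i : ℕ)))]

lemma card_eq_of_XEq {V W : Type} [Fintype V] [Fintype W] {T₁ : SimpleGraph V}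
    {T₂ : SimpleGraph W} (h : XEq T₁ T₂) : Fintype.card V = Fintype.card W := by
  -- the content of an injective colouring of `V`
  set n := Fintype.card V with hn
  let e : V ≃ Fin n := Fintype.equivFin V
  have h1 := card_fin_content T₁ (fun _ : Fin n => 1)
  have h2 := card_fin_content T₂ (fun _ : Fin n => 1)
  rw [← h (ext (fun _ : Fin n => 1)), ← h1] at h2
  have h3 : (Finset.univ.filter (fun κ : V → Fin n => Prop' T₁ κ ∧ content κ = fun _ => 1)).Nonempty := by
    refine ⟨e, Finset.mem_filter.2 ⟨Finset.mem_univ _, ?_, ?_⟩⟩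
    · intro u v huv h'
      exact huv.ne (e.injective h')
    · funext i
      unfold content
      rw [Nat.card_eq_fintype_card, Fintype.card_eq_one_iff]
      refine ⟨⟨e.symm i, e.apply_symm_apply i⟩, fun v => ?_⟩
      apply Subtype.ext
      show v.1 = e.symm i
      exact (Equiv.eq_symm_apply e).2 v.2
  have h4 : 0 < (Finset.univ.filter (fun κ : W → Fin n => Prop' T₂ κ ∧ content κ = fun _ => 1)).card := by
    rw [h2]; exact Finset.card_pos.2 h3
  obtain ⟨κ, hκ⟩ := Finset.card_pos.1 h4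
  have h5 := (Finset.mem_filter.1 hκ).2.2
  have h6 : Fintype.card W = ∑ i, content κ i := by
    rw [← Finset.card_univ, Finset.card_eq_sum_card_fiberwise (f := κ) (t := Finset.univ)
      (fun _ _ => Finset.mem_univ _)]
    refine Finset.sum_congr rfl (fun i _ => ?_)
    unfold content
    rw [Nat.card_eq_fintype_card, Fintype.card_subtype]
  rw [h6, h5]
  simp

/-- equality of the `U`-polynomials at complex points -/
lemma phi_Pi_eq_complex {f₁ f₂ : Fr} (h : XEq (Fr.G f₁) (Fr.G f₂)) (y : ℕ → ℂ) :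
    phi y (Pi y f₁) = phi y (Pi y f₂) := by
  have hs : f₁.size = f₂.size := by
    have := card_eq_of_XEq h
    rw [Fr.card_W, Fr.card_W] at this
    omega
  obtain ⟨N, x, hx⟩ := exists_power_sums (fun k => - y k) (f₁.size + 1)
  -- replace `y 0` by something harmless
  set y' : ℕ → ℂ := fun k => if k = 0 then yv x 0 else y k with hy'
  have key : ∀ f : Fr, phi y (Pi y f) = phi y' (Pi y' f) := by
    intro f
    have hyy : ∀ (q : ℂ[X]), phi y q = phi y' q := by
      intro q
      rw [phi_eq_sum_range y _ _ (Nat.lt_succ_self _), phi_eq_sum_range y' _ _ (Nat.lt_succ_self _)]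
      refine Finset.sum_congr rfl (fun i _ => ?_)
      simp [hy']
    have hP : ∀ g : Fr, Pi y g = Pi y' g := by
      intro g
      induction g with
      | nil => rfl
      | cons a b iha ihb =>
        rw [Pi_cons, Pi_cons]
        unfold Fhat
        rw [iha, ihb, hyy]
    rw [hP f, hyy]
  have hyx : ∀ i ≤ f₁.size + 1, y' i = yv x i := by
    intro i hi
    by_cases h0 : i = 0
    · simp [hy', h0]
    · have := hx i (Nat.pos_of_ne_zero h0) hi
      simp only [hy', if_neg h0, yv]
      rw [this]; ring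
  have key2 : ∀ f : Fr, f.size = f₁.size → phi y (Pi y f) = phi (yv x) (Pi (yv x) f) := by
    intro f hf
    rw [key f]
    have h1 : Pi y' f = Pi (yv x) f := by
      refine Pi_congr y' (yv x) (f₁.size + 1) hyx f (fun a ha => ?_)
      have := mem_toList_size ha
      omega
    rw [h1]
    exact phi_congr y' (yv x) _ (f₁.size + 1) (by rw [Pi_natDegree]; omega) hyx
  rw [key2 f₁ rfl, key2 f₂ hs.symm]
  have h1 := colt_eq_of_XEq h x
  rw [colt_forest, colt_forest, ← hs] at h1
  have h2 : ((-1 : ℂ) ^ (f₁.size + 1)) ≠ 0 := pow_ne_zero _ (by norm_num)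
  exact mul_left_cancel₀ h2 h1

/-- the generic `U`-polynomial: coefficients in `ℂ[y_0, y_1, ...]` -/
lemma phi_Pi_eq_generic {f₁ f₂ : Fr} (h : XEq (Fr.G f₁) (Fr.G f₂)) :
    phi (MvPolynomial.X : ℕ → MvPolynomial ℕ ℂ) (Pi MvPolynomial.X f₁) =
    phi MvPolynomial.X (Pi MvPolynomial.X f₂) := by
  refine MvPolynomial.funext (fun y => ?_)
  rw [phi_map, phi_map, Pi_map, Pi_map]
  simp only [MvPolynomial.eval_X]
  exact phi_Pi_eq_complex h y

/-- equality of the `U`-polynomials at all points of all commutative `ℂ`-algebras -/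
theorem phi_Pi_eq {f₁ f₂ : Fr} (h : XEq (Fr.G f₁) (Fr.G f₂)) {S : Type*} [CommRing S]
    [Algebra ℂ S] (y : ℕ → S) : phi y (Pi y f₁) = phi y (Pi y f₂) := by
  have h1 := congrArg (MvPolynomial.aeval (R := ℂ) y).toRingHom (phi_Pi_eq_generic h)
  rw [phi_map, phi_map, Pi_map, Pi_map] at h1
  simpa using h1

lemma size_eq {f₁ f₂ : Fr} (h : XEq (Fr.G f₁) (Fr.G f₂)) : f₁.size = f₂.size := by
  have := card_eq_of_XEq h
  rw [Fr.card_W, Fr.card_W] at this
  omega

/-- transport of `XEq` along isomorphisms -/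
lemma XEq.of_iso {V W V' W' : Type} {T₁ : SimpleGraph V} {T₂ : SimpleGraph W}
    {T₁' : SimpleGraph V'} {T₂' : SimpleGraph W'} (e₁ : T₁ ≃g T₁') (e₂ : T₂ ≃g T₂')
    (h : XEq T₁ T₂) : XEq T₁' T₂' := by
  have key : ∀ {U U' : Type} {T : SimpleGraph U} {T' : SimpleGraph U'} (_ : T ≃g T')
      (α : ℕ →₀ ℕ),
      Nat.card {c : U → ℕ // (∀ u v, T.Adj u v → c u ≠ c v) ∧
        ∀ i : ℕ, Nat.card {v : U // c v = i} = α i} =
      Nat.card {c : U' → ℕ // (∀ u v, T'.Adj u v → c u ≠ c v) ∧
        ∀ i : ℕ, Nat.card {v : U' // c v = i} = α i} := by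
    intro U U' T T' e α
    refine Nat.card_congr ((Equiv.arrowCongr e.toEquiv (Equiv.refl ℕ)).subtypeEquiv (fun c => ?_))
    have hc : ∀ v, (Equiv.arrowCongr e.toEquiv (Equiv.refl ℕ)) c (e v) = c v := by
      intro v
      show c (e.toEquiv.symm (e.toEquiv v)) = c v
      rw [Equiv.symm_apply_apply]
    constructor
    · rintro ⟨h1, h2⟩
      refine ⟨fun u v huv => ?_, fun i => ?_⟩
      · obtain ⟨u, rfl⟩ := e.surjective u
        obtain ⟨v, rfl⟩ := e.surjective v
        rw [hc, hc]
        exact h1 u v (e.map_rel_iff.1 huv)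
      · rw [← h2 i]
        refine (Nat.card_congr (e.toEquiv.subtypeEquiv (fun v => ?_))).symm
        show c v = i ↔ (Equiv.arrowCongr e.toEquiv (Equiv.refl ℕ)) c (e v) = i
        rw [hc]
    · rintro ⟨h1, h2⟩
      refine ⟨fun u v huv => ?_, fun i => ?_⟩
      · have := h1 (e u) (e v) (e.map_rel_iff.2 huv)
        rwa [hc, hc] at this
      · rw [← h2 i]
        refine (Nat.card_congr (e.toEquiv.subtypeEquiv (fun v => ?_)))
        show c v = i ↔ (Equiv.arrowCongr e.toEquiv (Equiv.refl ℕ)) c (e v) = i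
        rw [hc]
  intro α
  rw [← key e₁ α, ← key e₂ α]
  exact h α

end Pool.MP_1af41f_co.CSF
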