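import Pool.Agent.Lib_helper17.CSF.Exact

set_option autoImplicit false

namespace Pool.MP_1af41f_co.CSF

open Polynomial
open scoped Classical

/-- the scaled generic point `y_i = t X_i` in `R[t]` -/
noncomputable def yt (i : ℕ) : R[X] := C (gen i) * X

/-- the constants `X_i` of `R[t]` -/
noncomputable def yc (i : ℕ) : R[X] := C (gen i)

/-- evaluation at `t = 0` -/
noncomputable def ev0 : R[X] →+* R := evalRingHom 0

lemma ev0_apply (p : R[X]) : ev0 p = p.coeff 0 := by
  simp [ev0, coeff_zero_eq_eval_zero]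

lemma ev0_yt (i : ℕ) : ev0 (yt i) = 0 := by simp [ev0_apply, yt]

lemma ev0_yc (i : ℕ) : ev0 (yc i) = gen i := by simp [ev0_apply, yc]

/-- the substitution `X_i ↦ t X_i` -/
noncomputable def theta : R →+* R[X] := (MvPolynomial.aeval (R := ℂ) yt).toRingHom

lemma theta_gen (i : ℕ) : theta (gen i) = yt i := by
  show MvPolynomial.aeval (R := ℂ) yt (MvPolynomial.X i) = yt i
  rw [MvPolynomial.aeval_X]

lemma theta_comp : (fun i => theta (gen i)) = yt := funext theta_gen

lemma Pt_eq_map (f : Fr) : Pi yt f = (Pi gen f).map theta := by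
  rw [Pi_map, theta_comp]

lemma Ft_eq_map (a : Fr) : Fhat yt a = (Fhat gen a).map theta := by
  rw [Fhat_map', theta_comp]

lemma theta_monomial (μ : ℕ →₀ ℕ) (c : ℂ) :
    theta (MvPolynomial.monomial μ c) = Polynomial.monomial μ.degree (MvPolynomial.monomial μ c) := by
  show MvPolynomial.aeval (R := ℂ) yt (MvPolynomial.monomial μ c) = _
  rw [MvPolynomial.aeval_monomial]
  have h1 : (μ.prod fun i k => yt i ^ k) =
      C (μ.prod fun i k => (gen i : R) ^ k) * X ^ μ.degree := by
    unfold Finsupp.prod yt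
    rw [map_prod, Finsupp.degree_apply, ← Finset.prod_pow_eq_pow_sum, ← Finset.prod_mul_distrib]
    refine Finset.prod_congr rfl (fun i _ => ?_)
    dsimp only
    rw [mul_pow, map_pow]
  rw [h1, MvPolynomial.monomial_eq (s := μ), ← Polynomial.C_mul_X_pow_eq_monomial]
  have h2 : (algebraMap ℂ R[X]) c = C (MvPolynomial.C c) := rfl
  rw [h2, C_mul, mul_assoc]

lemma coeff_theta (p : R) (k : ℕ) (μ : ℕ →₀ ℕ) :
    MvPolynomial.coeff μ ((theta p).coeff k) = if μ.degree = k then MvPolynomial.coeff μ p else 0 := by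
  induction p using MvPolynomial.induction_on' with
  | monomial ν c =>
    rw [theta_monomial, Polynomial.coeff_monomial, MvPolynomial.coeff_monomial]
    by_cases h : ν = μ
    · subst h
      by_cases hk : Finsupp.degree ν = k
      · simp [hk]
      · simp [hk]
    · rw [if_neg h]
      split_ifs <;> simp [MvPolynomial.coeff_monomial, h]
  | add p q hp hq =>
    rw [map_add, Polynomial.coeff_add, MvPolynomial.coeff_add, hp, hq, MvPolynomial.coeff_add]
    split_ifs <;> simp

lemma theta_injective : Function.Injective theta := by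
  intro p q h
  ext1 μ
  have h1 := coeff_theta p μ.degree μ
  have h2 := coeff_theta q μ.degree μ
  rw [if_pos rfl] at h1 h2
  rw [← h1, ← h2, h]

lemma phi_yt (q : R[X][X]) : phi yt q = X * phi yc q := by
  rw [phi_eq_sum_range _ _ _ (Nat.lt_succ_self _), phi_eq_sum_range _ _ _ (Nat.lt_succ_self _),
    Finset.mul_sum]
  refine Finset.sum_congr rfl (fun i _ => ?_)
  unfold yt yc
  ring

lemma ev0_phi_yc (q : R[X][X]) : ev0 (phi yc q) = phi gen (q.map ev0) := by
  rw [phi_map]
  congr 1
  exact funext ev0_yc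

/-- linear part of `Π f` -/
noncomputable def Lam : Fr → R[X]
  | .nil => 0
  | .cons a b => (X * Lam a + C (gen (1 + a.size))) * X ^ b.size + X ^ (1 + a.size) * Lam b

/-- linear part of `F̂_a` -/
noncomputable def LamT (a : Fr) : R[X] := X * Lam a + C (gen (1 + a.size))

lemma exists_Lam_T (a : Fr) (h : ∃ L : R[X][X], Pi yt a = X ^ a.size + C X * L ∧ L.map ev0 = Lam a) :
    ∃ L : R[X][X], Fhat yt a = X ^ (1 + a.size) + C X * L ∧ L.map ev0 = LamT a := by
  obtain ⟨L, h1, h2⟩ := h
  refine ⟨X * L + C (phi yc (Pi yt a)), ?_, ?_⟩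
  · unfold Fhat
    have h3 : X * Pi yt a = X * (X ^ a.size + C X * L) := by rw [← h1]
    rw [phi_yt, C_mul, h3]
    ring
  · rw [Polynomial.map_add, Polynomial.map_mul, map_X, map_C, h2, ev0_phi_yc]
    have h3 : (Pi yt a).map ev0 = X ^ a.size := by
      rw [h1, Polynomial.map_add, Polynomial.map_mul, map_C, Polynomial.map_pow, map_X]
      simp [ev0_apply]
    rw [h3, phi_X_pow, add_comm a.size 1]
    rfl

lemma exists_Lam (f : Fr) :
    ∃ L : R[X][X], Pi yt f = X ^ f.size + C X * L ∧ L.map ev0 = Lam f := by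
  induction f with
  | nil => exact ⟨0, by simp [Pi_nil, Fr.size], by simp [Lam]⟩
  | cons a b iha ihb =>
    obtain ⟨L₁, h1, h1'⟩ := exists_Lam_T a iha
    obtain ⟨L₂, h2, h2'⟩ := ihb
    refine ⟨L₁ * X ^ b.size + X ^ (1 + a.size) * L₂ + C X * L₁ * L₂, ?_, ?_⟩
    · rw [Pi_cons, h1, h2]
      simp only [Fr.size]
      ring
    · simp only [Polynomial.map_add, Polynomial.map_mul, map_C, Polynomial.map_pow, map_X, h1', h2']
      simp only [ev0_apply, coeff_X_zero, C_0, zero_mul, add_zero]
      rfl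

lemma exists_LamT (a : Fr) :
    ∃ L : R[X][X], Fhat yt a = X ^ (1 + a.size) + C X * L ∧ L.map ev0 = LamT a :=
  exists_Lam_T a (exists_Lam a)

lemma Pt_ev0 (f : Fr) : (Pi yt f).map ev0 = X ^ f.size := by
  obtain ⟨L, h, _⟩ := exists_Lam f
  rw [h, Polynomial.map_add, Polynomial.map_mul, map_C, Polynomial.map_pow, map_X]
  simp [ev0_apply]

lemma Ft_ev0 (a : Fr) : (Fhat yt a).map ev0 = X ^ (1 + a.size) := by
  obtain ⟨L, h, _⟩ := exists_LamT a
  rw [h, Polynomial.map_add, Polynomial.map_mul, map_C, Polynomial.map_pow, map_X]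
  simp [ev0_apply]

lemma coeff_LamT (a : Fr)
    (h : (∀ i r, i + r = a.size → 0 < r → (Lam a).coeff i = (a.N r : R) * gen r) ∧
      ∀ i, a.size ≤ i → (Lam a).coeff i = 0) :
    (∀ i r, i + r = 1 + a.size → 0 < r → (LamT a).coeff i = (a.NT r : R) * gen r) ∧
      ∀ i, 1 + a.size ≤ i → (LamT a).coeff i = 0 := by
  constructor
  · intro i r hir hr
    unfold LamT
    cases i with
    | zero =>
      have : r = 1 + a.size := by omega
      subst this
      rw [coeff_add, coeff_X_mul_zero, coeff_C_zero, Fr.NT_self]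
      simp
    | succ i =>
      rw [coeff_add, coeff_X_mul, coeff_C_succ, add_zero, h.1 i r (by omega) hr, Fr.NT,
        if_neg (by omega), zero_add]
  · intro i hi
    unfold LamT
    cases i with
    | zero => omega
    | succ i =>
      rw [coeff_add, coeff_X_mul, coeff_C_succ, add_zero, h.2 i (by omega)]

lemma coeff_Lam (f : Fr) :
    (∀ i r, i + r = f.size → 0 < r → (Lam f).coeff i = (f.N r : R) * gen r) ∧
      ∀ i, f.size ≤ i → (Lam f).coeff i = 0 := by
  induction f with
  | nil =>
    constructor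
    · intro i r hir hr
      simp only [Fr.size] at hir
      omega
    · intro i _
      simp [Lam]
  | cons a b iha ihb =>
    have hT := coeff_LamT a iha
    have hdef : Lam (Fr.cons a b) = LamT a * X ^ b.size + X ^ (1 + a.size) * Lam b := rfl
    have hsz : (Fr.cons a b).size = 1 + a.size + b.size := rfl
    rw [hdef, hsz]
    constructor
    · intro i r hir hr
      rw [coeff_add, coeff_mul_X_pow', coeff_X_pow_mul', Fr.N_cons]
      push_cast
      rw [add_mul]
      congr 1
      · split_ifs with h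
        · exact hT.1 _ _ (by omega) hr
        · rw [Fr.NT_eq_zero_of_lt (by omega)]; simp
      · split_ifs with h
        · exact ihb.1 _ _ (by omega) hr
        · rw [Fr.N_eq_zero_of_lt (by omega)]; simp
    · intro i hi
      rw [coeff_add, coeff_mul_X_pow', coeff_X_pow_mul', if_pos (by omega), if_pos (by omega),
        hT.2 _ (by omega), ihb.2 _ (by omega), add_zero]

lemma C_X_dvd_iff (P : R[X][X]) : C X ∣ P ↔ P.map ev0 = 0 := by
  rw [C_dvd_iff_dvd_coeff]
  constructor
  · intro h
    ext1 i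
    rw [coeff_map, ev0_apply, coeff_zero]
    exact X_dvd_iff.1 (h i)
  · intro h i
    rw [X_dvd_iff]
    have := congrArg (fun q => Polynomial.coeff q i) h
    simpa [coeff_map, ev0_apply] using this

lemma prime_C_X : Prime (C X : R[X][X]) := prime_C_iff.2 prime_X

/-- lowest order in `t` -/
lemma exists_lowest (P : R[X][X]) (hP : P ≠ 0) :
    ∃ (d : ℕ) (Q : R[X][X]), P = C X ^ d * Q ∧ Q.map ev0 ≠ 0 := by
  obtain ⟨n, Q, hQ, h⟩ := WfDvdMonoid.max_power_factor hP prime_C_X.irreducible
  exact ⟨n, Q, h, fun h' => hQ ((C_X_dvd_iff Q).2 h')⟩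

end Pool.MP_1af41f_co.CSF
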