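import Pool.Agent.Lib_helper17.CSF.H
import Pool.Agent.Lib_helper86.RT.Defs

set_option autoImplicit false

namespace Pool.MP_1af41f_co.CSF

open scoped Classical

lemma N_pos_iff_fr (r : ℕ) (g : Fr) : 1 ≤ g.N r ↔ ∃ x ∈ RT.fr g, RT.vs x = r := by
  induction g with
  | nil => simp [Fr.N, RT.fr]
  | cons a b iha ihb =>
    have h1 : 1 ≤ Fr.N r (Fr.cons a b) ↔ (1 + a.size = r) ∨ 1 ≤ a.N r ∨ 1 ≤ b.N r := by
      rw [Fr.N]
      by_cases h : 1 + a.size = r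
      · simp only [h, if_true, true_or, iff_true]; omega
      · simp only [h, if_false, false_or]; omega
    rw [h1, iha, ihb]
    simp only [RT.fr, List.mem_cons, List.mem_append, RT.vs]
    constructor
    · rintro (h | ⟨x, hx, h⟩ | ⟨x, hx, h⟩)
      · exact ⟨a, Or.inl rfl, h⟩
      · exact ⟨x, Or.inr (Or.inl hx), h⟩
      · exact ⟨x, Or.inr (Or.inr hx), h⟩
    · rintro ⟨x, rfl | hx | hx, h⟩
      · exact Or.inl h
      · exact Or.inr (Or.inl ⟨x, hx, h⟩)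
      · exact Or.inr (Or.inr ⟨x, hx, h⟩)

lemma NT_pos_iff_fr (r : ℕ) (a : Fr) : 1 ≤ a.NT r ↔ ∃ x ∈ a :: RT.fr a, RT.vs x = r := by
  have h1 : 1 ≤ a.NT r ↔ (1 + a.size = r) ∨ 1 ≤ a.N r := by
    rw [Fr.NT]
    by_cases h : 1 + a.size = r
    · simp only [h, if_true, true_or, iff_true]; omega
    · simp only [h, if_false, false_or]; omega
  rw [h1, N_pos_iff_fr]
  simp only [List.mem_cons, RT.vs]
  constructor
  · rintro (h | ⟨x, hx, h⟩)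
    · exact ⟨a, Or.inl rfl, h⟩
    · exact ⟨x, Or.inr hx, h⟩
  · rintro ⟨x, rfl | hx, h⟩
    · exact Or.inl h
    · exact Or.inr ⟨x, hx, h⟩

lemma mem_Wset_iff (y w : ℕ) (a : Fr) : w ∈ RT.Wset y a ↔ y < w ∧ 1 ≤ a.NT w := by
  rw [NT_pos_iff_fr]
  simp only [RT.Wset, Finset.mem_filter, List.mem_toFinset, List.mem_map]
  exact and_comm

lemma mem_Bset_iff (y b : ℕ) (g : Fr) : b ∈ RT.Bset y g ↔ y < b ∧ 1 ≤ g.N b := by
  rw [N_pos_iff_fr]
  simp only [RT.Bset, Finset.mem_filter, List.mem_toFinset, List.mem_map]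
  exact and_comm

lemma finite_aux (θ y ρ : ℕ) (a g : Fr) :
    Finite {x : ℕ // x ∈ RT.Wset θ a ∧ ∃ b ∈ RT.Bset y g, x + b = ρ} :=
  Finite.of_injective (fun x : {x : ℕ // x ∈ RT.Wset θ a ∧ ∃ b ∈ RT.Bset y g, x + b = ρ} =>
    (⟨x.1, x.2.1⟩ : {x // x ∈ RT.Wset θ a}))
    (fun x x' h => by
      have h1 := congrArg Subtype.val h
      exact Subtype.ext h1)

/-- Theorem H in terms of `Wset`, `Bset`. -/
theorem theoremH_RT {a g f : Fr} {θ K t : ℕ} (hf : Fr.Equ f (Fr.cons a g))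
    (hzs : RT.vs a ≤ g.size) (hθz : θ < RT.vs a) (hθs : g.size ≤ 2 * θ)
    (hgθ : RT.AllLe θ g)
    (hov : ∀ ρ : ℕ, Nat.card {x : ℕ // x ∈ RT.Wset θ a ∧ ∃ b ∈ RT.Bset (g.size - RT.vs a) g, x + b = ρ} ≤ t)
    (hWK : K * (t + 1) ≤ (RT.Wset θ a).card) (hWt : 2 * t < (RT.Wset θ a).card)
    (hK : RT.vs a ≤ K * (g.size + 1 - RT.vs a)) (f' : Fr)
    (hX : XEq (Fr.G f) (Fr.G f')) : Nonempty (Fr.G f ≃g Fr.G f') := by
  obtain ⟨e, _⟩ := hf
  have hX' : XEq (Fr.G (Fr.cons a g)) (Fr.G f') := hX.of_iso e SimpleGraph.Iso.refl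
  have hov' : ∀ x : ℕ, ((RT.Wset θ a).filter (fun w => w + (g.size + 1 - RT.vs a) ≤ x ∧
      1 ≤ g.N (x - w))).card ≤ t := by
    intro x
    refine le_trans ?_ (hov x)
    rw [← Nat.card_eq_finsetCard]
    have := finite_aux θ (g.size - RT.vs a) x a g
    refine Nat.card_le_card_of_injective
      (fun w : {w // w ∈ (RT.Wset θ a).filter (fun w => w + (g.size + 1 - RT.vs a) ≤ x ∧
          1 ≤ g.N (x - w))} =>
        (⟨w.1, (Finset.mem_filter.1 w.2).1, x - w.1, (mem_Bset_iff _ _ _).2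
          ⟨by have := (Finset.mem_filter.1 w.2).2.1; omega, (Finset.mem_filter.1 w.2).2.2⟩,
          by have := (Finset.mem_filter.1 w.2).2.1; omega⟩ :
        {y : ℕ // y ∈ RT.Wset θ a ∧ ∃ b ∈ RT.Bset (g.size - RT.vs a) g, y + b = x})) ?_
    intro w w' h
    have := congrArg Subtype.val h
    exact Subtype.ext this
  obtain ⟨e'⟩ := theoremH (z := RT.vs a) (s := g.size) (θ := θ) (K := K) (t := t) rfl rfl hzs hθz
    hθs hgθ (RT.Wset θ a) (fun w hw => (mem_Wset_iff _ _ _).1 hw) hov' hWK hWt hK f' hX'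
  exact ⟨e.trans e'⟩

/-- the same with `Bset 0 g` -/
theorem theoremH_RT0 {a g f : Fr} {θ K t : ℕ} (hf : Fr.Equ f (Fr.cons a g))
    (hzs : RT.vs a ≤ g.size) (hθz : θ < RT.vs a) (hθs : g.size ≤ 2 * θ)
    (hgθ : RT.AllLe θ g)
    (hov : ∀ ρ : ℕ, Nat.card {x : ℕ // x ∈ RT.Wset θ a ∧ ∃ b ∈ RT.Bset 0 g, x + b = ρ} ≤ t)
    (hWK : K * (t + 1) ≤ (RT.Wset θ a).card) (hWt : 2 * t < (RT.Wset θ a).card)
    (hK : RT.vs a ≤ K * (g.size + 1 - RT.vs a)) (f' : Fr)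
    (hX : XEq (Fr.G f) (Fr.G f')) : Nonempty (Fr.G f ≃g Fr.G f') := by
  refine theoremH_RT hf hzs hθz hθs hgθ (fun ρ => le_trans ?_ (hov ρ)) hWK hWt hK f' hX
  have := finite_aux θ 0 ρ a g
  refine Nat.card_le_card_of_injective
    (fun w : {y : ℕ // y ∈ RT.Wset θ a ∧ ∃ b ∈ RT.Bset (g.size - RT.vs a) g, y + b = ρ} =>
      (⟨w.1, w.2.1, w.2.2.choose, (mem_Bset_iff _ _ _).2
        ⟨lt_of_le_of_lt (Nat.zero_le _) ((mem_Bset_iff _ _ _).1 w.2.2.choose_spec.1).1,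
          ((mem_Bset_iff _ _ _).1 w.2.2.choose_spec.1).2⟩, w.2.2.choose_spec.2⟩ :
      {y : ℕ // y ∈ RT.Wset θ a ∧ ∃ b ∈ RT.Bset 0 g, y + b = ρ})) ?_
  intro w w' h
  have := congrArg Subtype.val h
  exact Subtype.ext this

end Pool.MP_1af41f_co.CSF
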