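import Pool.Agent.Lib_helper17.CSF.Parts

set_option autoImplicit false

namespace Pool.MP_1af41f_co.CSF

open Polynomial
open scoped Classical

section alg
variable {S : Type*} [CommRing S] [IsDomain S]

/-- `P · ∏ (Y + g)` -/
noncomputable def BB (P : S[X]) (l : List S[X]) : S[X][X] :=
  C P * (l.map (fun g => X + C g)).prod

lemma prodXC_monic (l : List S[X]) :
    ((l.map (fun g => (X : S[X][X]) + C g)).prod).Monic ∧
    ((l.map (fun g => (X : S[X][X]) + C g)).prod).natDegree = l.length := by
  induction l with
  | nil => simp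
  | cons g l ih =>
    rw [List.map_cons, List.prod_cons]
    refine ⟨(monic_X_add_C g).mul ih.1, ?_⟩
    rw [Monic.natDegree_mul (monic_X_add_C g) ih.1, natDegree_X_add_C, ih.2, List.length_cons]
    ring

lemma prodXC_coeff_top (l : List S[X]) :
    ((l.map (fun g => (X : S[X][X]) + C g)).prod).coeff l.length = 1 := by
  have h := prodXC_monic l
  have h1 := h.1
  rw [Monic, leadingCoeff, h.2] at h1
  exact h1

lemma prodXC_coeff_gt (l : List S[X]) (j : ℕ) (hj : l.length < j) :
    ((l.map (fun g => (X : S[X][X]) + C g)).prod).coeff j = 0 :=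
  coeff_eq_zero_of_natDegree_lt (by rw [(prodXC_monic l).2]; exact hj)

lemma prodXC_coeff_pred (l : List S[X]) (j : ℕ) (hj : l.length = j + 1) :
    ((l.map (fun g => (X : S[X][X]) + C g)).prod).coeff j = l.sum := by
  induction l generalizing j with
  | nil => simp at hj
  | cons g l ih =>
    rw [List.map_cons, List.prod_cons, List.sum_cons, add_mul, coeff_add, coeff_C_mul]
    have hl : l.length = j := by simpa using hj
    have h1 : (List.map (fun g => (X : S[X][X]) + C g) l).prod.coeff j = 1 := by
      rw [← hl]; exact prodXC_coeff_top l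
    rw [h1, mul_one]
    cases j with
    | zero =>
      have : l = [] := List.length_eq_zero_iff.1 hl
      subst this
      simp
    | succ j =>
      rw [coeff_X_mul, ih j hl, add_comm]

lemma prodXC_injective {l l' : List S[X]}
    (h : (l.map (fun g => (X : S[X][X]) + C g)).prod = (l'.map (fun g => (X : S[X][X]) + C g)).prod) :
    (l : Multiset S[X]) = (l' : Multiset S[X]) := by
  have key : ∀ l : List S[X], ((l.map (fun g => (X : S[X][X]) + C g)).prod).roots =
      (l : Multiset S[X]).map (fun g => - g) := by
    intro l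
    have : (l.map (fun g => (X : S[X][X]) + C g)).prod =
        (((l : Multiset S[X]).map (fun g => - g)).map (fun a => X - C a)).prod := by
      rw [Multiset.map_map, Multiset.map_coe, Multiset.prod_coe]
      congr 1
      refine List.map_congr_left (fun g _ => ?_)
      simp
    rw [this, roots_multiset_prod_X_sub_C]
  have h1 := congrArg roots h
  rw [key, key] at h1
  exact Multiset.map_injective neg_injective h1

omit [IsDomain S] in
lemma BB_coeff (P : S[X]) (l : List S[X]) (j : ℕ) :
    (BB P l).coeff j = P * ((l.map (fun g => (X : S[X][X]) + C g)).prod).coeff j := by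
  unfold BB; rw [coeff_C_mul]

lemma BB_injective {P P' : S[X]} (hP : P ≠ 0) (hP' : P' ≠ 0) {l l' : List S[X]}
    (h : BB P l = BB P' l') : P = P' ∧ (l : Multiset S[X]) = (l' : Multiset S[X]) := by
  have h1 : (BB P l).leadingCoeff = P := by
    unfold BB
    rw [leadingCoeff_mul, (prodXC_monic l).1.leadingCoeff, leadingCoeff_C, mul_one]
  have h2 : (BB P' l').leadingCoeff = P' := by
    unfold BB
    rw [leadingCoeff_mul, (prodXC_monic l').1.leadingCoeff, leadingCoeff_C, mul_one]
  have h3 : P = P' := by rw [← h1, ← h2, h]
  refine ⟨h3, prodXC_injective ?_⟩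
  subst h3
  unfold BB at h
  exact mul_left_cancel₀ (C_ne_zero.2 hP) h

omit [IsDomain S] in
/-- sums of monic polynomials of degree `m` in characteristic zero -/
lemma natDegree_sum_monic [CharZero S] {m : ℕ} (l : List S[X]) (hl : l ≠ [])
    (h : ∀ g ∈ l, g.Monic ∧ g.natDegree = m) : l.sum ≠ 0 ∧ l.sum.natDegree = m := by
  have h1 : l.sum.coeff m = l.length := by
    have : ∀ l : List S[X], (∀ g ∈ l, g.Monic ∧ g.natDegree = m) → l.sum.coeff m = l.length := by
      intro l
      induction l with
      | nil => intro _; simp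
      | cons g l ih =>
        intro h
        rw [List.sum_cons, coeff_add, ih (fun g hg => h g (List.mem_cons_of_mem _ hg))]
        have h2 := h g List.mem_cons_self
        have h3 : g.coeff m = 1 := by
          have := h2.1
          rw [Monic, leadingCoeff, h2.2] at this
          exact this
        rw [h3, List.length_cons]
        push_cast; ring
    exact this l h
  have h2 : l.sum.natDegree ≤ m := by
    have : ∀ l : List S[X], (∀ g ∈ l, g.Monic ∧ g.natDegree = m) → l.sum.natDegree ≤ m := by
      intro l
      induction l with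
      | nil => intro _; simp
      | cons g l ih =>
        intro h
        rw [List.sum_cons]
        refine (natDegree_add_le _ _).trans (max_le (h g List.mem_cons_self).2.le
          (ih (fun g hg => h g (List.mem_cons_of_mem _ hg))))
    exact this l h
  have h3 : (l.length : S) ≠ 0 := by
    have : l.length ≠ 0 := by simpa using hl
    exact_mod_cast this
  have h4 : l.sum.coeff m ≠ 0 := by rw [h1]; exact h3
  refine ⟨fun h => h4 (by rw [h, coeff_zero]), natDegree_eq_of_le_of_coeff_ne_zero h2 h4⟩

/-- The algebraic core: two products `P ∏ (Y + g)`, `P' ∏ (Y + g')` with `g, g'` monic of degree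
`m`, of the same total degree, with `deg P ≥ 2m`, which agree in all coefficients of `u^i`,
`i ≥ m`, are equal. -/
theorem core [CharZero S] {m : ℕ} (hm : 0 < m) {P P' : S[X]} (hP : P.Monic) (hP' : P'.Monic)
    {l l' : List S[X]} (hl' : ∀ g ∈ l', g.Monic ∧ g.natDegree = m) (hne : l ≠ [])
    (hdeg : P.natDegree + l.length * m = P'.natDegree + l'.length * m)
    (h2m : 2 * m ≤ P.natDegree)
    (hlow : ∀ j, ∀ i, m ≤ i → ((BB P l - BB P' l').coeff j).coeff i = 0) :
    P = P' ∧ (l : Multiset S[X]) = (l' : Multiset S[X]) := by
  have low : ∀ j, ((BB P l - BB P' l').coeff j).natDegree < m := by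
    intro j
    by_contra h
    rw [not_lt] at h
    have h1 := hlow j _ h
    have h2 : (BB P l - BB P' l').coeff j = 0 := leadingCoeff_eq_zero.1 h1
    rw [h2, natDegree_zero] at h
    omega
  have low' : ∀ j, (P * ((l.map (fun g => (X : S[X][X]) + C g)).prod).coeff j -
      P' * ((l'.map (fun g => (X : S[X][X]) + C g)).prod).coeff j).natDegree < m := by
    intro j
    have := low j
    rwa [coeff_sub, BB_coeff, BB_coeff] at this
  set R := (l.map (fun g => (X : S[X][X]) + C g)).prod with hR
  set R' := (l'.map (fun g => (X : S[X][X]) + C g)).prod with hR'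
  have hk0 : 0 < l.length := List.length_pos_iff.2 hne
  -- the numbers of factors agree
  have hk : l.length = l'.length := by
    rcases lt_trichotomy l.length l'.length with h | h | h
    · exfalso
      have h1 := low' l'.length
      rw [hR, hR', prodXC_coeff_gt l _ h, prodXC_coeff_top, mul_zero, mul_one, zero_sub,
        natDegree_neg] at h1
      by_cases h2 : l'.length = l.length + 1
      · rw [h2, add_mul, one_mul] at hdeg
        omega
      · obtain ⟨j, hj⟩ : ∃ j, l'.length = j + 1 := ⟨l'.length - 1, by omega⟩
        have h3 := low' j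
        have hne' : l' ≠ [] := by
          intro h'; rw [h'] at hj; simp at hj
        have h4 := natDegree_sum_monic l' hne' hl'
        rw [hR, hR', prodXC_coeff_gt l j (by omega), prodXC_coeff_pred l' j hj, mul_zero,
          zero_sub, natDegree_neg, natDegree_mul hP'.ne_zero h4.1, h4.2] at h3
        omega
    · exact h
    · exfalso
      have h1 := low' l.length
      rw [hR, hR', prodXC_coeff_gt l' _ h, prodXC_coeff_top, mul_zero, mul_one, sub_zero] at h1
      omega
  have hne' : l' ≠ [] := by
    intro h'; rw [h', List.length_nil] at hk; omega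
  obtain ⟨j, hj⟩ : ∃ j, l.length = j + 1 := ⟨l.length - 1, by omega⟩
  have h1 := low' l.length
  rw [hR, hR', prodXC_coeff_top] at h1
  have h1' : (l'.map (fun g => (X : S[X][X]) + C g)).prod.coeff l.length = 1 := by
    rw [hk]; exact prodXC_coeff_top l'
  rw [h1', mul_one, mul_one] at h1
  have h2 := low' j
  rw [hR, hR', prodXC_coeff_pred l j hj, prodXC_coeff_pred l' j (by omega)] at h2
  set e := l.sum with he
  set e' := l'.sum with he'
  have hde' := natDegree_sum_monic l' hne' hl'
  -- `e = e'`
  have hee : e = e' := by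
    by_contra hne2
    have h3 : (P * (e - e')).natDegree = P.natDegree + (e - e').natDegree :=
      natDegree_mul hP.ne_zero (sub_ne_zero.2 hne2)
    have h4 : P * (e - e') = (P * e - P' * e') - (P - P') * e' := by ring
    have h5 : ((P - P') * e').natDegree ≤ (P - P').natDegree + m := by
      refine natDegree_mul_le.trans ?_
      rw [hde'.2]
    have h6 : (P * (e - e')).natDegree ≤
        max (P * e - P' * e').natDegree ((P - P') * e').natDegree := by
      rw [h4]; exact natDegree_sub_le _ _
    rw [h3] at h6
    rcases le_max_iff.1 h6 with h7 | h7 <;> omega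
  -- `P = P'`
  have hPP : P = P' := by
    by_contra hne2
    rw [hee, ← sub_mul, natDegree_mul (sub_ne_zero.2 hne2) hde'.1, hde'.2] at h2
    omega
  refine ⟨hPP, prodXC_injective ?_⟩
  ext1 i
  by_contra hne2
  have h3 := low' i
  rw [← hPP, ← mul_sub, natDegree_mul hP.ne_zero (sub_ne_zero.2 hne2)] at h3
  omega

end alg

section uf

/-- the generic point -/
noncomputable abbrev gen : ℕ → MvPolynomial ℕ ℂ := MvPolynomial.X

lemma Pi_eq_of_generic {f f' : Fr} (h : Pi gen f = Pi gen f') {S : Type*} [CommRing S]
    [Algebra ℂ S] (y : ℕ → S) : Pi y f = Pi y f' := by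
  have h1 := congrArg (Polynomial.map (MvPolynomial.aeval (R := ℂ) y).toRingHom) h
  rw [Pi_map, Pi_map] at h1
  simpa using h1

lemma AA_eq_BB {S : Type*} [CommRing S] (y : ℕ → S) (m : ℕ) (f : Fr) :
    AA y m f = BB (Pi y (f.small m)) ((f.big m).map (Fhat (Function.update y m 0))) := by
  unfold AA BB
  rw [List.map_map]
  rfl

lemma Pi_update_eq_of_Fhat {S : Type*} [CommRing S] {y : ℕ → S} {a b : Fr}
    (h : Fhat y a = Fhat y b) : Pi y a = Pi y b := by
  ext i
  have h1 := congrArg (fun q => Polynomial.coeff q (i + 1)) h
  simpa [Fhat, coeff_X_mul, coeff_C_succ] using h1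

lemma exists_max (f f' : Fr) (hf : f.toList ≠ [] ∨ f'.toList ≠ []) :
    ∃ m, 0 < m ∧ (∀ a ∈ f.toList, 1 + a.size ≤ m) ∧ (∀ a ∈ f'.toList, 1 + a.size ≤ m) ∧
      ((∃ a ∈ f.toList, 1 + a.size = m) ∨ (∃ a ∈ f'.toList, 1 + a.size = m)) := by
  have hne : (f.toList ++ f'.toList) ≠ [] := by
    intro h
    rw [List.append_eq_nil_iff] at h
    rcases hf with h' | h'
    · exact h' h.1
    · exact h' h.2
  have hne' : (f.toList ++ f'.toList).toFinset.Nonempty := by
    rw [Finset.nonempty_iff_ne_empty]
    intro h
    exact hne (List.toFinset_eq_empty_iff _ |>.1 h)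
  obtain ⟨a, ha, hmax⟩ := Finset.exists_max_image _ Fr.size hne'
  have key : ∀ b ∈ f.toList ++ f'.toList, b.size ≤ a.size := fun b hb =>
    hmax b (List.mem_toFinset.2 hb)
  refine ⟨1 + a.size, by omega, fun b hb => ?_, fun b hb => ?_, ?_⟩
  · have := key b (List.mem_append_left _ hb); omega
  · have := key b (List.mem_append_right _ hb); omega
  · rcases List.mem_append.1 (List.mem_toFinset.1 ha) with h | h
    · exact Or.inl ⟨a, h, rfl⟩
    · exact Or.inr ⟨a, h, rfl⟩

/-- converting equality of multisets of factors into equivalence of forests -/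
lemma equ_of_parts_eq {m : ℕ} {f f' : Fr} {S : Type*} [CommRing S] (y : ℕ → S)
    (ih : ∀ a ∈ f.toList, ∀ b ∈ f'.toList, Pi y a = Pi y b → Fr.Equ a b)
    (hs : Fr.Equ (f.small m) (f'.small m))
    (hb : ((f.big m).map (Fhat (Function.update y m 0)) : Multiset S[X]) =
      ((f'.big m).map (Fhat (Function.update y m 0)) : Multiset S[X])) : Fr.Equ f f' := by
  refine Fr.Equ.of_parts m hs ?_
  have h1 : Multiset.Rel (fun a b => Fhat (Function.update y m 0) a = Fhat (Function.update y m 0) b)
      (f.big m : Multiset Fr) (f'.big m : Multiset Fr) := by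
    rw [← Multiset.rel_map, Multiset.rel_eq, Multiset.map_coe, Multiset.map_coe]
    exact hb
  refine h1.mono (fun a ha b hb hab => ?_)
  have ha' := Fr.mem_big (Multiset.mem_coe.1 ha)
  have hb' := Fr.mem_big (Multiset.mem_coe.1 hb)
  have h2 := Pi_update_eq_of_Fhat hab
  rw [Pi_update_children y m 0 a ha'.1.le, Pi_update_children y m 0 b hb'.1.le] at h2
  exact ih a ha'.2 b hb'.2 h2

/-- Unique factorisation: the generic polynomial `Π f` determines the forest. -/
theorem equ_of_Pi_eq (n : ℕ) : ∀ f f' : Fr, f.size = n → Pi gen f = Pi gen f' → Fr.Equ f f' := by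
  induction n using Nat.strong_induction_on with
  | _ n ih =>
  intro f f' hn h
  have hsize : f.size = f'.size := by
    rw [← Pi_natDegree gen f, ← Pi_natDegree gen f', h]
  by_cases hne : f.toList ≠ [] ∨ f'.toList ≠ []
  · obtain ⟨m, hm, hf, hf', hex⟩ := exists_max f f' hne
    have hAA : AA gen m f = AA gen m f' := by
      rw [← sub_eq_zero]
      ext j i : 2
      rw [coeff_zero, coeff_zero]
      refine coeff_coeff_eq_zero _ i (fun s => ?_) j
      rw [eval_sub, AA_eval gen m f hf, AA_eval gen m f' hf',
        Pi_eq_of_generic h, sub_self, coeff_zero]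
    rw [AA_eq_BB, AA_eq_BB] at hAA
    obtain ⟨h1, h2⟩ := BB_injective (Pi_monic _ _).ne_zero (Pi_monic _ _).ne_zero hAA
    have hlen : (f.big m).length = (f'.big m).length := by
      have := congrArg Multiset.card h2
      simpa using this
    have hpos : 0 < (f.big m).length := by
      rcases hex with ⟨a, ha, ham⟩ | ⟨a, ha, ham⟩
      · exact List.length_pos_of_mem (Fr.mem_big_of ha ham)
      · rw [hlen]; exact List.length_pos_of_mem (Fr.mem_big_of ha ham)
    have hsm : (f.small m).size < n := by
      have h3 := Fr.size_eq_big_small m f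
      have h4 : 0 < (f.big m).length * m := Nat.mul_pos hpos hm
      omega
    refine equ_of_parts_eq gen (fun a ha b _ hab => ?_) (ih _ hsm _ _ rfl h1) h2
    have := mem_toList_size ha
    exact ih a.size (by omega) a b rfl hab
  · rw [not_or, not_not, not_not] at hne
    rw [← Fr.ofList_toList f, ← Fr.ofList_toList f', hne.1, hne.2]
    exact Fr.Equ.refl _

end uf

end Pool.MP_1af41f_co.CSF
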